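import Pool.Agent.H83.TU.HB

/-!
# [H32 TK T0] Theorem K: the space of the model of a scheme is `T0`
-/

set_option autoImplicit false

namespace Pool.Agent.H32.TK

open AlgebraicGeometry CategoryTheory Pool.Agent.H54.RV Pool.Agent.H83.TU

variable {Y : Scheme.{0}} [IsIntegral Y] (f : Y ⟶ Spec (.of ℂ))

theorem t0_mdl : T0Space (mdl f).P := (inferInstance : T0Space Y)

end Pool.Agent.H32.TK
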