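import Pool.Agent.H83.TU.UB
import Mathlib.RingTheory.AlgebraicIndependent.TranscendenceBasis

/-!
# [H32 TK GROW] Theorem K: the sections of the multiples of an ample divisor on a surface grow more than linearly

`A` ample, `trdeg K / k = 2`: `z 0`, `z 1` algebraically independent, `s i`, `s i * z i` sections of `m A`; the products
`s 0 ^ j * s 1 ^ j * z 0 ^ a * z 1 ^ b`, `a, b ≤ j`, are linearly independent sections of `2 m j A`.
-/

set_option autoImplicit false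

namespace Pool.Agent.H32.TK

open Pool.Agent.H54.RV Pool.Agent.H83.TU

variable {k K : Type} [Field k] [Field K] [Algebra k K] {X : Mod k K}

theorem mono_indep (z : Fin 2 → K) (hz : AlgebraicIndependent k z) (j : ℕ) :
    LinearIndependent k fun ab : Fin (j + 1) × Fin (j + 1) => z 0 ^ (ab.1 : ℕ) * z 1 ^ (ab.2 : ℕ) := by
  have h1 : LinearIndependent k fun m : Fin 2 →₀ ℕ =>
      (MvPolynomial.aeval z : MvPolynomial (Fin 2) k →ₐ[k] K) (MvPolynomial.monomial m 1) := by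
    have h2 := (MvPolynomial.basisMonomials (Fin 2) k).linearIndependent.map'
      (MvPolynomial.aeval z : MvPolynomial (Fin 2) k →ₐ[k] K).toLinearMap
      (LinearMap.ker_eq_bot.2 hz)
    have e : (fun m : Fin 2 →₀ ℕ =>
        (MvPolynomial.aeval z : MvPolynomial (Fin 2) k →ₐ[k] K) (MvPolynomial.monomial m 1)) =
        ⇑(MvPolynomial.aeval z : MvPolynomial (Fin 2) k →ₐ[k] K).toLinearMap ∘
          ⇑(MvPolynomial.basisMonomials (Fin 2) k) := by
      funext m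
      simp
    rw [e]
    exact h2
  have h3 : Function.Injective fun ab : Fin (j + 1) × Fin (j + 1) =>
      (Finsupp.equivFunOnFinite.symm ![(ab.1 : ℕ), (ab.2 : ℕ)] : Fin 2 →₀ ℕ) := by
    rintro ⟨a, b⟩ ⟨a', b'⟩ h
    have h4 := Finsupp.equivFunOnFinite.symm.injective h
    have h5 : (a : ℕ) = a' := congrFun h4 0
    have h6 : (b : ℕ) = b' := congrFun h4 1
    rw [Fin.ext h5, Fin.ext h6]
  have h4 := h1.comp _ h3
  have e : (fun ab : Fin (j + 1) × Fin (j + 1) => z 0 ^ (ab.1 : ℕ) * z 1 ^ (ab.2 : ℕ)) =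
      (fun m : Fin 2 →₀ ℕ =>
        (MvPolynomial.aeval z : MvPolynomial (Fin 2) k →ₐ[k] K) (MvPolynomial.monomial m 1)) ∘
      fun ab : Fin (j + 1) × Fin (j + 1) =>
        (Finsupp.equivFunOnFinite.symm ![(ab.1 : ℕ), (ab.2 : ℕ)] : Fin 2 →₀ ℕ) := by
    funext ab
    simp [MvPolynomial.aeval_monomial, Finsupp.prod_fintype, Fin.prod_univ_two]
  rw [e]
  exact h4

/-- two algebraically independent functions give quadratic growth -/
theorem grow_z [CharZero k] (hX : IsVar X) (hg : ∃ g, Gen X g) (z : Fin 2 → K) (hzi : AlgebraicIndependent k z) (A : Cart X)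
    (hA : Ample A) (hfin : ∀ D : Cart X, Module.Finite k (secL D 1)) (C : ℝ) :
    ∃ n : ℕ, 1 ≤ n ∧ C * n < (h0 (A ^ n) 1 : ℝ) := by
  obtain ⟨g, hg⟩ := hg
  have hUF : UF X := uf_all hX
  choose m₀ hm₀ using fun i => hUF A {g} (z i) hA (fun x hx => by
    rw [Finset.mem_singleton.1 hx, hg.top]
    exact Algebra.mem_top)
  obtain ⟨m, hm⟩ : ∃ m, m = max (max (m₀ 0) (m₀ 1)) 1 := ⟨_, rfl⟩
  have hm1 : 1 ≤ m := by rw [hm]; exact le_max_right _ _
  have hmi : ∀ i, m₀ i ≤ m := by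
    intro i
    rw [hm]
    fin_cases i
    · exact (le_max_left _ _).trans (le_max_left _ _)
    · exact (le_max_right _ _).trans (le_max_left _ _)
  choose t ht1 ht2 ht3 using fun i => hm₀ i m (hmi i)
  have ht0 : ∀ i, t i ≠ 0 := fun i => left_ne_zero_of_mul (ht3 i g (Finset.mem_singleton_self g)).1
  have key : ∀ (i : Fin 2) (j a : ℕ), a ≤ j → ∀ y, t i ^ j * z i ^ a * A.eq y ^ (m * j) ∈ X.O y := by
    intro i j a ha y
    have e1 : t i ^ j * z i ^ a * A.eq y ^ (m * j) =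
        (t i * A.eq y ^ m) ^ (j - a) * (t i * z i * A.eq y ^ m) ^ a := by
      obtain ⟨b, rfl⟩ : ∃ b, j = a + b := ⟨j - a, by omega⟩
      rw [Nat.add_sub_cancel_left, pow_mul, mul_pow, mul_pow, mul_pow, pow_add, pow_add]
      ring
    rw [e1]
    exact (X.O y).mul_mem ((X.O y).pow_mem (ht1 i y) _) ((X.O y).pow_mem (ht2 i y) _)
  have hbig : ∀ j : ℕ, (j + 1) ^ 2 ≤ h0 (A ^ (2 * m * j)) 1 := by
    intro j
    have hfin' := hfin (A ^ (2 * m * j))
    obtain ⟨c, hc⟩ : ∃ c, c = t 0 ^ j * t 1 ^ j := ⟨_, rfl⟩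
    have hc0 : c ≠ 0 := by rw [hc]; exact mul_ne_zero (pow_ne_zero _ (ht0 0)) (pow_ne_zero _ (ht0 1))
    have hmem : ∀ ab : Fin (j + 1) × Fin (j + 1),
        c * (z 0 ^ (ab.1 : ℕ) * z 1 ^ (ab.2 : ℕ)) ∈ secL (A ^ (2 * m * j)) 1 := by
      intro ab y
      rw [pow_one, pow_eq]
      have h3 := (X.O y).mul_mem (key 0 j ab.1 (by omega) y) (key 1 j ab.2 (by omega) y)
      have e1 : c * (z 0 ^ (ab.1 : ℕ) * z 1 ^ (ab.2 : ℕ)) * A.eq y ^ (2 * m * j) =
          t 0 ^ j * z 0 ^ (ab.1 : ℕ) * A.eq y ^ (m * j) * (t 1 ^ j * z 1 ^ (ab.2 : ℕ) * A.eq y ^ (m * j)) := by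
        rw [hc]
        have e2 : 2 * m * j = m * j + m * j := by ring
        rw [e2, pow_add]
        ring
      rw [e1]
      exact h3
    have hli : LinearIndependent k fun ab : Fin (j + 1) × Fin (j + 1) =>
        (⟨c * (z 0 ^ (ab.1 : ℕ) * z 1 ^ (ab.2 : ℕ)), hmem ab⟩ : secL (A ^ (2 * m * j)) 1) := by
      refine LinearIndependent.of_comp (secL (A ^ (2 * m * j)) 1).subtype ?_
      have h4 := (mono_indep z hzi j).map' (LinearMap.mulLeft k c) (by
        rw [LinearMap.ker_eq_bot]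
        exact mul_right_injective₀ hc0)
      exact h4
    have h5 := hli.fintype_card_le_finrank
    rw [Fintype.card_prod, Fintype.card_fin] at h5
    unfold h0
    calc (j + 1) ^ 2 = (j + 1) * (j + 1) := sq _
      _ ≤ _ := h5
  obtain ⟨j, hj⟩ := exists_nat_gt (max C 1 * (2 * m))
  have hj0 : (0 : ℝ) < j := lt_of_le_of_lt (by positivity) hj
  have hj1 : 1 ≤ j := by
    have : 0 < j := by exact_mod_cast hj0
    exact this
  refine ⟨2 * m * j, Nat.mul_pos (Nat.mul_pos two_pos hm1) hj1, ?_⟩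
  have h6 : (((j + 1) ^ 2 : ℕ) : ℝ) ≤ (h0 (A ^ (2 * m * j)) 1 : ℝ) := by exact_mod_cast hbig j
  refine lt_of_lt_of_le ?_ h6
  push_cast
  have h7 : C * (2 * m * j) ≤ max C 1 * (2 * m) * j := by
    have h8 : C * (2 * m * (j : ℝ)) ≤ max C 1 * (2 * m * j) :=
      mul_le_mul_of_nonneg_right (le_max_left _ _) (by positivity)
    linarith
  have h8 : max C 1 * (2 * m) * j ≤ (j : ℝ) * j := mul_le_mul_of_nonneg_right hj.le hj0.le
  nlinarith

theorem exists_indep {n : ℕ} (h : (n : Cardinal) ≤ Algebra.trdeg k K) :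
    ∃ z : Fin n → K, AlgebraicIndependent k z := by
  obtain ⟨s, hs⟩ := exists_isTranscendenceBasis k K
  have h1 : Cardinal.mk (Fin n) ≤ Cardinal.mk s := by
    rw [hs.cardinalMk_eq_trdeg, Cardinal.mk_fin]
    exact h
  obtain ⟨e⟩ := Cardinal.le_def _ _ |>.1 h1
  exact ⟨fun i => ((e i : s) : K), hs.1.comp e e.injective⟩

theorem grow2 (hX : IsVar X) (hg : ∃ g, Gen X g) [CharZero k] (htr : Algebra.trdeg k K = 2) (A : Cart X)
    (hA : Ample A) (hfin : ∀ D : Cart X, Module.Finite k (secL D 1)) (C : ℝ) :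
    ∃ n : ℕ, 1 ≤ n ∧ C * n < (h0 (A ^ n) 1 : ℝ) := by
  obtain ⟨z, hz⟩ := exists_indep (k := k) (K := K) (n := 2) (by rw [htr]; norm_num)
  exact grow_z hX hg z hz A hA hfin C

end Pool.Agent.H32.TK
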