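import Pool.Agent.H32.TK.C2
import Pool.Agent.H32.TK.Grow
import Pool.Agent.H83.TK.SubE
import Pool.Agent.H39.TK.Base
import Pool.Agent.H20.TK.Tau

/-!
# [H32 TK SURF] Theorem K: the sections on a prime surface of a threefold which satisfies (CY)

`triT q`: the trilinear form `tau q` of `H20/TK/Tau.lean` as a bundled trilinear form; `chiS (triT q) l t = chT q l c t`.
`mul_le`: on a variety `Z`: if `D` has a nonzero section, then `h0 W ≤ h0 (W * D)`.
`pow_split`: an effective divisor is `n S + E'`, `E'` effective and not containing the prime surface `S`.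
`surf_of`: `hT W = h0 (resD hX P.η W) 1` satisfies `Surf`.
-/

set_option autoImplicit false

namespace Pool.Agent.H32.TK

open Pool.Agent.H54.RV Pool.Agent.H83.TU Pool.Agent.H83.TK Pool.Agent.H39.TK

variable {k K : Type} [Field k] [Field K] [Algebra k K] {X : Mod k K}
  {ν : Cart X →* Multiplicative (Fin 2 → ℤ)}

/-- `tau q` as a trilinear form -/
def triT (q : Fin 4 → ℝ) : Tri :=
  LinearMap.mk₂ ℝ (fun u w =>
    { toFun := fun t => Pool.Agent.H20.TK.tau q u w t
      map_add' := fun t t' => Pool.Agent.H20.TK.tau_add3 q t t' u w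
      map_smul' := fun r t => Pool.Agent.H20.TK.tau_smul3 q r t u w })
    (fun u u' w => LinearMap.ext fun t => Pool.Agent.H20.TK.tau_add q u u' w t)
    (fun r u w => LinearMap.ext fun t => Pool.Agent.H20.TK.tau_smul q r u w t)
    (fun u w w' => LinearMap.ext fun t => Pool.Agent.H20.TK.tau_add2 q w w' u t)
    (fun r u w => LinearMap.ext fun t => Pool.Agent.H20.TK.tau_smul2 q r w u t)

theorem triT_apply (q : Fin 4 → ℝ) (u w t : Fin 2 → ℝ) : triT q u w t = Pool.Agent.H20.TK.tau q u w t := rfl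

theorem triT_sym (q : Fin 4 → ℝ) : Sym3 (triT q) where
  s12 := Pool.Agent.H20.TK.tau_comm q
  s23 := Pool.Agent.H20.TK.tau_comm' q

theorem chiS_triT (q : Fin 4 → ℝ) (l : (Fin 2 → ℝ) →ₗ[ℝ] ℝ) (c : ℝ) (t u : Fin 2 → ℝ) :
    chiS (triT q) l t u = Pool.Agent.H20.TK.chT q l c t u := by
  rw [Pool.Agent.H20.TK.chT_eq]
  rfl

/-- multiplication by a nonzero section -/
theorem mul_le (D W : Cart X) (hf : Module.Finite k (secL (W * D) 1)) (hD : 0 < h0 D 1) :
    h0 W 1 ≤ h0 (W * D) 1 := by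
  have h1 : ∃ s : secL D 1, s ≠ 0 := by
    by_contra h2
    push Not at h2
    have h3 : Subsingleton (secL D 1) := ⟨fun a b => by rw [h2 a, h2 b]⟩
    unfold h0 at hD
    rw [Module.finrank_zero_of_subsingleton] at hD
    exact lt_irrefl _ hD
  obtain ⟨s, hs⟩ := h1
  have hs0 : (s : K) ≠ 0 := fun h => hs (Subtype.ext h)
  have hmem : ∀ f : secL W 1, (s : K) * f ∈ secL (W * D) 1 := by
    intro f y
    have h2 := (X.O y).mul_mem (s.2 y) (f.2 y)
    have e : (s : K) * f * (W * D).eq y ^ 1 = (s : K) * D.eq y ^ 1 * ((f : K) * W.eq y ^ 1) := by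
      rw [mul_eq]
      ring
    rw [e]
    exact h2
  let φ : secL W 1 →ₗ[k] secL (W * D) 1 :=
    { toFun := fun f => ⟨(s : K) * f, hmem f⟩
      map_add' := fun f g => Subtype.ext (mul_add _ _ _)
      map_smul' := fun c f => Subtype.ext (mul_smul_comm _ _ _) }
  have hφ : Function.Injective φ := by
    intro f g hfg
    have h2 : (s : K) * f = (s : K) * g := congrArg (fun t : secL (W * D) 1 => (t : K)) hfg
    exact Subtype.ext (mul_left_cancel₀ hs0 h2)
  exact LinearMap.finrank_le_finrank_of_injective hφ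

theorem pos_of_sec (D : Cart X) (hf : Module.Finite k (secL D 1)) {s : K} (hs : s ∈ secL D 1) (h0s : s ≠ 0) :
    0 < h0 D 1 := by
  unfold h0
  have h3 : Nontrivial (secL D 1) := ⟨⟨⟨s, hs⟩, 0, fun h => h0s (congrArg (fun t : secL D 1 => (t : K)) h)⟩⟩
  exact Module.finrank_pos

/-- the divisor of a prime surface: orders -/
theorem spr_ord (P : PDiv X) {S : Cart X} (hS : SPr X P.η S) : P.p.ord (S.eq P.η) = 1 := by
  have h1 : S.eq P.η ∈ X.O P.η := hS.eff P.η
  have h2 : 0 ≤ P.p.ord (S.eq P.η) := (ord_nonneg P.p _ (S.ne _)).2 ((P.mem _).1 h1)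
  have h3 : P.p.ord (S.eq P.η) ≠ 0 := by
    intro h4
    obtain ⟨h5, h6⟩ := (ord_eq_zero P.p _ (S.ne _)).1 h4
    exact hS.nun P.η specializes_rfl ⟨S.ne _, (P.mem _).2 h5, (P.mem _).2 h6⟩
  obtain ⟨t, ht0, ht⟩ := ord_unif P.p
  have h4 : t ∈ X.O P.η := (P.mem _).2 ((ord_nonneg P.p t ht0).1 (by omega))
  have h5 : ¬ Un (X.O P.η) t := by
    rintro ⟨-, h6, h7⟩
    have := (ord_eq_zero P.p t ht0).2 ⟨(P.mem _).1 h6, (P.mem _).1 h7⟩
    omega
  have h6 := hS.ker P.η specializes_rfl t h4 h5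
  have h7 : 0 ≤ P.p.ord (t / S.eq P.η) :=
    (ord_nonneg P.p _ (div_ne_zero ht0 (S.ne _))).2 ((P.mem _).1 h6)
  rw [div_eq_mul_inv, ord_mul P.p _ _ ht0 (inv_ne_zero (S.ne _)), ord_inv, ht] at h7
  omega

theorem pow_split (hX : IsVar X) (P : PDiv X) {S : Cart X} (hS : SPr X P.η S) (n : ℕ) :
    ∀ E : Cart X, Effective E → P.p.ord (E.eq P.η) = n →
      ∃ E' : Cart X, Effective E' ∧ Un (X.O P.η) (E'.eq P.η) ∧ E = S ^ n * E' := by
  induction n with
  | zero =>
    intro E hE h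
    refine ⟨E, hE, ?_, by rw [pow_zero, one_mul]⟩
    obtain ⟨h1, h2⟩ := (ord_eq_zero P.p _ (E.ne _)).1 (by rw [h]; rfl)
    exact ⟨E.ne _, (P.mem _).2 h1, (P.mem _).2 h2⟩
  | succ n ih =>
    intro E hE h
    have hun : ¬ Un (X.O P.η) (E.eq P.η) := by
      rintro ⟨-, h1, h2⟩
      have := (ord_eq_zero P.p _ (E.ne _)).2 ⟨(P.mem _).1 h1, (P.mem _).1 h2⟩
      push_cast at h
      omega
    have hE1 : Effective (E * S⁻¹) := by
      intro x
      rw [mul_eq, inv_eq, ← div_eq_mul_inv, hS.mem_iff hX x (hE x)]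
      intro hx h1
      apply hun
      have h2 := quo_un E P.η x hx
      have h3 : E.eq P.η = E.eq x * (E.eq x / E.eq P.η)⁻¹ := by
        have := E.ne x
        have := E.ne P.η
        field_simp
      rw [h3]
      exact un_mul h1 (un_inv h2)
    have hord : P.p.ord ((E * S⁻¹).eq P.η) = n := by
      rw [mul_eq, inv_eq, ord_mul P.p _ _ (E.ne _) (inv_ne_zero (S.ne _)), ord_inv, spr_ord P hS, h]
      push_cast
      ring
    obtain ⟨E', h1, h2, h3⟩ := ih (E * S⁻¹) hE1 hord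
    refine ⟨E', h1, h2, ?_⟩
    have h4 : E = E * S⁻¹ * S := by rw [inv_mul_cancel_right]
    rw [h4, h3, pow_succ, mul_right_comm]

/-- the restriction of an effective divisor which does not contain the surface has a nonzero section -/
theorem res_pos (hX : IsVar X) (ζ : X.P) (E : Cart X) (hE : Effective E) (hu : Un (X.O ζ) (E.eq ζ))
    (hf : Module.Finite k (secL (resD hX ζ E) 1)) : 0 < h0 (resD hX ζ E) 1 := by
  have h1 := res_eff hX ζ E hE hu
  have h2 : X.rs ζ (E.eq ζ) ≠ 0 := (rs_ne ζ hu.2.1).2 hu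
  have hmem : X.rs ζ (E.eq ζ) ∈ secL (resD hX ζ E) 1 := by
    intro x
    have h3 := h1 x
    rw [mul_eq, mul_comm] at h3
    rw [pow_one]
    exact h3
  exact pos_of_sec _ hf hmem h2

theorem surf_of [CharZero k] (h : Hyp X) {q : Fin 4 → ℝ} {l : (Fin 2 → ℝ) →ₗ[ℝ] ℝ} {c : ℝ}
    (hCY : Pool.Agent.H20.TK.CY q l c ν) (hF : FinX X) (hZ : FinZ h.var)
    (hSer : ∀ H : Cart X, Ample H → Ser h.var H) (P : PDiv X) {S : Cart X} (hS : SPr X P.η S)
    (htr : Algebra.trdeg k (X.kap P.η) = 2) :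
    Surf ν (triT q) l S (fun W => h0 (resD h.var P.η W) 1) where
  asy := by
    intro W A hA
    obtain ⟨n1, h1⟩ := hSer A hA P.η W
    obtain ⟨n2, h2⟩ := hCY.ev W A hA
    obtain ⟨n3, h3⟩ := hCY.ev (W * S⁻¹) A hA
    refine ⟨n1 + n2 + n3, fun n hn => ?_⟩
    have e1 := h1 n (by omega)
    have e2 := h2 n (by omega)
    have e3 := h3 n (by omega)
    have hfin : Module.Finite k (secL (W * A ^ n) 1) := hF _
    have e4 := ex_dim h.var hS (W * A ^ n) 1
    rw [LinearMap.range_eq_top.2 e1, finrank_top, pow_one] at e4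
    have e5 : W * A ^ n * S⁻¹ = W * S⁻¹ * A ^ n := by rw [mul_right_comm]
    rw [e5] at e4
    have e6 : (h0 (W * A ^ n) 1 : ℝ) = (h0 (W * S⁻¹ * A ^ n) 1 : ℝ) +
        (h0 (resD h.var P.η (W * A ^ n)) 1 : ℝ) := by
      exact_mod_cast e4
    rw [chiS_triT q l c]
    unfold Pool.Agent.H20.TK.chT
    have e7 : cv ν (W * S⁻¹ * A ^ n) = cv ν (W * A ^ n) - cv ν S := by
      rw [cv_mul, cv_mul, cv_mul, cv_inv]
      abel
    rw [e7] at e3
    rw [← e2, ← e3]
    linarith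
  mono := by
    intro D W hD
    rw [map_mul]
    exact mul_le _ _ (hZ P.η _) hD
  res := by
    intro E hE
    have h1 : 0 ≤ P.p.ord (E.eq P.η) := (ord_nonneg P.p _ (E.ne _)).2 ((P.mem _).1 (hE P.η))
    obtain ⟨E', h2, h3, h4⟩ := pow_split h.var P hS (P.p.ord (E.eq P.η)).toNat E hE (by omega)
    refine ⟨(P.p.ord (E.eq P.η)).toNat, E', ?_, res_pos h.var P.η E' h2 h3 (hZ P.η _)⟩
    conv_lhs => rw [h4]
    rw [cv_mul, cv_pow]
  grow := by
    intro A hA C
    obtain ⟨n, hn, hn2⟩ := grow2 (isVar_sub h.var P.η) ⟨_, gen_sub h.var P.η⟩ htr (resD h.var P.η A)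
      (res_ample h.var P.η A hA) (hZ P.η) C
    refine ⟨n, hn, ?_⟩
    rw [map_pow]
    exact hn2

end Pool.Agent.H32.TK
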