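import Pool.Agent.H32.TK.B1D
import Pool.Agent.H24.TK.Ser
import Pool.Agent.H83.TK.Dim

/-!
# [H32 TK HC] Theorem K: effective divisors are sums of prime divisors

`aae_nn`, `aae_one`: `0 ≤ A² E` for `E` effective, `1 ≤ A² S` for `S` prime (`A` ample).
`factor`: an effective divisor is the sum of prime divisors and of a trivial divisor.
-/

set_option autoImplicit false

namespace Pool.Agent.H32.TK

open Pool.Agent.H57.KM Pool.Agent.H54.RV Pool.Agent.H83.TU Pool.Agent.H83.TK Pool.Agent.H20.TK Pool.Agent.H39.TK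

variable {k K : Type} [Field k] [Field K] [Algebra k K] {X : Mod k K}
  {ν : Cart X →* Multiplicative (Fin 2 → ℤ)} {q : Fin 4 → ℝ} {l : (Fin 2 → ℝ) →ₗ[ℝ] ℝ} {c : ℝ}

theorem finX [CharZero k] (h : Hyp X) : FinX X := by
  obtain ⟨A, hA⟩ := h.amp
  exact fun D => Pool.Agent.H24.TK.fd h.var h.gen hA D

theorem finZ [CharZero k] (h : Hyp X) : FinZ h.var := by
  obtain ⟨A, hA⟩ := h.amp
  exact fun ζ D => Pool.Agent.H24.TK.fd (isVar_sub h.var ζ) ⟨_, gen_sub h.var ζ⟩ (res_ample h.var ζ A hA) D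

theorem ser_all [CharZero k] (h : Hyp X) (H : Cart X) (hH : Ample H) : Ser h.var H :=
  fun ζ W => Pool.Agent.H24.TK.ser_ample h.var hH ζ W

theorem exists_bas (hν : Num ν) : ∃ b : Fin 2 → Cart X, ∀ i, cv ν (b i) = Pi.single i 1 := by
  have h1 : ∀ i : Fin 2, ∃ D : Cart X, cv ν D = Pi.single i 1 := by
    intro i
    obtain ⟨D, hD⟩ := cv_surj hν (Pi.single i 1)
    refine ⟨D, ?_⟩
    rw [hD]
    funext j
    fin_cases i <;> fin_cases j <;> simp
  choose b hb using h1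
  exact ⟨b, hb⟩

theorem tau_int' (h : Hyp X) (hν : Num ν) (hcy : CY q l c ν) (D E F : Cart X) :
    ∃ z : ℤ, tau q (cv ν D) (cv ν E) (cv ν F) = z := by
  obtain ⟨b, hb⟩ := exists_bas hν
  obtain ⟨A, hA⟩ := h.amp
  rw [← toR_cz, ← toR_cz, ← toR_cz]
  exact tau_int (H := cz ν A) hcy hb ((amp_bas h.var hν hb _).2 (ampV_cv ν A hA)) _ _ _

/-- `0 ≤ A² E` for an effective divisor -/
theorem aae_nn [CharZero k] (h : Hyp X) (hν : Num ν) (hcy : CY q l c ν) {A E : Cart X} (hA : Ample A)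
    (hE : Effective E) : 0 ≤ tau q (cv ν A) (cv ν A) (cv ν E) := by
  have ho : IsOpen (AmpV ν) := Pool.Agent.H36.TU.ampV_open h.var hν
  by_contra hneg
  push Not at hneg
  obtain ⟨a, ha⟩ : ∃ a, a = cv ν A := ⟨_, rfl⟩
  obtain ⟨e, he⟩ : ∃ e, e = cv ν E := ⟨_, rfl⟩
  rw [← ha, ← he] at hneg
  -- `n A + E` is ample for large `n`
  obtain ⟨n₀, hn₀⟩ : ∃ n₀ : ℕ, ∀ n ≥ n₀, Ample (A ^ n * E) := by
    obtain ⟨m, hm, hamp⟩ := ample_add h.var A E hA
    refine ⟨m, fun n hn => ?_⟩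
    obtain ⟨i, rfl⟩ : ∃ i, n = i + m := ⟨n - m, by omega⟩
    rcases Nat.eq_zero_or_pos i with h1 | h1
    · rw [h1, zero_add]
      exact hamp
    · rw [pow_add, mul_assoc]
      exact ample_mul h.var _ _ (ample_pow A i h1 hA) hamp
  obtain ⟨C, hC⟩ : ∃ C, C = |tau q a e e| + |tau q e e e| := ⟨_, rfl⟩
  obtain ⟨n, hn⟩ := exists_nat_gt (max (max (n₀ : ℝ) 1) (C / -tau q a a e))
  have hn1 : (n₀ : ℝ) < n := lt_of_le_of_lt ((le_max_left _ _).trans (le_max_left _ _)) hn
  have hn2 : (1 : ℝ) < n := lt_of_le_of_lt ((le_max_right _ _).trans (le_max_left _ _)) hn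
  have hn3 : C < n * -tau q a a e := by
    have := lt_of_le_of_lt (le_max_right _ _) hn
    rwa [div_lt_iff₀ (by linarith)] at this
  have hn4 : n₀ ≤ n := by exact_mod_cast hn1.le
  have hn5 : 1 ≤ n := by exact_mod_cast hn2.le
  have h1 := tau_mono h hcy (ample_pow A n hn5 hA) hE (hn₀ n hn4)
  rw [cv_mul, cv_pow, ← ha, ← he] at h1
  have e1 : tau q ((n : ℝ) • a + e) ((n : ℝ) • a + e) ((n : ℝ) • a + e) =
      tau q ((n : ℝ) • a) ((n : ℝ) • a) ((n : ℝ) • a) + 3 * n ^ 2 * tau q a a e + 3 * n * tau q a e e +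
        tau q e e e := by
    unfold tau
    simp only [Pi.add_apply, Pi.smul_apply, smul_eq_mul]
    ring
  rw [e1] at h1
  have a1 := le_abs_self (tau q a e e)
  have a2 := le_abs_self (tau q e e e)
  have a3 := abs_nonneg (tau q a e e)
  have a4 := abs_nonneg (tau q e e e)
  have h2 : 0 ≤ 3 * (n : ℝ) ^ 2 * tau q a a e + 3 * n * |tau q a e e| + |tau q e e e| := by
    have : 3 * (n : ℝ) * tau q a e e ≤ 3 * n * |tau q a e e| := mul_le_mul_of_nonneg_left a1 (by positivity)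
    linarith
  have h3 : |tau q e e e| ≤ 3 * n * |tau q e e e| := by nlinarith
  have h4 : 3 * (n : ℝ) * C < 3 * n * (n * -tau q a a e) := mul_lt_mul_of_pos_left hn3 (by positivity)
  rw [hC] at h4
  nlinarith

/-- `1 ≤ A² S` for a prime divisor -/
theorem aae_one [CharZero k] (h : Hyp X) (hν : Num ν) (hcy : CY q l c ν) {A S : Cart X} (hA : Ample A)
    (P : PDiv X) (hS : SPr X P.η S) : 1 ≤ tau q (cv ν A) (cv ν A) (cv ν S) := by
  have h1 := (surf_of h hcy (finX h) (finZ h) (ser_all h) P hS (trdeg_pdiv h P)).pos hA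
  rw [triT_apply] at h1
  obtain ⟨z, hz⟩ := tau_int' h hν hcy A A S
  rw [hz] at h1 ⊢
  have h2 : (0 : ℤ) < z := by exact_mod_cast h1
  have h3 : (1 : ℤ) ≤ z := h2
  exact_mod_cast h3

/-- an effective divisor which is not trivial contains a prime divisor -/
theorem split_prime (h : Hyp X) {D : Cart X} (hD : Effective D) (hn : ¬ Effective D⁻¹) :
    ∃ (P : PDiv X) (S : Cart X), SPr X P.η S ∧ Effective (D * S⁻¹) := by
  obtain ⟨P, hP⟩ := exists_pdiv h D hD hn
  obtain ⟨S, hS⟩ := pdiv_spr h P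
  refine ⟨P, S, hS, ?_⟩
  have hun : ¬ Un (X.O P.η) (D.eq P.η) := by
    rintro ⟨-, h1, h2⟩
    have := (ord_eq_zero P.p _ (D.ne _)).2 ⟨(P.mem _).1 h1, (P.mem _).1 h2⟩
    omega
  intro x
  rw [mul_eq, inv_eq, ← div_eq_mul_inv, hS.mem_iff h.var x (hD x)]
  intro hx h1
  apply hun
  have h2 := quo_un D P.η x hx
  have h3 : D.eq P.η = D.eq x * (D.eq x / D.eq P.η)⁻¹ := by
    have := D.ne x
    have := D.ne P.η
    field_simp
  rw [h3]
  exact un_mul h1 (un_inv h2)

/-- an effective divisor is a sum of prime divisors, up to a trivial divisor -/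
theorem factor [CharZero k] (h : Hyp X) (hν : Num ν) (hcy : CY q l c ν) {E : Cart X} (hE : Effective E) :
    ∃ (Ls : List (PDiv X × Cart X)) (U : Cart X), (∀ p ∈ Ls, SPr X p.1.η p.2) ∧ Effective U ∧ Effective U⁻¹ ∧
      E = (Ls.map Prod.snd).prod * U := by
  obtain ⟨A, hA⟩ := h.amp
  obtain ⟨n, hn⟩ := exists_nat_ge (tau q (cv ν A) (cv ν A) (cv ν E))
  induction n generalizing E with
  | zero =>
    by_cases h1 : Effective E⁻¹
    · exact ⟨[], E, by simp, hE, h1, by simp⟩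
    · exfalso
      obtain ⟨P, S, hS, hT⟩ := split_prime h hE h1
      have h2 := aae_nn h hν hcy hA hT
      have h3 := aae_one h hν hcy hA P hS
      rw [cv_mul, cv_inv, ← sub_eq_add_neg, tau_sub3] at h2
      rw [Nat.cast_zero] at hn
      linarith
  | succ n ih =>
    by_cases h1 : Effective E⁻¹
    · exact ⟨[], E, by simp, hE, h1, by simp⟩
    · obtain ⟨P, S, hS, hT⟩ := split_prime h hE h1
      have h3 := aae_one h hν hcy hA P hS
      obtain ⟨Ls, U, h4, h5, h6, h7⟩ := ih hT (by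
        rw [cv_mul, cv_inv, ← sub_eq_add_neg, tau_sub3]
        push_cast at hn
        linarith)
      refine ⟨(P, S) :: Ls, U, ?_, h5, h6, ?_⟩
      · intro p hp
        rcases List.mem_cons.1 hp with h8 | h8
        · rw [h8]
          exact hS
        · exact h4 p h8
      · rw [List.map_cons, List.prod_cons, mul_assoc, ← h7, mul_comm S, inv_mul_cancel_right]

end Pool.Agent.H32.TK
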