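import Pool.Agent.H32.TK.Tri
import Pool.Agent.H41.TU.Dio

/-!
# [H32 TK C2] Theorem K, case 2 of (C): `p ^ 2 . T > 0` for an irrational boundary class `p` which is big

`L` is a group of divisors with a member in every class; `T` is a prime surface, `hT W` the dimension of the space of sections of the restriction of `W` to `T`.
`Surf ν τ l T hT`: the properties of `hT` which are used.
`case2`: let `p` be a nef class in the interior of the effective cone, with coordinates `x`, `y` (`y p = 0`, `y > 0` on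
the ample cone, `y ≠ 0` on the nonzero integral classes).  If `chi_T(W) ≤ hT W` for the `W` near the ray of `p`, on
both sides, then `0 < τ p p T`.
PROOF.  `τ p A T > 0` for `A` ample (`≥ 0` as `A` has sections on `T`; it is an integral functional of `p`, not zero as
`τ A A T > 0`).  Suppose `τ p p T = 0`.  `p - ε A` is effective, a combination of `T` and of divisors with sections on
`T`, so `- ε τ p A T = τ p (p - ε A) T ≥ a τ p T T`, so `τ p T T < 0`.  For `W = a p + b A` with `b < 0` small, `a` large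
`chi_T(W) = a (b τ p A T - τ p T T / 2) + bounded > 0`, so `W` has a section on `T`, and `0 ≤ τ p W T = b τ p A T < 0`.
-/

set_option autoImplicit false

namespace Pool.Agent.H32.TK

open Pool.Agent.H54.RV Pool.Agent.H83.TU Filter Topology

variable {k K : Type} [Field k] [Field K] [Algebra k K] {X : Mod k K}
  {ν : Cart X →* Multiplicative (Fin 2 → ℤ)} {τ : Tri} {l : (Fin 2 → ℝ) →ₗ[ℝ] ℝ}

variable (ν τ l) in
/-- the properties of the dimensions `hT W` of the spaces of sections on the prime surface `T` -/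
structure Surf (T : Cart X) (hT : Cart X → ℕ) : Prop where
  asy : ∀ W A : Cart X, Ample A → ∃ n₀ : ℕ, ∀ n ≥ n₀,
    (hT (W * A ^ n) : ℝ) = chiS τ l (cv ν T) (cv ν (W * A ^ n))
  mono : ∀ D W : Cart X, 0 < hT D → hT W ≤ hT (W * D)
  res : ∀ E : Cart X, Effective E →
    ∃ (a : ℕ) (E' : Cart X), cv ν E = (a : ℝ) • cv ν T + cv ν E' ∧ 0 < hT E'
  grow : ∀ A : Cart X, Ample A → ∀ C : ℝ, ∃ n : ℕ, 1 ≤ n ∧ C * n < hT (A ^ n)

private theorem lin_nn {a B : ℝ} {N : ℕ} (h : ∀ n : ℕ, N ≤ n → 0 ≤ n * a + B) : 0 ≤ a := by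
  by_contra ha
  push Not at ha
  obtain ⟨m, hm⟩ := exists_nat_gt (B / -a)
  have h1 := h (max N m) (le_max_left _ _)
  have h2 : (m : ℝ) ≤ ((max N m : ℕ) : ℝ) := by exact_mod_cast le_max_right _ _
  rw [div_lt_iff₀ (by linarith)] at hm
  have h3 : ((max N m : ℕ) : ℝ) * a ≤ m * a := mul_le_mul_of_nonpos_right h2 ha.le
  linarith

theorem Surf.nn {T : Cart X} {hT : Cart X → ℕ} (hS : Surf ν τ l T hT) (hs : Sym3 τ) {A D : Cart X}
    (hA : Ample A) (hD : 0 < hT D) : 0 ≤ τ (cv ν A) (cv ν D) (cv ν T) := by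
  obtain ⟨n1, h1⟩ := hS.asy 1 A hA
  obtain ⟨n2, h2⟩ := hS.asy D A hA
  refine lin_nn (B := τ (cv ν D) (cv ν D) (cv ν T) / 2 - τ (cv ν D) (cv ν T) (cv ν T) / 2)
    (N := max n1 n2) fun n hn => ?_
  have e1 := h1 n ((le_max_left _ _).trans hn)
  have e2 := h2 n ((le_max_right _ _).trans hn)
  have e3 := hS.mono D (1 * A ^ n) hD
  have e4 : 1 * A ^ n * D = D * A ^ n := by rw [one_mul, mul_comm]
  rw [e4] at e3
  have e5 : (hT (1 * A ^ n) : ℝ) ≤ hT (D * A ^ n) := by exact_mod_cast e3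
  rw [e1, e2, one_mul, cv_mul, cv_pow, add_comm (cv ν D)] at e5
  have e6 := chiS_add (l := l) hs ((n : ℝ) • cv ν A) (cv ν D) (cv ν T)
  rw [map_smul, LinearMap.smul_apply, LinearMap.smul_apply, smul_eq_mul] at e6
  linarith

theorem Surf.pos {T : Cart X} {hT : Cart X → ℕ} (hS : Surf ν τ l T hT) {A : Cart X}
    (hA : Ample A) : 0 < τ (cv ν A) (cv ν A) (cv ν T) := by
  by_contra hneg
  push Not at hneg
  obtain ⟨n0, h0⟩ := hS.asy 1 A hA
  obtain ⟨B, hB⟩ : ∃ B, B = τ (cv ν T) (cv ν T) (cv ν T) / 6 + l (cv ν T) := ⟨_, rfl⟩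
  obtain ⟨u, hu⟩ : ∃ u, u = τ (cv ν A) (cv ν T) (cv ν T) := ⟨_, rfl⟩
  obtain ⟨n, hn1, hn⟩ := hS.grow A hA
    (|u| + |B| + ∑ i ∈ Finset.range n0, (hT (A ^ i) : ℝ))
  have hnR : (1 : ℝ) ≤ n := by exact_mod_cast hn1
  have hsum : 0 ≤ ∑ i ∈ Finset.range n0, (hT (A ^ i) : ℝ) :=
    Finset.sum_nonneg fun _ _ => Nat.cast_nonneg _
  rcases lt_or_ge n n0 with h | h
  · have h2 : (hT (A ^ n) : ℝ) ≤ ∑ i ∈ Finset.range n0, (hT (A ^ i) : ℝ) :=
      Finset.single_le_sum (f := fun i => (hT (A ^ i) : ℝ)) (fun _ _ => Nat.cast_nonneg _)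
        (Finset.mem_range.2 h)
    have h3 : (|u| + |B| + ∑ i ∈ Finset.range n0, (hT (A ^ i) : ℝ)) * 1 ≤
        (|u| + |B| + ∑ i ∈ Finset.range n0, (hT (A ^ i) : ℝ)) * n :=
      mul_le_mul_of_nonneg_left hnR (by positivity)
    have := abs_nonneg u
    have := abs_nonneg B
    linarith
  · have h2 := h0 n h
    rw [one_mul, cv_pow] at h2
    unfold chiS at h2
    simp only [map_smul, LinearMap.smul_apply, smul_eq_mul] at h2
    rw [← hu] at h2
    rw [h2] at hn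
    have h3 : (n : ℝ) * ((n : ℝ) * τ (cv ν A) (cv ν A) (cv ν T)) ≤ 0 :=
      mul_nonpos_of_nonneg_of_nonpos (by positivity)
        (mul_nonpos_of_nonneg_of_nonpos (by positivity) hneg)
    have h4 : -(n * u) ≤ n * |u| := by
      have := neg_abs_le u
      nlinarith
    have h5 : B ≤ |B| * n := by
      have h6 := le_abs_self B
      have h7 : |B| * 1 ≤ |B| * n := mul_le_mul_of_nonneg_left hnR (abs_nonneg _)
      linarith
    have h8 : 0 ≤ (∑ i ∈ Finset.range n0, (hT (A ^ i) : ℝ)) * n := by positivity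
    have h9 : 0 ≤ (n : ℝ) * |u| := by positivity
    nlinarith

/-- a linear form which is nonnegative on the classes of ample divisors is nonnegative on the nef cone -/
theorem clos_nn (f : (Fin 2 → ℝ) →ₗ[ℝ] ℝ) (h : ∀ A : Cart X, Ample A → 0 ≤ f (cv ν A))
    {v : Fin 2 → ℝ} (hv : v ∈ closure (AmpV ν)) : 0 ≤ f v := by
  have hc : IsClosed {v : Fin 2 → ℝ | 0 ≤ f v} :=
    isClosed_le continuous_const f.continuous_of_finiteDimensional
  refine closure_minimal ?_ hc hv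
  rintro _ ⟨m, c, D, hcc, hD, rfl⟩
  show 0 ≤ f (∑ i, c i • cv ν (D i))
  rw [map_sum]
  refine Finset.sum_nonneg fun i _ => ?_
  rw [map_smul, smul_eq_mul]
  exact mul_nonneg (hcc i).le (h _ (hD i))

theorem Surf.nn_p {T : Cart X} {hT : Cart X → ℕ} (hS : Surf ν τ l T hT) (hs : Sym3 τ) {D : Cart X}
    (hD : 0 < hT D) {v : Fin 2 → ℝ} (hv : v ∈ closure (AmpV ν)) : 0 ≤ τ v (cv ν D) (cv ν T) := by
  have h1 := clos_nn (ν := ν) (τ (cv ν D) (cv ν T)) (fun A hA => by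
    have h2 := hS.nn hs hA hD
    rwa [hs.s12, hs.s23] at h2) hv
  rw [hs.s12, hs.s23]
  exact h1

theorem Surf.nn_A {T : Cart X} {hT : Cart X → ℕ} (hS : Surf ν τ l T hT) (hs : Sym3 τ) {A : Cart X}
    (hA : Ample A) {v : Fin 2 → ℝ} (hv : v ∈ closure (AmpV ν)) : 0 ≤ τ v (cv ν A) (cv ν T) := by
  obtain ⟨n, hn1, hn⟩ := hS.grow A hA 0
  rw [zero_mul] at hn
  have h1 := hS.nn_p hs (D := A ^ n) (by exact_mod_cast hn) hv
  rw [cv_pow, map_smul, LinearMap.smul_apply, smul_eq_mul] at h1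
  have h2 : (0 : ℝ) < n := by exact_mod_cast hn1
  exact nonneg_of_mul_nonneg_right h1 h2

theorem Surf.nn_pp {T : Cart X} {hT : Cart X → ℕ} (hS : Surf ν τ l T hT) (hs : Sym3 τ)
    {v : Fin 2 → ℝ} (hv : v ∈ closure (AmpV ν)) : 0 ≤ τ v v (cv ν T) := by
  have h1 := clos_nn (ν := ν) (τ v (cv ν T)) (fun A hA => by
    have h2 := hS.nn_A hs hA hv
    rwa [hs.s23] at h2) hv
  rw [hs.s23]
  exact h1

/-- an integral linear form which vanishes at `p` is zero -/
theorem irr_zero (hν : Num ν) {p : Fin 2 → ℝ} {x y : (Fin 2 → ℝ) →ₗ[ℝ] ℝ} (yp : y p = 0) (xp : 0 < x p)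
    (yirr : ∀ D : Cart X, y (cv ν D) = 0 → cv ν D = 0) (f : (Fin 2 → ℝ) →ₗ[ℝ] ℝ)
    (hint : ∀ D : Cart X, ∃ z : ℤ, f (cv ν D) = z) (hf : f p = 0) : f = 0 := by
  obtain ⟨D0, hD0⟩ := cv_surj hν (Pi.single 0 1)
  obtain ⟨D1, hD1⟩ := cv_surj hν (Pi.single 1 1)
  obtain ⟨a, ha⟩ := hint D0
  obtain ⟨b, hb⟩ := hint D1
  have e0 : cv ν D0 = Pi.single 0 1 := by
    rw [hD0]; funext j; fin_cases j <;> simp
  have e1 : cv ν D1 = Pi.single 1 1 := by
    rw [hD1]; funext j; fin_cases j <;> simp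
  have hdec : ∀ v : Fin 2 → ℝ, v = v 0 • (Pi.single 0 1 : Fin 2 → ℝ) + v 1 • (Pi.single 1 1 : Fin 2 → ℝ) := by
    intro v
    funext j
    fin_cases j <;> simp
  have hfv : ∀ v : Fin 2 → ℝ, f v = v 0 * a + v 1 * b := by
    intro v
    rw [hdec v, map_add, map_smul, map_smul, ← e0, ← e1, ha, hb, e0, e1]
    simp
  obtain ⟨S, hS⟩ := cv_surj hν ![b, -a]
  have hS0 : cv ν S 0 = b := by rw [hS]; simp
  have hS1 : cv ν S 1 = -a := by rw [hS]; simp
  have hyv : ∀ v : Fin 2 → ℝ, y v = v 0 * y (Pi.single 0 1) + v 1 * y (Pi.single 1 1) := by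
    intro v
    conv_lhs => rw [hdec v]
    rw [map_add, map_smul, map_smul, smul_eq_mul, smul_eq_mul]
  rw [hfv] at hf
  have hyS : y (cv ν S) = 0 := by
    have h1 : p ≠ 0 := by
      rintro rfl
      rw [map_zero] at xp
      exact lt_irrefl _ xp
    have h2 := hyv (cv ν S)
    rw [hS0, hS1] at h2
    have h3 := hyv p
    rw [yp] at h3
    have h4 : p 0 * y (cv ν S) = 0 := by
      rw [h2]
      linear_combination (-(b : ℝ)) * h3 - y (Pi.single 1 1) * hf
    have h5 : p 1 * y (cv ν S) = 0 := by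
      rw [h2]
      linear_combination (a : ℝ) * h3 + y (Pi.single 0 1) * hf
    by_contra h6
    apply h1
    funext j
    fin_cases j
    · exact (mul_eq_zero.1 h4).resolve_right h6
    · exact (mul_eq_zero.1 h5).resolve_right h6
  have h0 := yirr S hyS
  have hb0 : (b : ℝ) = 0 := by rw [← hS0, h0]; rfl
  have ha0 : (a : ℝ) = 0 := by
    have : -(a : ℝ) = 0 := by rw [← hS1, h0]; rfl
    linarith
  ext j
  rw [LinearMap.comp_apply, hfv, ha0, hb0]
  simp

/-- integral classes near the ray of `p`, outside of the nef cone -/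
theorem exists_out {L : Subgroup (Cart X)} (hL : ∀ s : Fin 2 → ℤ, ∃ D ∈ L, cv ν D = fun i => (s i : ℝ))
    {p : Fin 2 → ℝ} {x y : (Fin 2 → ℝ) →ₗ[ℝ] ℝ} (xp : 0 < x p)
    (inj : ∀ v, x v = 0 → y v = 0 → v = 0) (xint : ∀ D : Cart X, ∃ m : ℤ, x (cv ν D) = m)
    (yirr : ∀ D : Cart X, y (cv ν D) = 0 → cv ν D = 0) {η : ℝ} (hη : 0 < η) (N : ℕ) :
    ∃ W ∈ L, -η < y (cv ν W) ∧ y (cv ν W) < 0 ∧ (N : ℝ) ≤ x (cv ν W) := by
  obtain ⟨D0, -, hD0⟩ := hL (Pi.single 0 1)
  obtain ⟨D1, -, hD1⟩ := hL (Pi.single 1 1)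
  obtain ⟨m, hm⟩ := xint D0
  obtain ⟨n, hn⟩ := xint D1
  have e0 : cv ν D0 = Pi.single 0 1 := by
    rw [hD0]; funext j; fin_cases j <;> simp
  have e1 : cv ν D1 = Pi.single 1 1 := by
    rw [hD1]; funext j; fin_cases j <;> simp
  have hdec : ∀ (f : (Fin 2 → ℝ) →ₗ[ℝ] ℝ) (v : Fin 2 → ℝ), f v = v 0 * f (cv ν D0) + v 1 * f (cv ν D1) := by
    intro f v
    have h : v = v 0 • (Pi.single 0 1 : Fin 2 → ℝ) + v 1 • (Pi.single 1 1 : Fin 2 → ℝ) := by
      funext j
      fin_cases j <;> simp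
    conv_lhs => rw [h]
    rw [map_add, map_smul, map_smul, smul_eq_mul, smul_eq_mul, e0, e1]
  have hΔ : (m : ℝ) * (-y (cv ν D1)) - n * (-y (cv ν D0)) ≠ 0 := by
    intro h
    have h1 : (![(n : ℝ), -m] : Fin 2 → ℝ) = 0 := by
      refine inj _ ?_ ?_
      · rw [hdec x, hm, hn]
        simp
        ring
      · rw [hdec y]
        simp
        linarith
    have h2 : (n : ℝ) = 0 := congrFun h1 0
    have h3 : -(m : ℝ) = 0 := congrFun h1 1
    have h4 := hdec x p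
    rw [hm, hn, h2] at h4
    have h5 : (m : ℝ) = 0 := by linarith
    rw [h5] at h4
    simp at h4
    linarith
  have hirr : ∀ a b : ℤ, -y (cv ν D0) * a + -y (cv ν D1) * b = 0 → a = 0 ∧ b = 0 := by
    intro a b h
    obtain ⟨S, -, hS⟩ := hL ![a, b]
    have h1 : y (cv ν S) = 0 := by
      rw [hdec y, hS]
      simp
      linarith
    have h2 := yirr S h1
    rw [hS] at h2
    constructor
    · have h3 := congrFun h2 0
      simpa using h3
    · have h3 := congrFun h2 1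
      simpa using h3
  obtain ⟨C, hC⟩ := Pool.Agent.H41.TU.dio _ _ m n hΔ hirr
  obtain ⟨a, b, h1, h2, h3, -⟩ := hC (η / (N + 1)) (by positivity)
  obtain ⟨S, hSL, hS⟩ := hL ![a, b]
  have hy : y (cv ν S) = -(-y (cv ν D0) * a + -y (cv ν D1) * b) := by
    rw [hdec y, hS]
    simp
    ring
  have hx : x (cv ν S) = m * a + n * b := by
    rw [hdec x, hS, hm, hn]
    simp
    ring
  have hx1 : 1 ≤ x (cv ν S) := by
    rw [hx]
    have h4 : ((0 : ℤ) : ℝ) < ((m * a + n * b : ℤ) : ℝ) := by push_cast; linarith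
    have h5 : (0 : ℤ) < m * a + n * b := by exact_mod_cast h4
    have h6 : (1 : ℤ) ≤ m * a + n * b := h5
    exact_mod_cast h6
  have hN : (0 : ℝ) < (N : ℝ) + 1 := by positivity
  refine ⟨S ^ (N + 1), L.pow_mem hSL _, ?_, ?_, ?_⟩
  · rw [cv_pow, map_smul, smul_eq_mul, hy]
    rw [lt_div_iff₀ hN] at h2
    push_cast
    linarith
  · rw [cv_pow, map_smul, smul_eq_mul, hy]
    push_cast
    have := mul_pos hN h1
    linarith
  · rw [cv_pow, map_smul, smul_eq_mul]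
    push_cast
    nlinarith

theorem case2 (hν : Num ν) (hs : Sym3 τ)
    (hint : ∀ D E F : Cart X, ∃ z : ℤ, τ (cv ν D) (cv ν E) (cv ν F) = z)
    {T : Cart X} {hT : Cart X → ℕ} (hS : Surf ν τ l T hT) (hamp : ∃ A : Cart X, Ample A)
    {p : Fin 2 → ℝ} {x y : (Fin 2 → ℝ) →ₗ[ℝ] ℝ} (yp : y p = 0) (xp : 0 < x p)
    (inj : ∀ v, x v = 0 → y v = 0 → v = 0) (xint : ∀ D : Cart X, ∃ m : ℤ, x (cv ν D) = m)
    (yamp : ∀ A : Cart X, Ample A → 0 < y (cv ν A))
    (yirr : ∀ D : Cart X, y (cv ν D) = 0 → cv ν D = 0)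
    (hp : p ∈ closure (AmpV ν)) (hpe : p ∈ interior (EffV ν))
    {L : Subgroup (Cart X)} (hL : ∀ s : Fin 2 → ℤ, ∃ D ∈ L, cv ν D = fun i => (s i : ℝ))
    (hlow : ∃ δ > (0 : ℝ), ∃ X₀ : ℝ, ∀ W ∈ L, X₀ ≤ x (cv ν W) → |y (cv ν W)| ≤ δ * x (cv ν W) →
      chiS τ l (cv ν T) (cv ν W) ≤ hT W) :
    0 < τ p p (cv ν T) := by
  obtain ⟨A, hA⟩ := hamp
  have hAA := hS.pos hA
  -- τ p A T > 0
  have hg : 0 < τ p (cv ν A) (cv ν T) := by
    refine lt_of_le_of_ne (hS.nn_A hs hA hp) fun h => ?_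
    have h1 := irr_zero hν yp xp yirr (τ (cv ν A) (cv ν T)) (fun D => hint A T D) (by
      rw [← hs.s23, ← hs.s12]
      exact h.symm)
    rw [hs.s23, h1] at hAA
    simp at hAA
  by_contra hneg
  have h0 : τ p p (cv ν T) = 0 := le_antisymm (not_lt.1 hneg) (hS.nn_pp hs hp)
  -- τ p T T < 0
  have hu : τ p (cv ν T) (cv ν T) < 0 := by
    by_contra hu
    push Not at hu
    have hcont : Continuous fun e : ℝ => p - e • cv ν A := by fun_prop
    have h1 : ∀ᶠ e : ℝ in 𝓝 0, p - e • cv ν A ∈ interior (EffV ν) := by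
      have h2 := hcont.continuousAt (x := (0 : ℝ))
      have h3 : interior (EffV ν) ∈ 𝓝 (p - (0 : ℝ) • cv ν A) := by
        rw [zero_smul, sub_zero]
        exact isOpen_interior.mem_nhds hpe
      exact h2 h3
    obtain ⟨e, he0, he⟩ := ((h1.filter_mono nhdsWithin_le_nhds).and
      (self_mem_nhdsWithin : Set.Ioi (0 : ℝ) ∈ 𝓝[>] 0)).exists
    obtain ⟨m, cc, E, hc, hE, hv⟩ := interior_subset he0
    have h2 : τ p (p - e • cv ν A) (cv ν T) = -(e * τ p (cv ν A) (cv ν T)) := by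
      rw [map_sub, map_smul, LinearMap.sub_apply, LinearMap.smul_apply, h0, smul_eq_mul, zero_sub]
    have h3 : 0 ≤ τ p (p - e • cv ν A) (cv ν T) := by
      rw [hv, map_sum, LinearMap.sum_apply]
      refine Finset.sum_nonneg fun i _ => ?_
      rw [map_smul, LinearMap.smul_apply, smul_eq_mul]
      refine mul_nonneg (hc i) ?_
      obtain ⟨a, E', h4, h5⟩ := hS.res (E i) (hE i)
      rw [h4, map_add, map_smul, LinearMap.add_apply, LinearMap.smul_apply, smul_eq_mul]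
      have h6 := hS.nn_p hs h5 hp
      have h7 : 0 ≤ (a : ℝ) * τ p (cv ν T) (cv ν T) := mul_nonneg (Nat.cast_nonneg _) hu
      linarith
    rw [h2] at h3
    have h4 : 0 < e * τ p (cv ν A) (cv ν T) := mul_pos he hg
    linarith
  -- the class W
  obtain ⟨g, hgg⟩ : ∃ g, g = τ p (cv ν A) (cv ν T) := ⟨_, rfl⟩
  obtain ⟨u, huu⟩ : ∃ u, u = τ p (cv ν T) (cv ν T) := ⟨_, rfl⟩
  rw [← hgg] at hg
  rw [← huu] at hu
  obtain ⟨δ, hδ, X₀, hlow⟩ := hlow
  obtain ⟨C, hC⟩ : ∃ C, C = |τ (cv ν A) (cv ν A) (cv ν T)| + |τ (cv ν A) (cv ν T) (cv ν T)| +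
    |τ (cv ν T) (cv ν T) (cv ν T) / 6 + l (cv ν T)| := ⟨_, rfl⟩
  have hC0 : 0 ≤ C := by rw [hC]; positivity
  obtain ⟨β, hβ⟩ : ∃ β, β = min 1 (-u / (4 * g)) := ⟨_, rfl⟩
  have hβ0 : 0 < β := by
    rw [hβ]
    exact lt_min one_pos (div_pos (by linarith) (by linarith))
  have hβ1 : β ≤ 1 := by rw [hβ]; exact min_le_left _ _
  have hβ2 : β * g ≤ -u / 4 := by
    have h1 : β ≤ -u / (4 * g) := by rw [hβ]; exact min_le_right _ _
    rw [le_div_iff₀ (by linarith)] at h1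
    linarith
  have hyA := yamp A hA
  obtain ⟨N, hN⟩ := exists_nat_gt (max (max X₀ (β * y (cv ν A) / δ))
    (|x (cv ν A)| + x p * (4 * C / -u + 1)))
  have hN1 : X₀ < N := lt_of_le_of_lt ((le_max_left _ _).trans (le_max_left _ _)) hN
  have hN2 : β * y (cv ν A) / δ < N := lt_of_le_of_lt ((le_max_right _ _).trans (le_max_left _ _)) hN
  have hN3 : |x (cv ν A)| + x p * (4 * C / -u + 1) < N := lt_of_le_of_lt (le_max_right _ _) hN
  obtain ⟨W, hWL, hW1, hW2, hW3⟩ := exists_out hL xp inj xint yirr (η := β * y (cv ν A))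
    (mul_pos hβ0 hyA) N
  obtain ⟨b, hb⟩ : ∃ b, b = y (cv ν W) / y (cv ν A) := ⟨_, rfl⟩
  obtain ⟨a, ha⟩ : ∃ a, a = (x (cv ν W) - b * x (cv ν A)) / x p := ⟨_, rfl⟩
  have hyb : y (cv ν W) = b * y (cv ν A) := by rw [hb]; field_simp
  have hxa : x (cv ν W) = a * x p + b * x (cv ν A) := by rw [ha]; field_simp; ring
  have hWab : cv ν W = a • p + b • cv ν A := by
    have h1 := inj (cv ν W - (a • p + b • cv ν A)) (by
      rw [map_sub, map_add, map_smul, map_smul, smul_eq_mul, smul_eq_mul, hxa, sub_self]) (by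
      rw [map_sub, map_add, map_smul, map_smul, smul_eq_mul, smul_eq_mul, yp, hyb]
      ring)
    exact sub_eq_zero.1 h1
  have hb0 : b < 0 := by
    rw [hyb] at hW2
    by_contra h1
    have h2 := mul_nonneg (not_lt.1 h1) hyA.le
    linarith
  have hb1 : -β < b := by
    rw [hyb] at hW1
    have h1 : -β * y (cv ν A) < b * y (cv ν A) := by linarith
    exact lt_of_mul_lt_mul_right h1 hyA.le
  have ha1 : 4 * C / -u + 1 < a := by
    rw [ha, lt_div_iff₀ xp]
    have h1 : b * x (cv ν A) ≤ |x (cv ν A)| := by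
      have h2 : |b * x (cv ν A)| ≤ 1 * |x (cv ν A)| := by
        rw [abs_mul]
        refine mul_le_mul_of_nonneg_right ?_ (abs_nonneg _)
        rw [abs_le]
        constructor <;> linarith
      have h3 := le_abs_self (b * x (cv ν A))
      linarith
    linarith
  have ha0 : 0 < a := by
    have h1 : 0 ≤ 4 * C / -u := div_nonneg (by linarith) (by linarith)
    linarith
  have hchi : 0 < chiS τ l (cv ν T) (cv ν W) := by
    rw [hWab, chiS_comb hs, h0, ← hgg, ← huu]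
    have h1 : -u / 4 ≤ b * g - u / 2 := by
      have h2 : -β * g ≤ b * g := mul_le_mul_of_nonneg_right hb1.le hg.le
      linarith
    have h2 : a * (-u / 4) ≤ a * (b * g - u / 2) := mul_le_mul_of_nonneg_left h1 ha0.le
    have h3 : C < a * (-u / 4) := by
      have h4 : 4 * C / -u < a := by linarith
      rw [div_lt_iff₀ (by linarith)] at h4
      linarith
    have hbb : b ^ 2 ≤ 1 := by nlinarith
    have h5 : -|τ (cv ν A) (cv ν A) (cv ν T)| ≤ b ^ 2 * (τ (cv ν A) (cv ν A) (cv ν T) / 2) := by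
      have h6 : 0 ≤ b ^ 2 * (τ (cv ν A) (cv ν A) (cv ν T) / 2) := by positivity
      have h7 := abs_nonneg (τ (cv ν A) (cv ν A) (cv ν T))
      linarith
    have h6 : -|τ (cv ν A) (cv ν T) (cv ν T)| ≤ -(b * (τ (cv ν A) (cv ν T) (cv ν T) / 2)) := by
      have h7 : |b * (τ (cv ν A) (cv ν T) (cv ν T) / 2)| ≤ 1 * |τ (cv ν A) (cv ν T) (cv ν T)| := by
        rw [abs_mul, abs_div, abs_two]
        have h8 : |b| ≤ 1 := abs_le.2 ⟨by linarith, by linarith⟩
        have h9 := abs_nonneg (τ (cv ν A) (cv ν T) (cv ν T))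
        exact mul_le_mul h8 (by linarith) (by positivity) zero_le_one
      have h8 := le_abs_self (b * (τ (cv ν A) (cv ν T) (cv ν T) / 2))
      linarith
    have h7 := neg_abs_le (τ (cv ν T) (cv ν T) (cv ν T) / 6 + l (cv ν T))
    rw [hC] at h3
    have h8 : a ^ 2 * ((0 : ℝ) / 2) = 0 := by ring
    rw [h8]
    linarith
  have hpos : (0 : ℝ) < hT W := by
    refine lt_of_lt_of_le hchi (hlow W hWL (hN1.le.trans hW3) ?_)
    rw [abs_of_neg hW2]
    rw [div_lt_iff₀ hδ] at hN2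
    have h1 : (N : ℝ) * δ ≤ x (cv ν W) * δ := mul_le_mul_of_nonneg_right hW3 hδ.le
    linarith
  have hfin := hS.nn_p hs (D := W) (by exact_mod_cast hpos) hp
  rw [hWab, map_add, map_smul, map_smul, LinearMap.add_apply, LinearMap.smul_apply,
    LinearMap.smul_apply, h0, ← hgg, smul_eq_mul, smul_eq_mul, mul_zero, zero_add] at hfin
  have := mul_neg_of_neg_of_pos hb0 hg
  linarith

end Pool.Agent.H32.TK
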