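import Pool.Agent.H32.TK.Amp
import Pool.Agent.H32.TK.C2
import Pool.Agent.H36.TU.AB

/-!
# [H32 TK NAK] Theorem K: the last step of (5)

`nak`: `p` is a nef class, `y p = 0`, `y > 0` on the ample cone.  Suppose that for every point `z` with residue field `k`
all divisors `W` of the group `L` near the ray of `p` (on both sides, depending on `z`) have sections which do not vanish at
`z`.  This is impossible.
PROOF.  `H` ample, in `L`.  For every such `z` there are `G` outside (`y(G) < 0`), near `p`, and `n` such that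
`n G - H` has a section which does not vanish at `z`.  Finitely many `G_j` suffice for all points.  Let `G'` be outside,
between `p` and all `G_j`: `k G' = N G_j + A_j`, `A_j` ample.  Then `(k n q) G' - H = N q (n G_j - H) + (q (n A_j + N H) - H)`
has a section which does not vanish at `z`, `q` large.  By `ample_of_sec` `G'` is ample, so `y(G') > 0`: contradiction.
-/

set_option autoImplicit false

namespace Pool.Agent.H32.TK

open Pool.Agent.H54.RV Pool.Agent.H83.TU Filter Topology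

variable {k K : Type} [Field k] [Field K] [Algebra k K] {X : Mod k K}
  {ν : Cart X →* Multiplicative (Fin 2 → ℤ)}

theorem add_closure (ho : IsOpen (AmpV ν)) {q v : Fin 2 → ℝ} (hq : q ∈ closure (AmpV ν))
    (hv : v ∈ AmpV ν) : q + v ∈ AmpV ν := by
  have h1 : IsOpen {u : Fin 2 → ℝ | v - (u - q) ∈ AmpV ν} := ho.preimage (by fun_prop)
  obtain ⟨u, hu1, hu2⟩ := mem_closure_iff.1 hq _ h1 (by
    show v - (q - q) ∈ AmpV ν
    rw [sub_self, sub_zero]
    exact hv)
  have h2 : q + v = u + (v - (u - q)) := by abel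
  rw [h2]
  exact ampV_add hu2 hu1

theorem comb_mem (ho : IsOpen (AmpV ν)) {q v : Fin 2 → ℝ} (hq : q ∈ closure (AmpV ν))
    (hv : v ∈ AmpV ν) {a b : ℝ} (ha : 0 ≤ a) (hb : 0 < b) : a • q + b • v ∈ AmpV ν := by
  rcases ha.eq_or_lt with h | h
  · rw [← h, zero_smul, zero_add]
    exact ampV_smul hb hv
  · have h1 : a • q + b • v = a • (q + (b / a) • v) := by
      rw [smul_add, smul_smul, mul_div_cancel₀ _ h.ne']
    rw [h1]
    exact ampV_smul h (add_closure ho hq (ampV_smul (div_pos hb h) hv))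

private theorem fin_min {ι : Type} (T : Finset ι) (f : ι → ℝ) (h : ∀ i ∈ T, 0 < f i) :
    ∃ ρ : ℝ, 0 < ρ ∧ ∀ i ∈ T, ρ ≤ f i := by
  classical
  induction T using Finset.induction_on with
  | empty => exact ⟨1, one_pos, fun i hi => absurd hi (Finset.notMem_empty i)⟩
  | insert a T _ ih =>
    obtain ⟨ρ, h0, h1⟩ := ih fun i hi => h i (Finset.mem_insert_of_mem hi)
    refine ⟨min ρ (f a), lt_min h0 (h a (Finset.mem_insert_self a T)), fun i hi => ?_⟩
    rcases Finset.mem_insert.1 hi with h2 | h2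
    · rw [h2]
      exact min_le_right _ _
    · exact (min_le_left _ _).trans (h1 i h2)

private theorem comm_id {M : Type} [CommGroup M] (g a h c : M) :
    g * a * h⁻¹ = g * c⁻¹ * (a * c * h⁻¹) := by
  rw [mul_comm a c, mul_assoc c a, mul_assoc g c⁻¹, inv_mul_cancel_left, mul_assoc]

/-- coordinates with respect to `p` and `H` -/
theorem coord {p h : Fin 2 → ℝ} {x y : (Fin 2 → ℝ) →ₗ[ℝ] ℝ} (yp : y p = 0) (xp : 0 < x p)
    (inj : ∀ v, x v = 0 → y v = 0 → v = 0) (yh : 0 < y h) (v : Fin 2 → ℝ) :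
    v = ((x v - y v / y h * x h) / x p) • p + (y v / y h) • h := by
  have h1 := inj (v - (((x v - y v / y h * x h) / x p) • p + (y v / y h) • h)) (by
    rw [map_sub, map_add, map_smul, map_smul, smul_eq_mul, smul_eq_mul, div_mul_cancel₀ _ xp.ne']
    ring) (by
    rw [map_sub, map_add, map_smul, map_smul, smul_eq_mul, smul_eq_mul, yp, mul_zero, zero_add,
      div_mul_cancel₀ _ yh.ne', sub_self])
  exact sub_eq_zero.1 h1

/-- sections of the multiples of a divisor `G'` between `G` and the ample cone -/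
theorem sec_between (hX : IsVar X) {H G G' A : Cart X} (hH : Ample H) (hA : Ample A) {n N m : ℕ} (hn : 1 ≤ n)
    (hm : 1 ≤ m) (he : G' ^ m = G ^ N * A) {s : K} (hs : Sec (G ^ n * H⁻¹) 1 s) {z : X.P}
    (hz : z ∈ nz (G ^ n * H⁻¹) 1 s) :
    ∃ q : ℕ, 1 ≤ q ∧ ∃ s' : K, Sec (G' ^ q * H⁻¹) 1 s' ∧ z ∈ nz (G' ^ q * H⁻¹) 1 s' := by
  have hB : Ample (A ^ n * H ^ N) := by
    rcases Nat.eq_zero_or_pos N with h | h
    · rw [h, pow_zero, mul_one]
      exact ample_pow A n hn hA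
    · exact ample_mul hX _ _ (ample_pow A n hn hA) (ample_pow H N h hH)
  obtain ⟨m₀, hm₀⟩ := un_pt hX (A ^ n * H ^ N) H⁻¹ hB z
  obtain ⟨t, ht1, ht2⟩ := hm₀ (m₀ + 1) (Nat.le_succ _)
  have e1 : G' ^ (m * n * (m₀ + 1)) * H⁻¹ =
      (G ^ n * H⁻¹) ^ (N * (m₀ + 1)) * ((A ^ n * H ^ N) ^ (m₀ + 1) * H⁻¹) := by
    rw [pow_mul, pow_mul, he, mul_pow, mul_pow, mul_pow, mul_pow, ← pow_mul, ← pow_mul, ← pow_mul,
      ← pow_mul, ← pow_mul, inv_pow]
    have e2 : N * (n * (m₀ + 1)) = n * (N * (m₀ + 1)) := by ring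
    rw [e2]
    exact comm_id _ _ _ _
  have e3 : ∀ y, s ^ (N * (m₀ + 1)) * ((G ^ n * H⁻¹) ^ (N * (m₀ + 1))).eq y ^ 1 =
      (s * (G ^ n * H⁻¹).eq y ^ 1) ^ (N * (m₀ + 1)) := by
    intro y
    rw [pow_one, pow_one, pow_eq, mul_pow]
  refine ⟨m * n * (m₀ + 1), Nat.mul_pos (Nat.mul_pos hm hn) (Nat.succ_pos _),
    s ^ (N * (m₀ + 1)) * t, ?_, ?_⟩
  · rw [e1]
    refine sec_mul _ _ _ _ (fun y => ?_) ht1
    rw [e3]
    exact (X.O y).pow_mem (hs y) _
  · rw [e1]
    refine nz_mul _ _ _ _ z ?_ ht2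
    show Un (X.O z) (s ^ (N * (m₀ + 1)) * ((G ^ n * H⁻¹) ^ (N * (m₀ + 1))).eq z ^ 1)
    rw [e3]
    exact un_pow hz _

theorem nak [IsAlgClosed k] (hX : IsVar X) (hν : Num ν) (hamp : ∃ A : Cart X, Ample A)
    {p : Fin 2 → ℝ} {x y : (Fin 2 → ℝ) →ₗ[ℝ] ℝ} (yp : y p = 0) (xp : 0 < x p)
    (inj : ∀ v, x v = 0 → y v = 0 → v = 0) (xint : ∀ D : Cart X, ∃ m : ℤ, x (cv ν D) = m)
    (yamp : ∀ A : Cart X, Ample A → 0 < y (cv ν A))
    (yirr : ∀ D : Cart X, y (cv ν D) = 0 → cv ν D = 0)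
    (hp : p ∈ closure (AmpV ν))
    {L : Subgroup (Cart X)} (hL : ∀ s : Fin 2 → ℤ, ∃ D ∈ L, cv ν D = fun i => (s i : ℝ))
    (hsec : ∀ z : X.P, Function.Surjective (algebraMap k (X.kap z)) →
      ∃ δ > (0 : ℝ), ∃ X₀ : ℝ, ∀ W ∈ L, X₀ ≤ x (cv ν W) → |y (cv ν W)| ≤ δ * x (cv ν W) →
        ∃ s : K, Sec W 1 s ∧ z ∈ nz W 1 s) : False := by
  have ho : IsOpen (AmpV ν) := Pool.Agent.H36.TU.ampV_open hX hν
  have hAC : AC ν := Pool.Agent.H36.TU.ac_holds hX hν
  obtain ⟨A, hA⟩ := hamp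
  obtain ⟨H, hHL, hHc⟩ := hL (fun i => Multiplicative.toAdd (ν A) i)
  have hH : Ample H := ample_congr hν A H hA hHc
  have yH := yamp H hH
  have hHV := ampV_cv ν H hH
  obtain ⟨B, hB⟩ : ∃ B, B = |x (cv ν H)| / y (cv ν H) := ⟨_, rfl⟩
  have hB0 : 0 ≤ B := by rw [hB]; positivity
  -- the coordinates of a class outside, near the ray
  have hco : ∀ G : Cart X, y (cv ν G) < 0 → 1 ≤ x (cv ν G) → -y (cv ν G) * B ≤ 1 / 2 →
      ∃ a b : ℝ, 0 < b ∧ 1 / (2 * x p) ≤ a ∧ b = -y (cv ν G) / y (cv ν H) ∧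
        cv ν G = a • p - b • cv ν H := by
    intro G h1 h2 h3
    refine ⟨(x (cv ν G) - y (cv ν G) / y (cv ν H) * x (cv ν H)) / x p, -y (cv ν G) / y (cv ν H),
      div_pos (by linarith) yH, ?_, rfl, ?_⟩
    · rw [div_le_div_iff₀ (by positivity) xp]
      have h4 : y (cv ν G) / y (cv ν H) * x (cv ν H) ≤ 1 / 2 := by
        refine le_trans ?_ h3
        rw [hB]
        have h5 : y (cv ν G) / y (cv ν H) * x (cv ν H) ≤ |y (cv ν G) / y (cv ν H) * x (cv ν H)| :=
          le_abs_self _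
        refine h5.trans (le_of_eq ?_)
        rw [abs_mul, abs_div, abs_of_neg h1, abs_of_pos yH]
        ring
      have h5 : 1 / 2 ≤ x (cv ν G) - y (cv ν G) / y (cv ν H) * x (cv ν H) := by linarith
      have h6 := mul_le_mul_of_nonneg_right h5 (show 0 ≤ 2 * x p by positivity)
      linarith
    · have h4 := coord yp xp inj yH (cv ν G)
      rw [sub_eq_add_neg, ← neg_smul, neg_div, neg_neg]
      exact h4
  -- one point
  have hpt : ∀ z : X.P, ∃ (G : Cart X) (n : ℕ) (s : K), 1 ≤ n ∧ Sec (G ^ n * H⁻¹) 1 s ∧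
      z ∈ nz (G ^ n * H⁻¹) 1 s ∧ y (cv ν G) < 0 ∧ 1 ≤ x (cv ν G) ∧ -y (cv ν G) * B ≤ 1 / 2 := by
    intro z
    obtain ⟨w, hzw, hw⟩ := closed_pt hX z
    obtain ⟨δ, hδ, X₀, hsec⟩ := hsec w hw
    obtain ⟨G, hGL, hG1, hG2, hG3⟩ := exists_out hL xp inj xint yirr
      (η := min (δ / 2) (1 / (2 * (B + 1)))) (lt_min (by linarith) (by positivity)) 1
    rw [Nat.cast_one] at hG3
    obtain ⟨n, hn⟩ := exists_nat_gt (max (|X₀| + |x (cv ν H)|)
      (2 * (|y (cv ν H)| + δ * |x (cv ν H)|) / δ))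
    have hn1 : |X₀| + |x (cv ν H)| < n := lt_of_le_of_lt (le_max_left _ _) hn
    have hn2 : 2 * (|y (cv ν H)| + δ * |x (cv ν H)|) / δ < n := lt_of_le_of_lt (le_max_right _ _) hn
    rw [div_lt_iff₀ hδ] at hn2
    have hn0 : (0 : ℝ) < n := lt_of_le_of_lt (by positivity) hn1
    have hxW : x (cv ν (G ^ n * H⁻¹)) = n * x (cv ν G) - x (cv ν H) := by
      rw [cv_mul, cv_pow, cv_inv, map_add, map_smul, map_neg, smul_eq_mul]
      ring
    have hyW : y (cv ν (G ^ n * H⁻¹)) = n * y (cv ν G) - y (cv ν H) := by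
      rw [cv_mul, cv_pow, cv_inv, map_add, map_smul, map_neg, smul_eq_mul]
      ring
    have hnx : (n : ℝ) * 1 ≤ n * x (cv ν G) := mul_le_mul_of_nonneg_left hG3 hn0.le
    have h1 := le_abs_self (x (cv ν H))
    have h2 := le_abs_self X₀
    have hy1 : -y (cv ν G) < δ / 2 := by
      have := min_le_left (δ / 2) (1 / (2 * (B + 1)))
      linarith
    obtain ⟨s, hs1, hs2⟩ := hsec (G ^ n * H⁻¹) (L.mul_mem (L.pow_mem hGL n) (L.inv_mem hHL))
      (by rw [hxW]; linarith) (by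
        rw [hxW, hyW]
        have h3 : |(n : ℝ) * y (cv ν G) - y (cv ν H)| ≤ n * (-y (cv ν G)) + |y (cv ν H)| := by
          refine (abs_sub _ _).trans ?_
          rw [abs_mul, abs_of_pos hn0, abs_of_neg hG2]
        refine h3.trans ?_
        have h4 : (n : ℝ) * (-y (cv ν G)) ≤ n * (δ / 2) := mul_le_mul_of_nonneg_left hy1.le hn0.le
        have h5 : δ * ((n : ℝ) * 1) ≤ δ * (n * x (cv ν G)) := mul_le_mul_of_nonneg_left hnx hδ.le
        have h6 : δ * x (cv ν H) ≤ δ * |x (cv ν H)| := mul_le_mul_of_nonneg_left h1 hδ.le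
        nlinarith)
    refine ⟨G, n, s, ?_, hs1, hzw.mem_open (nz_open hX _ 1 s hs1) hs2, hG2, hG3, ?_⟩
    · have : (0 : ℝ) < n := hn0
      have h7 : 0 < n := by exact_mod_cast this
      exact h7
    · have h3 : -y (cv ν G) ≤ 1 / (2 * (B + 1)) := by
        have := min_le_right (δ / 2) (1 / (2 * (B + 1)))
        linarith
      have h4 : -y (cv ν G) * B ≤ 1 / (2 * (B + 1)) * B := mul_le_mul_of_nonneg_right h3 hB0
      refine h4.trans ?_
      rw [div_mul_eq_mul_div, one_mul, div_le_div_iff₀ (by positivity) two_pos]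
      linarith
  choose G n s hn hs hz hy hx hyB using hpt
  have hcomp := hX.comp
  obtain ⟨T, -, hT⟩ := isCompact_univ.elim_nhds_subcover (fun z => nz (G z ^ n z * H⁻¹) 1 (s z))
    (fun z _ => (nz_open hX _ 1 _ (hs z)).mem_nhds (hz z))
  choose a b hb ha hbe hcG using fun z => hco (G z) (hy z) (hx z) (hyB z)
  have ha0 : ∀ z, 0 < a z := fun z => lt_of_lt_of_le (by positivity) (ha z)
  obtain ⟨ρ, hρ0, hρ⟩ := fin_min T (fun z => b z / a z) fun z _ => div_pos (hb z) (ha0 z)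
  -- the class G'
  obtain ⟨G', hGL', hG1', hG2', hG3'⟩ := exists_out hL xp inj xint yirr
    (η := min (ρ / 2 * (y (cv ν H) / (2 * x p))) (1 / (2 * (B + 1))))
    (lt_min (by positivity) (by positivity)) 1
  rw [Nat.cast_one] at hG3'
  have hyB' : -y (cv ν G') * B ≤ 1 / 2 := by
    have h3 : -y (cv ν G') ≤ 1 / (2 * (B + 1)) := by
      have := min_le_right (ρ / 2 * (y (cv ν H) / (2 * x p))) (1 / (2 * (B + 1)))
      linarith
    have h4 : -y (cv ν G') * B ≤ 1 / (2 * (B + 1)) * B := mul_le_mul_of_nonneg_right h3 hB0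
    refine h4.trans ?_
    rw [div_mul_eq_mul_div, one_mul, div_le_div_iff₀ (by positivity) two_pos]
    linarith
  obtain ⟨a', b', hb', ha', hbe', hcG'⟩ := hco G' hG2' hG3' hyB'
  have ha0' : 0 < a' := lt_of_lt_of_le (by positivity) ha'
  have hρ' : b' < ρ * a' := by
    have h1 : -y (cv ν G') < ρ / 2 * (y (cv ν H) / (2 * x p)) := by
      have := min_le_left (ρ / 2 * (y (cv ν H) / (2 * x p))) (1 / (2 * (B + 1)))
      linarith
    have h2 : b' < ρ / 2 * (1 / (2 * x p)) := by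
      rw [hbe', div_lt_iff₀ yH]
      refine h1.trans_le (le_of_eq ?_)
      ring
    have h3 : ρ / 2 * (1 / (2 * x p)) ≤ ρ / 2 * a' := mul_le_mul_of_nonneg_left ha' (by linarith)
    have h4 : ρ / 2 * a' ≤ ρ * a' := mul_le_mul_of_nonneg_right (by linarith) ha0'.le
    linarith
  have hamp' : Ample G' := by
    refine ample_of_sec hX hH fun z => ?_
    obtain ⟨w, hwT, hzw⟩ := Set.mem_iUnion₂.1 (hT (Set.mem_univ z))
    have hgap : a w / a' < b w / b' := by
      rw [div_lt_div_iff₀ ha0' hb']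
      have h1 := hρ w hwT
      rw [le_div_iff₀ (ha0 w)] at h1
      have h2 : b' * a w < ρ * a' * a w := mul_lt_mul_of_pos_right hρ' (ha0 w)
      have h3 : ρ * a w * a' ≤ b w * a' := mul_le_mul_of_nonneg_right h1 ha0'.le
      linarith
    obtain ⟨N, hN⟩ := exists_nat_gt (1 / (b w / b' - a w / a'))
    have hN0 : (0 : ℝ) < N := lt_of_le_of_lt (by
      have : 0 < b w / b' - a w / a' := by linarith
      positivity) hN
    rw [div_lt_iff₀ (by linarith)] at hN
    obtain ⟨m, hm⟩ : ∃ m, m = ⌈(N : ℝ) * (a w / a')⌉₊ := ⟨_, rfl⟩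
    have hm1 : (N : ℝ) * (a w / a') ≤ m := by rw [hm]; exact Nat.le_ceil _
    have hm2 : (m : ℝ) < N * (a w / a') + 1 := by
      rw [hm]
      exact Nat.ceil_lt_add_one (by have := ha0 w; positivity)
    have hm0 : 1 ≤ m := by
      have h1 : (0 : ℝ) < N * (a w / a') := mul_pos hN0 (div_pos (ha0 w) ha0')
      have h2 : (0 : ℝ) < m := lt_of_lt_of_le h1 hm1
      exact_mod_cast h2
    have hclass : cv ν (G' ^ m * (G w ^ N)⁻¹) ∈ AmpV ν := by
      have h1 : cv ν (G' ^ m * (G w ^ N)⁻¹) =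
          ((m : ℝ) * a' - N * a w) • p + ((N : ℝ) * b w - m * b') • cv ν H := by
        rw [cv_mul, cv_inv, cv_pow, cv_pow, hcG', hcG w]
        module
      rw [h1]
      refine comb_mem ho hp hHV ?_ ?_
      · rw [← mul_div_assoc, div_le_iff₀ ha0'] at hm1
        linarith
      · have h2 : (m : ℝ) < N * (b w / b') := by linarith
        rw [← mul_div_assoc, lt_div_iff₀ hb'] at h2
        linarith
    exact sec_between hX hH (hAC _ hclass) (hn w) hm0
      (G := G w) (G' := G') (N := N) (by rw [mul_comm, inv_mul_cancel_right]) (hs w) hzw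
  have := yamp G' hamp'
  linarith

end Pool.Agent.H32.TK
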