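import Pool.Agent.H32.TK.B1G
import Pool.Agent.H41.TU.Mai
import Pool.Agent.H36.TK.W0b

/-!
# [H32 TK B1H] Theorem K, (B1): nef classes `N` with `N² = 0` and `l(N) > 0` have effective multiples
-/

set_option autoImplicit false

namespace Pool.Agent.H32.TK

open Pool.Agent.H57.KM Pool.Agent.H54.RV Pool.Agent.H83.TU Pool.Agent.H83.TK Pool.Agent.H20.TK Pool.Agent.H41.TU Pool.Agent.H39.TU

variable {k K : Type} [Field k] [Field K] [Algebra k K] {X : Mod k K}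
  {ν : Cart X →* Multiplicative (Fin 2 → ℤ)} {q : Fin 4 → ℝ} {l : (Fin 2 → ℝ) →ₗ[ℝ] ℝ} {c : ℝ}

/-- `LWB` for nef divisors -/
theorem lwb0 [IsAlgClosed k] [CharZero k] [T0Space X.P] (h : Hyp X) (hν : Num ν) (hcy : CY q l c ν) {B : Cart X}
    (hB : cv ν B ∈ closure (AmpV ν)) : LWB ν q l c B := by
  refine lwb_of (Pool.Agent.H20.TK.chi q l c (cv ν B) + Pool.Agent.H24.TK.h1 B + 1) fun S P hS hA => ?_
  have h1 := Pool.Agent.H36.TK.lem_w1 h.var h.gen hcy hS (trdeg_pdiv h P) hA B (bss_nn h hν hcy hA hB) _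
    (Pool.Agent.H24.TK.lemW_coker h.var h.gen hS hA B)
  have h2 : (0 : ℝ) ≤ h0 B 1 := Nat.cast_nonneg _
  linarith

/-- (B1) of THEOREM K -/
theorem b1 [IsAlgClosed k] [CharZero k] [T0Space X.P] (h : Hyp X) (hsm : ∀ x, SmP X x) (hν : Num ν)
    (hcy : CY q l c ν) {N : Fin 2 → ℤ} (hN0 : N ≠ 0) (hN : toR N ∈ closure (AmpV ν)) (hNA : toR N ∉ AmpV ν)
    (hNN : ∀ u, tau q (toR N) (toR N) u = 0) (hlN : 0 < l (toR N)) :
    ∃ n : ℕ, 1 ≤ n ∧ ∃ D : Cart X, Effective D ∧ cv ν D = (n : ℝ) • toR N :=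
  nu1_all h hν hcy (mai_holds h hsm) hN0 hN hNA hNN hlN fun _ hB _ _ => lwb0 h hν hcy hB

end Pool.Agent.H32.TK
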