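import Pool.Agent.H54.RV.B10
import Pool.Agent.H83.TU.UA

/-!
# [H32 TK AMP] Theorem K: a divisor is ample if its multiples minus an ample divisor have sections without common zeros

* `nz_open`: the set where a section does not vanish is open.
* `amp_basis`: the affine sets `nz H m t` (`m ≥ 1`, `t` a section of `m H`, `H` ample) form a basis of the topology.
* `closed_pt`: every point specializes to a point with residue field `k` (`k` algebraically closed).
* `ample_of_sec`: `H` ample; if for every point `x` there is `n ≥ 1` and a section of `n G - H` which does not vanish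
  at `x`, then `G` is ample: `s` the section, `t` a section of `m H` with `x ∈ nz t ⊆ nz s`, `nz t` affine; then
  `s ^ m * t` is a section of `m n G` and `nz (s ^ m * t) = nz t`.
* `ample_of_sec_closed`: it suffices to consider the points with residue field `k`.
-/

set_option autoImplicit false

namespace Pool.Agent.H32.TK

open Pool.Agent.H54.RV

variable {k K : Type} [Field k] [Field K] [Algebra k K] {X : Mod k K}

theorem nz_open (hX : IsVar X) (D : Cart X) (n : ℕ) (s : K) (hs : Sec D n s) : IsOpen (nz D n s) := by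
  rw [isOpen_iff_forall_mem_open]
  intro x hx
  obtain ⟨U, hU, hxU⟩ := hX.chart x
  obtain ⟨c, hc1, hc2, hc3⟩ := triv hX D U Set.univ x hU isOpen_univ hxU (Set.mem_univ x)
  have hD0 := D.ne x
  have heq : ∀ y, s * D.eq y ^ n = s * D.eq x ^ n * (D.eq y / D.eq x) ^ n := by
    intro y
    rw [div_pow]
    field_simp
  have hV : X.aff {y | y ∈ U ∧ Un (X.O y) c} := hX.basic U c hU hc1
  have ha : ∀ y ∈ {y | y ∈ U ∧ Un (X.O y) c}, s * D.eq x ^ n ∈ X.O y := by
    intro y hy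
    have h1 := hs y
    rw [heq, mem_mul_un (un_pow (hc3 y hy.1 hy.2).2 n)] at h1
    exact h1
  refine ⟨{y | y ∈ {y | y ∈ U ∧ Un (X.O y) c} ∧ Un (X.O y) (s * D.eq x ^ n)}, ?_,
    hX.op _ (hX.basic _ _ hV ha), ⟨⟨hxU, hc2⟩, hx⟩⟩
  rintro y ⟨hy, hu⟩
  show Un (X.O y) (s * D.eq y ^ n)
  rw [heq, un_mul_un (un_pow (hc3 y hy.1 hy.2).2 n)]
  exact hu

theorem amp_basis (hX : IsVar X) (H : Cart X) (hH : Ample H) (V : Set X.P) (hV : IsOpen V) (x : X.P)
    (hx : x ∈ V) : ∃ m : ℕ, 1 ≤ m ∧ ∃ t : K, Sec H m t ∧ x ∈ nz H m t ∧ X.aff (nz H m t) ∧ nz H m t ⊆ V := by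
  obtain ⟨n, hn, s, hs, hxs, haff⟩ := hH x
  obtain ⟨a, ha1, ha2, ha3⟩ := hX.bas _ V x haff hV hxs hx
  obtain ⟨N, hN⟩ := ext_sec hX H 1 n s a hs (fun y hy => by
    rw [one_eq, mul_one]
    exact ha1 y hy)
  have hA : ∀ y, s * H.eq y ^ n ∈ X.O y := hs
  have hB : ∀ y, s ^ N * a * (H.eq y ^ n) ^ N ∈ X.O y := by
    intro y
    have h1 := hN N le_rfl y
    rw [one_eq, mul_one] at h1
    exact h1
  have e1 : ∀ y, s ^ (N + 1) * a * H.eq y ^ (n * (N + 1)) =
      (s * H.eq y ^ n) * (s ^ N * a * (H.eq y ^ n) ^ N) := by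
    intro y
    rw [pow_mul]
    ring
  have e2 : ∀ y, s ^ (N + 1) * a * H.eq y ^ (n * (N + 1)) = (s * H.eq y ^ n) ^ (N + 1) * a := by
    intro y
    rw [pow_mul]
    ring
  have hnz : nz H (n * (N + 1)) (s ^ (N + 1) * a) = {y | y ∈ nz H n s ∧ Un (X.O y) a} := by
    ext y
    show Un (X.O y) (s ^ (N + 1) * a * H.eq y ^ (n * (N + 1))) ↔ y ∈ nz H n s ∧ Un (X.O y) a
    constructor
    · intro h
      have h1 : y ∈ nz H n s := by
        rw [e1, un_mul_iff (hA y) (hB y)] at h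
        exact h.1
      refine ⟨h1, ?_⟩
      rw [e2, un_mul_iff ((X.O y).pow_mem (hA y) _) (ha1 y h1)] at h
      exact h.2
    · rintro ⟨hy, h⟩
      rw [e2]
      exact un_mul (un_pow hy _) h
  refine ⟨n * (N + 1), Nat.mul_pos hn (Nat.succ_pos _), s ^ (N + 1) * a, ?_, ?_, ?_, ?_⟩
  · intro y
    rw [e1]
    exact (X.O y).mul_mem (hA y) (hB y)
  · rw [hnz]
    exact ⟨hxs, ha2⟩
  · rw [hnz]
    exact hX.basic _ a haff ha1
  · rw [hnz]
    rintro y ⟨hy, h⟩
    exact ha3 y hy h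

theorem ample_of_sec (hX : IsVar X) {H G : Cart X} (hH : Ample H)
    (h : ∀ x : X.P, ∃ n : ℕ, 1 ≤ n ∧ ∃ s : K, Sec (G ^ n * H⁻¹) 1 s ∧ x ∈ nz (G ^ n * H⁻¹) 1 s) : Ample G := by
  intro x
  obtain ⟨n, hn, s, hs, hxs⟩ := h x
  obtain ⟨m, hm, t, ht, hxt, haff, hsub⟩ := amp_basis hX H hH _ (nz_open hX _ 1 s hs) x hxs
  have e1 : ∀ y, s ^ m * t * G.eq y ^ (n * m) =
      (s * (G ^ n * H⁻¹).eq y ^ 1) ^ m * (t * H.eq y ^ m) := by
    intro y
    rw [mul_eq, pow_eq, inv_eq, pow_one, pow_mul]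
    have h0 := H.ne y
    rw [mul_pow, mul_pow, inv_pow]
    field_simp
  have hnz : nz G (n * m) (s ^ m * t) = nz H m t := by
    ext y
    show Un (X.O y) (s ^ m * t * G.eq y ^ (n * m)) ↔ Un (X.O y) (t * H.eq y ^ m)
    rw [e1, un_mul_iff ((X.O y).pow_mem (hs y) _) (ht y)]
    constructor
    · exact fun h2 => h2.2
    · intro h2
      exact ⟨un_pow (hsub h2) m, h2⟩
  refine ⟨n * m, Nat.mul_pos hn hm, s ^ m * t, ?_, ?_, ?_⟩
  · intro y
    rw [e1]
    exact (X.O y).mul_mem ((X.O y).pow_mem (hs y) _) (ht y)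
  · rw [hnz]
    exact hxt
  · rw [hnz]
    exact haff

/-- the topology of an affine open set is the Zariski topology -/
theorem spec_of_prime (hX : IsVar X) (U : Set X.P) (hU : X.aff U) (x y : X.P) (hy : y ∈ U)
    (h : ∀ a ∈ X.sec U, Un (X.O y) a → Un (X.O x) a) (hxU : x ∈ U) : x ⤳ y := by
  rw [specializes_iff_forall_open]
  intro V hV hyV
  obtain ⟨a, ha1, ha2, ha3⟩ := hX.bas U V y hU hV hy hyV
  exact ha3 x hxU (h a ((mem_sec U a).2 ha1) ha2)

theorem closed_pt [IsAlgClosed k] (hX : IsVar X) (x : X.P) :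
    ∃ y, x ⤳ y ∧ Function.Surjective (algebraMap k (X.kap y)) := by
  obtain ⟨U, hU, hxU⟩ := hX.chart x
  have hmem : ∀ a : X.sec U, (a : K) ∈ X.O x := fun a => (mem_sec U _).1 a.2 x hxU
  -- the prime ideal of x
  let φ : X.sec U →ₐ[k] X.O x := Subalgebra.inclusion (fun a ha => (mem_sec U a).1 ha x hxU)
  let I : Ideal (X.sec U) := (IsLocalRing.maximalIdeal (X.O x)).comap φ
  have hI : I.IsPrime := Ideal.IsPrime.comap _
  have hIm : ∀ a : X.sec U, a ∈ I ↔ ¬ Un (X.O x) (a : K) := by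
    intro a
    rw [Ideal.mem_comap, IsLocalRing.mem_maximalIdeal, mem_nonunits_iff, not_iff_not]
    exact un_iff (hmem a)
  obtain ⟨M, hM, hIM⟩ := I.exists_le_maximal hI.ne_top
  obtain ⟨y, hyU, hy⟩ := hX.prime U hU ⟨x, hxU⟩ M hM.isPrime
  refine ⟨y, spec_of_prime hX U hU x y hyU (fun a ha h1 => ?_) hxU, ?_⟩
  · by_contra h2
    exact (hy ⟨a, ha⟩).1 (hIM ((hIm ⟨a, ha⟩).2 h2)) h1
  · have hfg : Algebra.FiniteType k (X.sec U) :=
      (Subalgebra.fg_iff_finiteType _).1 (hX.fg U hU ⟨x, hxU⟩)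
    let _ : Field (X.sec U ⧸ M) := Ideal.Quotient.field M
    have hfin : Algebra.FiniteType k (X.sec U ⧸ M) :=
      Algebra.FiniteType.of_surjective (Ideal.Quotient.mkₐ k M) Ideal.Quotient.mk_surjective
    have hmf : Module.Finite k (X.sec U ⧸ M) := finite_of_finite_type_of_isJacobsonRing k _
    have halg : Algebra.IsIntegral k (X.sec U ⧸ M) := Algebra.IsIntegral.of_finite k _
    have hsurj : Function.Surjective (algebraMap k (X.sec U ⧸ M)) :=
      (IsAlgClosed.algebraMap_bijective_of_isIntegral (k := k) (K := X.sec U ⧸ M)).2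
    intro c
    obtain ⟨b, hb, rfl⟩ := rs_surj y c
    obtain ⟨s, hs, hsu, hbs⟩ := hX.frac U y hU hyU b hb
    have key : ∀ a : K, a ∈ X.sec U → ∃ l : k, X.rs y a = algebraMap k (X.kap y) l := by
      intro a ha
      obtain ⟨l, hl⟩ := hsurj (Ideal.Quotient.mk M ⟨a, ha⟩)
      refine ⟨l, ?_⟩
      have h1 : (⟨a, ha⟩ : X.sec U) - algebraMap k (X.sec U) l ∈ M := by
        rw [← Ideal.Quotient.eq, ← hl]
        rfl
      have h2 := (hy _).1 h1
      have hay : a ∈ X.O y := (mem_sec U a).1 ha y hyU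
      have hly : algebraMap k K l ∈ X.O y := (X.O y).algebraMap_mem l
      have h3 : a - algebraMap k K l ∈ X.O y := (X.O y).sub_mem hay hly
      have h4 : X.rs y (a - algebraMap k K l) = 0 := by
        by_contra h5
        exact h2 ((rs_ne y h3).1 h5)
      have h5 : a = (a - algebraMap k K l) + algebraMap k K l := by ring
      rw [h5, rs_add y h3 hly, h4, zero_add, rs_alg]
    obtain ⟨l1, hl1⟩ := key s hs
    obtain ⟨l2, hl2⟩ := key (b * s) hbs
    refine ⟨l2 / l1, ?_⟩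
    have h1 := rs_mul y hb hsu.2.1
    rw [hl1, hl2] at h1
    have h2 : algebraMap k (X.kap y) l1 ≠ 0 := by
      rw [← hl1]
      exact (rs_ne y hsu.2.1).2 hsu
    rw [map_div₀, h1, mul_div_assoc, div_self h2, mul_one]

theorem ample_of_sec_closed [IsAlgClosed k] (hX : IsVar X) {H G : Cart X} (hH : Ample H)
    (h : ∀ x : X.P, Function.Surjective (algebraMap k (X.kap x)) →
      ∃ n : ℕ, 1 ≤ n ∧ ∃ s : K, Sec (G ^ n * H⁻¹) 1 s ∧ x ∈ nz (G ^ n * H⁻¹) 1 s) : Ample G := by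
  refine ample_of_sec hX hH fun x => ?_
  obtain ⟨y, hxy, hy⟩ := closed_pt hX x
  obtain ⟨n, hn, s, hs, hys⟩ := h y hy
  exact ⟨n, hn, s, hs, hxy.mem_open (nz_open hX _ 1 s hs) hys⟩

end Pool.Agent.H32.TK
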