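import Pool.Agent.H32.TK.C2

/-!
# [H32 TK ABS] Theorem K: the chain of inequalities, abstract form

`a`, `b`: the coordinates of the plane with respect to the boundary class `p` and the class of the ample divisor `H`
(`a p = 1`, `b p = 0`, `a H = 0`, `b H = 1`).  `UR L a b δ B`: the divisors `W` of the group `L` with `0 ≤ a`,
`B ≤ b + δ a`: the classes between `H` and a ray slightly beyond `p`, far from the origin.  It is convex.
`Pol P`: the function `P` on the plane is a polynomial on lines.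

`F`, `h i` are functions on divisors which are eventually equal to `P`, `Q i` in the direction of `H`, with
`F (W + G) ≤ F W + ∑ h i (W + G)`, and equality eventually in the direction of `H`.  So `P (W + G) = P W + ∑ Q i (W + G)`.
* `abs_low` (`G = H`): if `h i ≤ Q i` in some `UR`, then `P ≤ F` in some `UR` (sum over `W + j H`, `j → ∞`).
* `abs_up` (`G` outside, `b G < 0`): if `h i ≤ Q i` in some `UR`, then `F ≤ P` in some `UR`: every `W` there is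
  `m H + i G + M`, `M` in a finite set, `m` large; `F = P` at `m H + M`; the segment from `m H + M` to `W` is in the
  regions of the `h i`.
-/

set_option autoImplicit false

namespace Pool.Agent.H32.TK

open Pool.Agent.H54.RV Pool.Agent.H83.TU

variable {k K : Type} [Field k] [Field K] [Algebra k K] {X : Mod k K}
  {ν : Cart X →* Multiplicative (Fin 2 → ℤ)}

variable (ν) in
/-- the divisors of `L` between `H` and a ray slightly beyond `p` -/
def UR (L : Subgroup (Cart X)) (a b : (Fin 2 → ℝ) →ₗ[ℝ] ℝ) (δ B : ℝ) : Set (Cart X) :=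
  {W | W ∈ L ∧ 0 ≤ a (cv ν W) ∧ B ≤ b (cv ν W) + δ * a (cv ν W)}

/-- polynomials on lines -/
def Pol (P : (Fin 2 → ℝ) → ℝ) : Prop :=
  ∀ v h : Fin 2 → ℝ, ∃ q : Polynomial ℝ, ∀ n : ℕ, P (v + (n : ℝ) • h) = q.eval (n : ℝ)

theorem UR_mono {L : Subgroup (Cart X)} {a b : (Fin 2 → ℝ) →ₗ[ℝ] ℝ} {δ B δ' B' : ℝ} (hδ : δ ≤ δ')
    (hB : B' ≤ B) {W : Cart X} (hW : W ∈ UR ν L a b δ B) : W ∈ UR ν L a b δ' B' := by
  obtain ⟨h1, h2, h3⟩ := hW
  have h4 : δ * a (cv ν W) ≤ δ' * a (cv ν W) := mul_le_mul_of_nonneg_right hδ h2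
  exact ⟨h1, h2, by linarith⟩

/-- polynomials which agree for all large `n` are equal -/
theorem poly_ext {q r : Polynomial ℝ} {n₀ : ℕ} (h : ∀ n : ℕ, n₀ ≤ n → q.eval (n : ℝ) = r.eval (n : ℝ)) :
    q = r := by
  refine Polynomial.eq_of_infinite_eval_eq q r ?_
  refine Set.Infinite.mono ?_ ((Set.Ici_infinite n₀).image (f := fun n : ℕ => (n : ℝ))
    (fun a _ b _ hab => Nat.cast_injective hab))
  rintro _ ⟨n, hn, rfl⟩
  exact h n hn

section pol

theorem Pol.add {P Q : (Fin 2 → ℝ) → ℝ} (hP : Pol P) (hQ : Pol Q) : Pol fun v => P v + Q v := by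
  intro v h
  obtain ⟨q, hq⟩ := hP v h
  obtain ⟨r, hr⟩ := hQ v h
  exact ⟨q + r, fun n => by rw [Polynomial.eval_add, ← hq, ← hr]⟩

theorem Pol.const (c : ℝ) : Pol fun _ => c := fun _ _ => ⟨Polynomial.C c, fun n => by simp⟩

theorem Pol.lin (f : (Fin 2 → ℝ) →ₗ[ℝ] ℝ) : Pol fun v => f v := by
  intro v h
  refine ⟨Polynomial.C (f v) + Polynomial.C (f h) * Polynomial.X, fun n => ?_⟩
  simp
  ring

theorem Pol.mul {P Q : (Fin 2 → ℝ) → ℝ} (hP : Pol P) (hQ : Pol Q) : Pol fun v => P v * Q v := by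
  intro v h
  obtain ⟨q, hq⟩ := hP v h
  obtain ⟨r, hr⟩ := hQ v h
  exact ⟨q * r, fun n => by rw [Polynomial.eval_mul, ← hq, ← hr]⟩

theorem Pol.shift {P : (Fin 2 → ℝ) → ℝ} (hP : Pol P) (g : Fin 2 → ℝ) : Pol fun v => P (v + g) := by
  intro v h
  obtain ⟨q, hq⟩ := hP (v + g) h
  refine ⟨q, fun n => ?_⟩
  rw [← hq, add_right_comm]

theorem Pol.sum {ι : Type} (s : Finset ι) {Q : ι → (Fin 2 → ℝ) → ℝ} (hQ : ∀ i ∈ s, Pol (Q i)) :
    Pol fun v => ∑ i ∈ s, Q i v := by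
  intro v h
  classical
  choose! q hq using fun i (hi : i ∈ s) => hQ i hi v h
  refine ⟨∑ i ∈ s, q i, fun n => ?_⟩
  rw [Polynomial.eval_finsetSum]
  exact Finset.sum_congr rfl fun i hi => hq i hi n

theorem Pol.chi (τ : Tri) (l : (Fin 2 → ℝ) →ₗ[ℝ] ℝ) (c : ℝ) : Pol (chi τ l c) := by
  intro v h
  refine ⟨Polynomial.C (τ v v v / 6) + Polynomial.C ((τ v v h + τ v h v + τ h v v) / 6) * Polynomial.X +
    Polynomial.C ((τ v h h + τ h v h + τ h h v) / 6) * Polynomial.X ^ 2 +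
    Polynomial.C (τ h h h / 6) * Polynomial.X ^ 3 +
    (Polynomial.C (l v) + Polynomial.C (l h) * Polynomial.X) + Polynomial.C c, fun n => ?_⟩
  unfold Pool.Agent.H32.TK.chi
  simp only [map_add, map_smul, LinearMap.add_apply, LinearMap.smul_apply, smul_eq_mul,
    Polynomial.eval_add, Polynomial.eval_mul, Polynomial.eval_C, Polynomial.eval_X, Polynomial.eval_pow]
  ring

theorem Pol.chiS (τ : Tri) (l : (Fin 2 → ℝ) →ₗ[ℝ] ℝ) (t : Fin 2 → ℝ) : Pol (chiS τ l t) := by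
  intro v h
  refine ⟨Polynomial.C (τ v v t / 2) + Polynomial.C ((τ v h t + τ h v t) / 2) * Polynomial.X +
    Polynomial.C (τ h h t / 2) * Polynomial.X ^ 2 -
    (Polynomial.C (τ v t t / 2) + Polynomial.C (τ h t t / 2) * Polynomial.X) +
    Polynomial.C (τ t t t / 6 + l t), fun n => ?_⟩
  unfold Pool.Agent.H32.TK.chiS
  simp only [map_add, map_smul, LinearMap.add_apply, LinearMap.smul_apply, smul_eq_mul,
    Polynomial.eval_add, Polynomial.eval_sub, Polynomial.eval_mul, Polynomial.eval_C, Polynomial.eval_X,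
    Polynomial.eval_pow]
  ring

end pol

/-- the identity of the Hilbert polynomials -/
theorem abs_id {L : Subgroup (Cart X)} {H G : Cart X} (hG : G ∈ L) {ι : Type} (s : Finset ι)
    {F : Cart X → ℝ} {h : ι → Cart X → ℝ} {P : (Fin 2 → ℝ) → ℝ} {Q : ι → (Fin 2 → ℝ) → ℝ}
    (hP : Pol P) (hQ : ∀ i ∈ s, Pol (Q i))
    (hb : ∀ W ∈ L, ∃ n₀ : ℕ, ∀ n ≥ n₀, F (W * G * H ^ n) = F (W * H ^ n) + ∑ i ∈ s, h i (W * G * H ^ n))
    (hc : ∀ W ∈ L, ∃ n₀ : ℕ, ∀ n ≥ n₀, F (W * H ^ n) = P (cv ν (W * H ^ n)))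
    (hd : ∀ i ∈ s, ∀ W ∈ L, ∃ n₀ : ℕ, ∀ n ≥ n₀, h i (W * H ^ n) = Q i (cv ν (W * H ^ n)))
    {W : Cart X} (hW : W ∈ L) :
    P (cv ν (W * G)) = P (cv ν W) + ∑ i ∈ s, Q i (cv ν (W * G)) := by
  classical
  obtain ⟨n1, h1⟩ := hb W hW
  obtain ⟨n2, h2⟩ := hc W hW
  obtain ⟨n3, h3⟩ := hc (W * G) (L.mul_mem hW hG)
  choose! n4 h4 using fun i (hi : i ∈ s) => hd i hi (W * G) (L.mul_mem hW hG)
  obtain ⟨q, hq⟩ := hP (cv ν (W * G)) (cv ν H)
  obtain ⟨r, hr⟩ := (hP.add ((Pol.sum s hQ).shift (cv ν G))) (cv ν W) (cv ν H)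
  dsimp only at hr
  have hqr : q = r := by
    refine poly_ext (n₀ := n1 + n2 + n3 + ∑ i ∈ s, n4 i) fun n hn => ?_
    have hle : ∀ i ∈ s, n4 i ≤ n := fun i hi => by
      have := Finset.single_le_sum (f := n4) (fun _ _ => Nat.zero_le _) hi
      omega
    rw [← hq, ← hr]
    have e1 : cv ν (W * G) + (n : ℝ) • cv ν H = cv ν (W * G * H ^ n) := by rw [cv_mul ν (W * G), cv_pow]
    have e2 : cv ν W + (n : ℝ) • cv ν H = cv ν (W * H ^ n) := by rw [cv_mul ν W, cv_pow]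
    have e3 : cv ν W + (n : ℝ) • cv ν H + cv ν G = cv ν (W * G * H ^ n) := by
      rw [← e1, cv_mul]
      abel
    rw [e1, e3, e2, ← h3 n (by omega), ← h2 n (by omega), h1 n (by omega)]
    congr 1
    exact Finset.sum_congr rfl fun i hi => h4 i hi n (hle i hi)
  have h5 := hq 0
  have h6 := hr 0
  rw [Nat.cast_zero, zero_smul, add_zero] at h5 h6
  rw [h5, hqr, ← h6, ← cv_mul]

theorem common {L : Subgroup (Cart X)} {a b : (Fin 2 → ℝ) →ₗ[ℝ] ℝ} {ι : Type} (s : Finset ι)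
    {R : ι → Cart X → Prop}
    (he : ∀ i ∈ s, ∃ δ > (0 : ℝ), ∃ B : ℝ, ∀ W ∈ UR ν L a b δ B, R i W) :
    ∃ δ > (0 : ℝ), ∃ B : ℝ, ∀ i ∈ s, ∀ W ∈ UR ν L a b δ B, R i W := by
  classical
  induction s using Finset.induction_on with
  | empty => exact ⟨1, one_pos, 0, fun i hi => absurd hi (Finset.notMem_empty i)⟩
  | insert i s _ ih =>
    obtain ⟨δ, h0, B, h1⟩ := ih fun j hj => he j (Finset.mem_insert_of_mem hj)
    obtain ⟨δ', h0', B', h1'⟩ := he i (Finset.mem_insert_self i s)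
    refine ⟨min δ δ', lt_min h0 h0', max B B', fun j hj W hW => ?_⟩
    rcases Finset.mem_insert.1 hj with h2 | h2
    · rw [h2]
      exact h1' W (UR_mono (min_le_right _ _) (le_max_right _ _) hW)
    · exact h1 j h2 W (UR_mono (min_le_left _ _) (le_max_left _ _) hW)

theorem abs_low {L : Subgroup (Cart X)} {H : Cart X} (hH : H ∈ L) {ι : Type} (s : Finset ι)
    {F : Cart X → ℝ} {h : ι → Cart X → ℝ} {P : (Fin 2 → ℝ) → ℝ} {Q : ι → (Fin 2 → ℝ) → ℝ}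
    (hP : Pol P) (hQ : ∀ i ∈ s, Pol (Q i))
    (ha : ∀ W ∈ L, F (W * H) ≤ F W + ∑ i ∈ s, h i (W * H))
    (hb : ∀ W ∈ L, ∃ n₀ : ℕ, ∀ n ≥ n₀, F (W * H * H ^ n) = F (W * H ^ n) + ∑ i ∈ s, h i (W * H * H ^ n))
    (hc : ∀ W ∈ L, ∃ n₀ : ℕ, ∀ n ≥ n₀, F (W * H ^ n) = P (cv ν (W * H ^ n)))
    (hd : ∀ i ∈ s, ∀ W ∈ L, ∃ n₀ : ℕ, ∀ n ≥ n₀, h i (W * H ^ n) = Q i (cv ν (W * H ^ n)))
    {a b : (Fin 2 → ℝ) →ₗ[ℝ] ℝ} (aH : a (cv ν H) = 0) (bH : b (cv ν H) = 1)
    (he : ∀ i ∈ s, ∃ δ > (0 : ℝ), ∃ B : ℝ, ∀ W ∈ UR ν L a b δ B, h i W ≤ Q i (cv ν W)) :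
    ∃ δ > (0 : ℝ), ∃ B : ℝ, ∀ W ∈ UR ν L a b δ B, P (cv ν W) ≤ F W := by
  have hid := fun W (hW : W ∈ L) => abs_id hH s hP hQ hb hc hd hW
  obtain ⟨δ, hδ, B, hBe⟩ := common s he
  refine ⟨δ, hδ, B, fun W hW => ?_⟩
  have hWL := hW.1
  have hUR : ∀ j : ℕ, W * H ^ j ∈ UR ν L a b δ B := by
    intro j
    refine ⟨L.mul_mem hWL (L.pow_mem hH j), ?_, ?_⟩
    · rw [cv_mul, cv_pow, map_add, map_smul, aH, smul_zero, add_zero]
      exact hW.2.1
    · rw [cv_mul, cv_pow, map_add, map_smul, map_add a, map_smul a, aH, smul_zero, add_zero, bH, smul_eq_mul]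
      have h1 := hW.2.2
      have h2 : (0 : ℝ) ≤ j := Nat.cast_nonneg j
      linarith
  have hstep : ∀ j : ℕ, F (W * H ^ j) - P (cv ν (W * H ^ j)) ≤ F W - P (cv ν W) := by
    intro j
    induction j with
    | zero => rw [pow_zero, mul_one]
    | succ j ih =>
      refine le_trans ?_ ih
      have h1 := ha (W * H ^ j) (hUR j).1
      have h2 := hid (W * H ^ j) (hUR j).1
      have e1 : W * H ^ j * H = W * H ^ (j + 1) := by rw [pow_succ, mul_assoc]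
      rw [e1] at h1 h2
      have h3 : ∑ i ∈ s, h i (W * H ^ (j + 1)) ≤ ∑ i ∈ s, Q i (cv ν (W * H ^ (j + 1))) :=
        Finset.sum_le_sum fun i hi => hBe i hi _ (hUR (j + 1))
      linarith
  obtain ⟨n0, h0⟩ := hc W hWL
  have h1 := hstep n0
  rw [h0 n0 le_rfl, sub_self] at h1
  linarith

/-- the lattice points in a bounded set are finitely many -/
theorem fin_box {L : Subgroup (Cart X)} (hinj : ∀ W ∈ L, cv ν W = 0 → W = 1)
    {p h : Fin 2 → ℝ} {a b : (Fin 2 → ℝ) →ₗ[ℝ] ℝ} (hco : ∀ v, v = a v • p + b v • h) (C : ℝ) :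
    {M : Cart X | M ∈ L ∧ |a (cv ν M)| ≤ C ∧ |b (cv ν M)| ≤ C}.Finite := by
  obtain ⟨N, hN⟩ := exists_nat_gt (C * (|p 0| + |h 0| + (|p 1| + |h 1|)))
  have hfin : {t : Fin 2 → ℤ | ∀ i, t i ∈ Set.Icc (-(N : ℤ)) N}.Finite :=
    Set.Finite.pi' fun _ => Set.finite_Icc _ _
  refine Set.Finite.of_finite_image (f := fun M => (fun i => Multiplicative.toAdd (ν M) i : Fin 2 → ℤ))
    (hfin.subset ?_) ?_
  · rintro _ ⟨M, ⟨_, h1, h2⟩, rfl⟩ i
    have h3 : |cv ν M i| ≤ N := by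
      have h4 : cv ν M i = a (cv ν M) * p i + b (cv ν M) * h i := by
        conv_lhs => rw [hco (cv ν M)]
        rfl
      rw [h4]
      refine (abs_add_le _ _).trans ?_
      rw [abs_mul, abs_mul]
      have h5 : |a (cv ν M)| * |p i| ≤ C * |p i| := mul_le_mul_of_nonneg_right h1 (abs_nonneg _)
      have h6 : |b (cv ν M)| * |h i| ≤ C * |h i| := mul_le_mul_of_nonneg_right h2 (abs_nonneg _)
      have hC : 0 ≤ C := (abs_nonneg _).trans h1
      have h7 : ∀ i, 0 ≤ C * |p i| := fun i => mul_nonneg hC (abs_nonneg _)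
      have h8 : ∀ i, 0 ≤ C * |h i| := fun i => mul_nonneg hC (abs_nonneg _)
      have := h7 0
      have := h7 1
      have := h8 0
      have := h8 1
      fin_cases i
      · show |a (cv ν M)| * |p 0| + |b (cv ν M)| * |h 0| ≤ N
        have h5 : |a (cv ν M)| * |p 0| ≤ C * |p 0| := mul_le_mul_of_nonneg_right h1 (abs_nonneg _)
        have h6 : |b (cv ν M)| * |h 0| ≤ C * |h 0| := mul_le_mul_of_nonneg_right h2 (abs_nonneg _)
        linarith
      · show |a (cv ν M)| * |p 1| + |b (cv ν M)| * |h 1| ≤ N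
        have h5 : |a (cv ν M)| * |p 1| ≤ C * |p 1| := mul_le_mul_of_nonneg_right h1 (abs_nonneg _)
        have h6 : |b (cv ν M)| * |h 1| ≤ C * |h 1| := mul_le_mul_of_nonneg_right h2 (abs_nonneg _)
        linarith
    rw [abs_le] at h3
    obtain ⟨h5, h6⟩ := h3
    have h7 : cv ν M i = ((Multiplicative.toAdd (ν M) i : ℤ) : ℝ) := rfl
    rw [h7] at h5 h6
    constructor
    · exact_mod_cast h5
    · exact_mod_cast h6
  · rintro M ⟨hM, _⟩ M' ⟨hM', _⟩ hMM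
    have h1 : ν M = ν M' := Multiplicative.toAdd.injective hMM
    have h2 : cv ν (M * M'⁻¹) = 0 := by
      rw [cv_mul, cv_inv, (cv_inj ν M M').2 h1, add_neg_cancel]
    have h3 := hinj _ (L.mul_mem hM (L.inv_mem hM')) h2
    exact mul_inv_eq_one.1 h3

theorem abs_up {L : Subgroup (Cart X)} (hinj : ∀ W ∈ L, cv ν W = 0 → W = 1) {H G : Cart X} (hH : H ∈ L)
    (hG : G ∈ L) {ι : Type} (s : Finset ι)
    {F : Cart X → ℝ} {h : ι → Cart X → ℝ} {P : (Fin 2 → ℝ) → ℝ} {Q : ι → (Fin 2 → ℝ) → ℝ}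
    (hP : Pol P) (hQ : ∀ i ∈ s, Pol (Q i))
    (ha : ∀ W ∈ L, F (W * G) ≤ F W + ∑ i ∈ s, h i (W * G))
    (hb : ∀ W ∈ L, ∃ n₀ : ℕ, ∀ n ≥ n₀, F (W * G * H ^ n) = F (W * H ^ n) + ∑ i ∈ s, h i (W * G * H ^ n))
    (hc : ∀ W ∈ L, ∃ n₀ : ℕ, ∀ n ≥ n₀, F (W * H ^ n) = P (cv ν (W * H ^ n)))
    (hd : ∀ i ∈ s, ∀ W ∈ L, ∃ n₀ : ℕ, ∀ n ≥ n₀, h i (W * H ^ n) = Q i (cv ν (W * H ^ n)))
    {p : Fin 2 → ℝ} {a b : (Fin 2 → ℝ) →ₗ[ℝ] ℝ} (hco : ∀ v, v = a v • p + b v • cv ν H)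
    (aH : a (cv ν H) = 0) (bH : b (cv ν H) = 1) (aG : 0 < a (cv ν G)) (bG : b (cv ν G) < 0)
    (he : ∀ i ∈ s, ∃ δ > (0 : ℝ), ∃ B : ℝ, ∀ W ∈ UR ν L a b δ B, h i W ≤ Q i (cv ν W)) :
    ∃ δ > (0 : ℝ), ∃ B : ℝ, ∀ W ∈ UR ν L a b δ B, F W ≤ P (cv ν W) := by
  classical
  have hid := fun W (hW : W ∈ L) => abs_id hG s hP hQ hb hc hd hW
  obtain ⟨δ₀, hδ₀, B₀, hBe⟩ := common s he
  obtain ⟨g, hg⟩ : ∃ g, g = a (cv ν G) := ⟨_, rfl⟩
  obtain ⟨e, hee⟩ : ∃ e, e = -b (cv ν G) := ⟨_, rfl⟩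
  rw [← hg] at aG
  have he0 : 0 < e := by linarith
  -- the finite set
  have hfin := fin_box (ν := ν) hinj hco (max g (e + 1))
  choose! n₀ hn₀ using hc
  obtain ⟨n₁, hn₁⟩ : ∃ n₁ : ℕ, ∀ M ∈ hfin.toFinset, n₀ M ≤ n₁ :=
    ⟨∑ M ∈ hfin.toFinset, n₀ M, fun M hM => Finset.single_le_sum (fun _ _ => Nat.zero_le _) hM⟩
  obtain ⟨B, hB⟩ : ∃ B : ℝ, B = max (max B₀ (n₁ + 1)) (B₀ + e + 1) := ⟨_, rfl⟩
  have hB1 : B₀ ≤ B := by rw [hB]; exact (le_max_left _ _).trans (le_max_left _ _)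
  have hB2 : (n₁ : ℝ) + 1 ≤ B := by rw [hB]; exact (le_max_right _ _).trans (le_max_left _ _)
  have hB3 : B₀ + e + 1 ≤ B := by rw [hB]; exact le_max_right _ _
  have hn₁0 : (0 : ℝ) ≤ n₁ := Nat.cast_nonneg _
  refine ⟨min δ₀ (e / g), lt_min hδ₀ (by positivity), B, fun W hW => ?_⟩
  obtain ⟨hWL, hW1, hW2⟩ := hW
  obtain ⟨A, hA⟩ : ∃ A, A = a (cv ν W) := ⟨_, rfl⟩
  obtain ⟨C, hC⟩ : ∃ C, C = b (cv ν W) := ⟨_, rfl⟩
  rw [← hA] at hW1
  rw [← hA, ← hC] at hW2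
  have hW3 : B ≤ C + e / g * A := by
    have h1 : min δ₀ (e / g) * A ≤ e / g * A := mul_le_mul_of_nonneg_right (min_le_right _ _) hW1
    linarith
  have hW4 : B ≤ C + δ₀ * A := by
    have h1 : min δ₀ (e / g) * A ≤ δ₀ * A := mul_le_mul_of_nonneg_right (min_le_left _ _) hW1
    linarith
  obtain ⟨i, hi⟩ : ∃ i : ℕ, i = ⌊A / g⌋₊ := ⟨_, rfl⟩
  have hi1 : (i : ℝ) ≤ A / g := by rw [hi]; exact Nat.floor_le (by positivity)
  have hi2 : A / g < i + 1 := by rw [hi]; exact Nat.lt_floor_add_one _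
  obtain ⟨m, hm⟩ : ∃ m : ℕ, m = ⌊C + e / g * A⌋₊ := ⟨_, rfl⟩
  have hm1 : (m : ℝ) ≤ C + e / g * A := by rw [hm]; exact Nat.floor_le (by linarith)
  have hm2 : C + e / g * A < m + 1 := by rw [hm]; exact Nat.lt_floor_add_one _
  rw [le_div_iff₀ aG] at hi1
  rw [div_lt_iff₀ aG] at hi2
  have heg : e / g * A = e * (A / g) := by ring
  obtain ⟨M, hM⟩ : ∃ M, M = W * (G ^ i)⁻¹ * (H ^ m)⁻¹ := ⟨_, rfl⟩
  have hML : M ∈ L := by
    rw [hM]
    exact L.mul_mem (L.mul_mem hWL (L.inv_mem (L.pow_mem hG i))) (L.inv_mem (L.pow_mem hH m))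
  have haM : a (cv ν M) = A - i * g := by
    rw [hM, cv_mul, cv_mul, cv_inv, cv_inv, cv_pow, cv_pow, map_add, map_add, map_neg, map_neg, map_smul,
      map_smul, aH, ← hA, ← hg, smul_zero, neg_zero, add_zero, smul_eq_mul]
    ring
  have hbM : b (cv ν M) = C + i * e - m := by
    rw [hM, cv_mul, cv_mul, cv_inv, cv_inv, cv_pow, cv_pow, map_add, map_add, map_neg, map_neg, map_smul,
      map_smul, bH, ← hC, smul_eq_mul, smul_eq_mul, hee]
    ring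
  have hq1 : (i : ℝ) * e ≤ e / g * A := by
    rw [heg]
    have h1 : (i : ℝ) ≤ A / g := by rw [le_div_iff₀ aG]; exact hi1
    have := mul_le_mul_of_nonneg_left h1 he0.le
    linarith
  have hq2 : e / g * A ≤ i * e + e := by
    rw [heg]
    have h1 : A / g ≤ i + 1 := by rw [div_le_iff₀ aG]; exact hi2.le
    have := mul_le_mul_of_nonneg_left h1 he0.le
    linarith
  have hMm : M ∈ hfin.toFinset := by
    rw [Set.Finite.mem_toFinset]
    refine ⟨hML, ?_, ?_⟩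
    · rw [haM, abs_le]
      have := le_max_left g (e + 1)
      constructor <;> linarith
    · rw [hbM, abs_le]
      have := le_max_right g (e + 1)
      constructor <;> linarith
  have hmn : n₁ ≤ m := by
    have h1 : (n₁ : ℝ) < m + 1 := by linarith
    have h2 : n₁ < m + 1 := by exact_mod_cast h1
    omega
  have hstart : F (M * H ^ m) = P (cv ν (M * H ^ m)) := hn₀ M hML m ((hn₁ M hMm).trans hmn)
  have hU : ∀ t : ℕ, t ≤ i → M * H ^ m * G ^ t ∈ UR ν L a b δ₀ B₀ := by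
    intro t ht
    have ht' : (t : ℝ) ≤ i := by exact_mod_cast ht
    have ht0 : (0 : ℝ) ≤ t := Nat.cast_nonneg _
    have e1 : a (cv ν (M * H ^ m * G ^ t)) = A - i * g + t * g := by
      rw [cv_mul, cv_mul, cv_pow, cv_pow, map_add, map_add, map_smul, map_smul, aH, haM, ← hg, smul_zero,
        add_zero, smul_eq_mul]
    have e2 : b (cv ν (M * H ^ m * G ^ t)) = C + i * e - t * e := by
      rw [cv_mul, cv_mul, cv_pow, cv_pow, map_add, map_add, map_smul, map_smul, bH, hbM, smul_eq_mul,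
        smul_eq_mul, hee]
      ring
    refine ⟨L.mul_mem (L.mul_mem hML (L.pow_mem hH m)) (L.pow_mem hG t), ?_, ?_⟩
    · rw [e1]
      have := mul_nonneg ht0 aG.le
      linarith
    · rw [e1, e2]
      -- linear in t
      have h0 : B₀ ≤ C + i * e + δ₀ * (A - i * g) := by
        have h1 : 0 ≤ δ₀ * (A - i * g) := mul_nonneg hδ₀.le (by linarith)
        linarith
      have h1 : B₀ ≤ C + δ₀ * A := by linarith
      rcases le_total (δ₀ * g) e with h2 | h2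
      · have h3 : (t : ℝ) * (e - δ₀ * g) ≤ i * (e - δ₀ * g) :=
          mul_le_mul_of_nonneg_right ht' (by linarith)
        nlinarith
      · have h3 : 0 ≤ (t : ℝ) * (δ₀ * g - e) := mul_nonneg ht0 (by linarith)
        nlinarith
  have hstep : ∀ t : ℕ, t ≤ i → F (M * H ^ m * G ^ t) - P (cv ν (M * H ^ m * G ^ t)) ≤ 0 := by
    intro t
    induction t with
    | zero =>
      intro _
      rw [pow_zero, mul_one, hstart, sub_self]
    | succ t ih =>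
      intro ht
      refine le_trans ?_ (ih (by omega))
      have h1 := ha (M * H ^ m * G ^ t) (hU t (by omega)).1
      have h2 := hid (M * H ^ m * G ^ t) (hU t (by omega)).1
      have e1 : M * H ^ m * G ^ t * G = M * H ^ m * G ^ (t + 1) := by rw [pow_succ, mul_assoc]
      rw [e1] at h1 h2
      have h3 : ∑ j ∈ s, h j (M * H ^ m * G ^ (t + 1)) ≤ ∑ j ∈ s, Q j (cv ν (M * H ^ m * G ^ (t + 1))) :=
        Finset.sum_le_sum fun j hj => hBe j hj _ (hU (t + 1) ht)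
      linarith
  have hWe : M * H ^ m * G ^ i = W := by
    rw [hM, inv_mul_cancel_right, inv_mul_cancel_right]
  have hfinal := hstep i le_rfl
  rw [hWe] at hfinal
  linarith

/-- the region near the ray of `p` in the coordinates `x`, `y` -/
theorem UR_of_xy {L : Subgroup (Cart X)} {H : Cart X} {p : Fin 2 → ℝ} {x y a b : (Fin 2 → ℝ) →ₗ[ℝ] ℝ}
    (yp : y p = 0) (xp : 0 < x p) (yH : 0 < y (cv ν H)) (hco : ∀ v, v = a v • p + b v • cv ν H) {δ B : ℝ}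
    (hδ : 0 < δ) : ∃ δ' > (0 : ℝ), ∃ X₀ : ℝ, ∀ W ∈ L, X₀ ≤ x (cv ν W) → |y (cv ν W)| ≤ δ' * x (cv ν W) →
      W ∈ UR ν L a b δ B := by
  obtain ⟨u, hu⟩ : ∃ u, u = |x (cv ν H)| / y (cv ν H) := ⟨_, rfl⟩
  have hu0 : 0 ≤ u := by rw [hu]; positivity
  obtain ⟨δ', hδ'⟩ : ∃ δ', δ' = min (1 / (2 * (u + 1))) (δ * y (cv ν H) / (4 * x p)) := ⟨_, rfl⟩
  have hd0 : 0 < δ' := by rw [hδ']; exact lt_min (by positivity) (by positivity)
  refine ⟨δ', hd0, max 1 (4 * x p * |B| / δ), fun W hW h1 h2 => ?_⟩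
  have hx1 : 1 ≤ x (cv ν W) := (le_max_left _ _).trans h1
  have hx2 : 4 * x p * |B| / δ ≤ x (cv ν W) := (le_max_right _ _).trans h1
  have hx0 : 0 < x (cv ν W) := by linarith
  have ey : y (cv ν W) = b (cv ν W) * y (cv ν H) := by
    conv_lhs => rw [hco (cv ν W)]
    rw [map_add, map_smul, map_smul, yp, smul_zero, zero_add, smul_eq_mul]
  have ex : x (cv ν W) = a (cv ν W) * x p + b (cv ν W) * x (cv ν H) := by
    conv_lhs => rw [hco (cv ν W)]
    rw [map_add, map_smul, map_smul, smul_eq_mul, smul_eq_mul]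
  rw [ey, abs_mul, abs_of_pos yH] at h2
  have hb1 : |b (cv ν W)| * |x (cv ν H)| ≤ x (cv ν W) / 2 := by
    have h3 : |b (cv ν W)| * |x (cv ν H)| = |b (cv ν W)| * y (cv ν H) * u := by
      rw [hu]
      field_simp
    rw [h3]
    have h4 : |b (cv ν W)| * y (cv ν H) * u ≤ δ' * x (cv ν W) * u := mul_le_mul_of_nonneg_right h2 hu0
    have h5 : δ' * u ≤ 1 / 2 := by
      have h6 : δ' ≤ 1 / (2 * (u + 1)) := by rw [hδ']; exact min_le_left _ _
      have h7 : δ' * u ≤ 1 / (2 * (u + 1)) * u := mul_le_mul_of_nonneg_right h6 hu0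
      refine h7.trans ?_
      rw [div_mul_eq_mul_div, one_mul, div_le_div_iff₀ (by positivity) two_pos]
      linarith
    have h6 : δ' * u * x (cv ν W) ≤ 1 / 2 * x (cv ν W) := mul_le_mul_of_nonneg_right h5 hx0.le
    linarith
  have hb2 : b (cv ν W) * x (cv ν H) ≤ x (cv ν W) / 2 := by
    have h3 := le_abs_self (b (cv ν W) * x (cv ν H))
    rw [abs_mul] at h3
    linarith
  have ha1 : x (cv ν W) / (2 * x p) ≤ a (cv ν W) := by
    rw [div_le_iff₀ (by positivity)]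
    linarith
  have ha0 : 0 ≤ a (cv ν W) := le_trans (by positivity) ha1
  refine ⟨hW, ha0, ?_⟩
  have hb3 : -(δ / (4 * x p)) * x (cv ν W) ≤ b (cv ν W) := by
    have h3 : |b (cv ν W)| ≤ δ / (4 * x p) * x (cv ν W) := by
      have h4 : δ' ≤ δ * y (cv ν H) / (4 * x p) := by rw [hδ']; exact min_le_right _ _
      have h5 : δ' * x (cv ν W) ≤ δ * y (cv ν H) / (4 * x p) * x (cv ν W) :=
        mul_le_mul_of_nonneg_right h4 hx0.le
      have h6 : |b (cv ν W)| * y (cv ν H) ≤ (δ / (4 * x p) * x (cv ν W)) * y (cv ν H) := by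
        refine (h2.trans h5).trans (le_of_eq ?_)
        ring
      exact le_of_mul_le_mul_right h6 yH
    have h4 := neg_abs_le (b (cv ν W))
    linarith
  have h5 : δ * (x (cv ν W) / (2 * x p)) ≤ δ * a (cv ν W) := mul_le_mul_of_nonneg_left ha1 hδ.le
  have h6 : δ * (x (cv ν W) / (2 * x p)) - δ / (4 * x p) * x (cv ν W) = δ * x (cv ν W) / (4 * x p) := by
    field_simp
    ring
  have h7 : |B| ≤ δ * x (cv ν W) / (4 * x p) := by
    rw [div_le_iff₀ hδ] at hx2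
    rw [le_div_iff₀ (by positivity)]
    linarith
  have h8 := le_abs_self B
  linarith

end Pool.Agent.H32.TK
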