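import Mathlib

/-!
# [H32 TK B1A] Theorem K, (B1): the combinatorial part

`E`: the set of the effective classes, `X`, `Y` the coordinates, `Y = 0` only at `0` in `E`, `N` the class on the axis
`Y = 0`.  If indecomposable classes `m` of `E` with `κ Y < X` satisfy `m + N ∈ E`, then there is a class `m₀` such that
all `m₀ + n N` are in `E` and indecomposable.
-/

set_option autoImplicit false

namespace Pool.Agent.H32.TK

variable {L : Type} [AddCommGroup L]

/-- `m` is not the sum of two nonzero elements of `E` -/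
def IndE (E : Set L) (m : L) : Prop := ∀ a ∈ E, ∀ b ∈ E, a ≠ 0 → b ≠ 0 → a + b ≠ m

theorem b1_abs (X Y : L →+ ℤ) (N : L) (hXN : X N = 1) (hYN : Y N = 0) (E : Set L)
    (hE : ∀ m ∈ E, m ≠ 0 → 1 ≤ Y m) (κ : ℤ) (hA : ∃ m ∈ E, 1 ≤ Y m ∧ κ * Y m < X m)
    (hW : ∀ m ∈ E, 1 ≤ Y m → κ * Y m < X m → IndE E m → m + N ∈ E) (C₀ : ℤ) :
    ∃ m₀ ∈ E, 1 ≤ Y m₀ ∧ κ * Y m₀ < X m₀ ∧ C₀ ≤ X m₀ ∧ ∀ n : ℕ, m₀ + n • N ∈ E ∧ IndE E (m₀ + n • N) := by
  classical
  have hXn : ∀ (m : L) (n : ℕ), X (m + n • N) = X m + n := by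
    intro m n
    rw [map_add, map_nsmul, hXN, nsmul_eq_mul, mul_one]
  have hYn : ∀ (m : L) (n : ℕ), Y (m + n • N) = Y m := by
    intro m n
    rw [map_add, map_nsmul, hYN, smul_zero, add_zero]
  -- some fibre is unbounded
  have h1 : ∃ y : ℕ, 1 ≤ y ∧ ∀ C : ℤ, ∃ m ∈ E, Y m = y ∧ C < X m := by
    by_contra hcon
    push Not at hcon
    have hex : ∃ y : ℕ, ∃ m ∈ E, Y m = y ∧ 1 ≤ y ∧ κ * y < X m := by
      obtain ⟨m, hm, h2, h3⟩ := hA
      refine ⟨(Y m).toNat, m, hm, by omega, by omega, ?_⟩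
      rw [Int.toNat_of_nonneg (by omega)]
      exact h3
    obtain ⟨y, hy⟩ : ∃ y, y = Nat.find hex := ⟨_, rfl⟩
    have hy1 := Nat.find_spec hex
    have hy2 : ∀ y' < y, ¬ ∃ m ∈ E, Y m = y' ∧ 1 ≤ y' ∧ κ * y' < X m := by
      rw [hy]
      exact fun y' h => Nat.find_min hex h
    rw [← hy] at hy1
    obtain ⟨m1, hm1, h2, h3, h4⟩ := hy1
    obtain ⟨C, hC⟩ := hcon y h3
    obtain ⟨u, ⟨m, hm, h5, h6, h7⟩, hu⟩ := Int.exists_greatest_of_bdd
      (P := fun z => ∃ m ∈ E, Y m = y ∧ X m = z ∧ κ * y < z)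
      ⟨C, by
        rintro z ⟨m, hm, h5, h6, -⟩
        rw [← h6]
        exact hC m hm h5⟩ ⟨X m1, m1, hm1, h2, rfl, h4⟩
    have hind : IndE E m := by
      intro a ha b hb ha0 hb0 hab
      have ya := hE a ha ha0
      have yb := hE b hb hb0
      have e1 : Y a + Y b = y := by rw [← map_add, hab, h5]
      have e2 : X a + X b = u := by rw [← map_add, hab, h6]
      have key : ∀ c ∈ E, 1 ≤ Y c → Y c < y → X c ≤ κ * Y c := by
        intro c hc h8 h9
        by_contra h10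
        push Not at h10
        refine hy2 (Y c).toNat (by omega) ⟨c, hc, by omega, by omega, ?_⟩
        rw [Int.toNat_of_nonneg (by omega)]
        exact h10
      have k1 := key a ha ya (by omega)
      have k2 := key b hb yb (by omega)
      have k3 : κ * y = κ * Y a + κ * Y b := by rw [← e1]; ring
      omega
    have h8 := hW m hm (by omega) (by rw [h5, h6]; exact h7) hind
    have h9 := hu (X (m + N)) ⟨m + N, h8, by rw [map_add, hYN, add_zero, h5], rfl, by
      rw [map_add, hXN, h6]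
      omega⟩
    rw [map_add, hXN, h6] at h9
    omega
  -- the first unbounded fibre
  obtain ⟨y, hy⟩ : ∃ y, y = Nat.find h1 := ⟨_, rfl⟩
  have hy1 := Nat.find_spec h1
  have hy2 : ∀ y' < y, ¬ (1 ≤ y' ∧ ∀ C : ℤ, ∃ m ∈ E, Y m = y' ∧ C < X m) := by
    rw [hy]
    exact fun y' h => Nat.find_min h1 h
  rw [← hy] at hy1
  obtain ⟨hy3, hy4⟩ := hy1
  have h2 : ∃ C : ℤ, 0 ≤ C ∧ ∀ m ∈ E, 1 ≤ Y m → Y m < y → X m ≤ C := by
    have h3 : ∀ y' : ℕ, ∃ C : ℤ, y' < y → 1 ≤ y' → ∀ m ∈ E, Y m = y' → X m ≤ C := by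
      intro y'
      by_cases h4 : y' < y ∧ 1 ≤ y'
      · have h5 := hy2 y' h4.1
        push Not at h5
        obtain ⟨C, hC⟩ := h5 h4.2
        exact ⟨C, fun _ _ => hC⟩
      · exact ⟨0, fun h5 h6 => absurd ⟨h5, h6⟩ h4⟩
    choose C hC using h3
    refine ⟨∑ i ∈ Finset.range y, |C i|, Finset.sum_nonneg fun i _ => abs_nonneg _, fun m hm h4 h5 => ?_⟩
    have h6 := hC (Y m).toNat (by omega) (by omega) m hm (by omega)
    refine h6.trans ((le_abs_self _).trans ?_)
    exact Finset.single_le_sum (f := fun i => |C i|) (fun _ _ => abs_nonneg _) (Finset.mem_range.2 (by omega))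
  obtain ⟨C, hC0, hC⟩ := h2
  have hind : ∀ m ∈ E, Y m = y → 2 * C < X m → IndE E m := by
    intro m hm h3 h4 a ha b hb ha0 hb0 hab
    have ya := hE a ha ha0
    have yb := hE b hb hb0
    have e1 : Y a + Y b = y := by rw [← map_add, hab, h3]
    have e2 : X a + X b = X m := by rw [← map_add, hab]
    have k1 := hC a ha ya (by omega)
    have k2 := hC b hb yb (by omega)
    omega
  obtain ⟨m, hm, h3, h4⟩ := hy4 (max (max (2 * C) (κ * y)) C₀)
  have h5 : 2 * C < X m := lt_of_le_of_lt ((le_max_left _ _).trans (le_max_left _ _)) h4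
  have h6 : κ * y < X m := lt_of_le_of_lt ((le_max_right _ _).trans (le_max_left _ _)) h4
  have h7 : C₀ < X m := lt_of_le_of_lt (le_max_right _ _) h4
  have h8 : ∀ n : ℕ, m + n • N ∈ E := by
    intro n
    induction n with
    | zero =>
      rw [zero_smul, add_zero]
      exact hm
    | succ n ih =>
      have h9 := hW (m + n • N) ih (by rw [hYn]; omega) (by rw [hYn, hXn, h3]; omega)
        (hind _ ih (by rw [hYn, h3]) (by rw [hXn]; omega))
      rwa [add_assoc, ← succ_nsmul] at h9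
  exact ⟨m, hm, by omega, by rw [h3]; exact h6, h7.le, fun n => ⟨h8 n, hind _ (h8 n) (by rw [hYn, h3])
    (by rw [hXn]; omega)⟩⟩

end Pool.Agent.H32.TK
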