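import Pool.Agent.H83.TU.EN
import Pool.Agent.H83.TU.SP
import Pool.Agent.H32.TK.B1A
import Pool.Agent.H32.TK.Surf
import Pool.Agent.H20.TK.Chi

/-!
# [H32 TK B1B] Theorem K, (B1): effective classes and prime divisors

`Efc ν`: the set of the classes of the effective divisors.  An effective divisor whose class is indecomposable in
`Efc ν` is a prime divisor (`prime_of`); the sections of a divisor with an indecomposable class have no double
component (`star_of`).  `eff_not_anti`: a nontrivial effective divisor is not anti-nef.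
-/

set_option autoImplicit false

namespace Pool.Agent.H32.TK

open Pool.Agent.H54.RV Pool.Agent.H83.TU Pool.Agent.H83.TK Pool.Agent.H20.TK

variable {k K : Type} [Field k] [Field K] [Algebra k K] {X : Mod k K}
  {ν : Cart X →* Multiplicative (Fin 2 → ℤ)}

theorem cz_mul (D E : Cart X) : cz ν (D * E) = cz ν D + cz ν E := by
  unfold cz
  rw [map_mul, toAdd_mul]

theorem cz_one : cz ν (1 : Cart X) = 0 := by
  unfold cz
  rw [map_one, toAdd_one]

theorem cz_inv (D : Cart X) : cz ν D⁻¹ = - cz ν D := by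
  unfold cz
  rw [map_inv, toAdd_inv]

theorem cz_pow (D : Cart X) (n : ℕ) : cz ν (D ^ n) = n • cz ν D := by
  unfold cz
  rw [map_pow, toAdd_pow]

theorem cz_eq_iff (D E : Cart X) : cz ν D = cz ν E ↔ cv ν D = cv ν E := by
  rw [← toR_cz, ← toR_cz]
  exact ⟨fun h => by rw [h], fun h => toR_inj h⟩

theorem cz_zero_iff (hν : Num ν) (D : Cart X) : cz ν D = 0 ↔ NumZ D := by
  rw [← cv_eq_zero hν, ← toR_cz]
  exact ⟨fun h => by rw [h, toR_zero], fun h => toR_inj (by rw [h, toR_zero])⟩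

theorem cz_prin (hν : Num ν) (f : K) (hf : f ≠ 0) : cz ν (prin X f hf) = 0 :=
  (cz_zero_iff hν _).2 ((cv_eq_zero hν _).1 (cv_prin hν f hf))

theorem cz_surj (hν : Num ν) (m : Fin 2 → ℤ) : ∃ D : Cart X, cz ν D = m := by
  obtain ⟨D, hD⟩ := hν.surj (Multiplicative.ofAdd m)
  exact ⟨D, by
    unfold cz
    rw [hD, toAdd_ofAdd]⟩

/-- a nontrivial effective divisor is not anti-nef -/
theorem eff_not_anti (h : Hyp X) (hZ : NZ X) (S : Cart X) (hS : Effective S) (hn : ¬ Effective S⁻¹) (A : Cart X) :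
    ¬ ∀ n : ℕ, Ample (A * (S⁻¹) ^ n) := by
  intro hamp
  obtain ⟨P, hP⟩ := exists_pdiv h S hS hn
  obtain ⟨C, hC⟩ := hZ A P
  have hordpow : ∀ (a : K) (_ : a ≠ 0) (n : ℕ), P.p.ord (a ^ n) = n * P.p.ord a := by
    intro a ha n
    induction n with
    | zero => rw [pow_zero, ord_one, Nat.cast_zero, zero_mul]
    | succ n ih =>
      rw [pow_succ, ord_mul _ _ _ (pow_ne_zero n ha) ha, ih]
      push_cast
      ring
  obtain ⟨x0⟩ := h.var.ne
  obtain ⟨m, hm, f, hf, hx, -⟩ := hamp (C + 1) x0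
  have hf0 : f ≠ 0 := left_ne_zero_of_mul hx.1
  have heq : ∀ y, f * A.eq y ^ m = (f * (A * (S⁻¹) ^ (C + 1)).eq y ^ m) * S.eq y ^ ((C + 1) * m) := by
    intro y
    have e1 : (S.eq y)⁻¹ ^ (C + 1) * S.eq y ^ (C + 1) = 1 := by
      rw [← mul_pow, inv_mul_cancel₀ (S.ne y), one_pow]
    rw [mul_eq, pow_eq, inv_eq, pow_mul, mul_assoc, ← mul_pow, mul_assoc, e1, mul_one]
  have hsec : Sec A m f := by
    intro y
    rw [heq y]
    exact (X.O y).mul_mem (hf y) ((X.O y).pow_mem (hS y) _)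
  have h1 := hC m f hm hf0 hsec
  have hg0 : f * (A * (S⁻¹) ^ (C + 1)).eq P.η ^ m ≠ 0 :=
    mul_ne_zero hf0 (pow_ne_zero _ ((A * (S⁻¹) ^ (C + 1)).ne P.η))
  have h2 : 0 ≤ P.p.ord (f * (A * (S⁻¹) ^ (C + 1)).eq P.η ^ m) :=
    (ord_nonneg P.p _ hg0).2 ((P.mem _).1 (hf P.η))
  rw [heq P.η, ord_mul _ _ _ hg0 (pow_ne_zero _ (S.ne P.η)), hordpow _ (S.ne P.η)] at h1
  have h3 : (((C + 1) * m : ℕ) : ℤ) ≤ (((C + 1) * m : ℕ) : ℤ) * P.p.ord (S.eq P.η) :=
    le_mul_of_one_le_right (Int.natCast_nonneg _) hP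
  have h4 : (C : ℤ) * m < (((C + 1) * m : ℕ) : ℤ) := by
    push_cast
    have : (1 : ℤ) ≤ m := by exact_mod_cast hm
    linarith
  linarith

variable (ν) in
/-- the classes of the effective divisors -/
def Efc : Set (Fin 2 → ℤ) := {m | ∃ D : Cart X, Effective D ∧ cz ν D = m}

theorem effective_mul {D E : Cart X} (hD : Effective D) (hE : Effective E) : Effective (D * E) :=
  fun x => (X.O x).mul_mem (hD x) (hE x)

theorem effective_pow {D : Cart X} (hD : Effective D) (n : ℕ) : Effective (D ^ n) := fun x => by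
  rw [pow_eq]
  exact (X.O x).pow_mem (hD x) n

theorem efc_add {m n : Fin 2 → ℤ} (hm : m ∈ Efc ν) (hn : n ∈ Efc ν) : m + n ∈ Efc ν := by
  obtain ⟨D, hD, rfl⟩ := hm
  obtain ⟨E, hE, rfl⟩ := hn
  exact ⟨D * E, effective_mul hD hE, cz_mul D E⟩

theorem efc_nsmul {m : Fin 2 → ℤ} (hm : m ∈ Efc ν) (n : ℕ) : n • m ∈ Efc ν := by
  obtain ⟨D, hD, rfl⟩ := hm
  exact ⟨D ^ n, effective_pow hD n, cz_pow D n⟩

/-- an effective divisor with class zero is trivial -/
theorem inv_eff_of_zero (h : Hyp X) (hZ : NZ X) (hν : Num ν) {D : Cart X} (hD : Effective D) (h0 : cz ν D = 0) :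
    Effective D⁻¹ := by
  by_contra hn
  exact eff_not_numz h hZ D hD hn ((cz_zero_iff hν D).1 h0)

theorem spr_mul_unit {z : X.P} {S T : Cart X} (hX : IsVar X) (hS : SPr X z S) (hT : Effective T)
    (hT' : Effective T⁻¹) : SPr X z (T * S) := by
  have hu : ∀ x, Un (X.O x) (T.eq x) := fun x => ⟨T.ne x, hT x, hT' x⟩
  refine ⟨effective_mul hT hS.eff, fun x hx => un_mul (hu x) (hS.un x hx), fun x hx h1 => ?_,
    fun x hx a ha h1 => ?_⟩
  · rw [mul_eq, un_mul_iff (hX.spec _ _ hx (hT x)) (hX.spec _ _ hx (hS.eff x))] at h1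
    exact hS.nun x hx h1.2
  · have h2 := (X.O x).mul_mem (hS.ker x hx a ha h1) (hT' x)
    have h3 : a / (T * S).eq x = a / S.eq x * (T⁻¹).eq x := by
      rw [mul_eq, inv_eq]
      have := T.ne x
      have := S.ne x
      field_simp
    rw [h3]
    exact h2

theorem spr_not_inv (P : PDiv X) {S : Cart X} (hS : SPr X P.η S) : ¬ Effective S⁻¹ := by
  intro h1
  exact hS.nun P.η specializes_rfl ⟨S.ne _, hS.eff _, h1 P.η⟩

theorem prime_of (h : Hyp X) (hZ : NZ X) (hν : Num ν) {D : Cart X} (hD : Effective D) (hn : ¬ Effective D⁻¹)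
    (hI : IndE (Efc ν) (cz ν D)) : ∃ P : PDiv X, SPr X P.η D := by
  obtain ⟨P, hP⟩ := exists_pdiv h D hD hn
  obtain ⟨S, hS⟩ := pdiv_spr h P
  refine ⟨P, ?_⟩
  have hun : ¬ Un (X.O P.η) (D.eq P.η) := by
    rintro ⟨-, h1, h2⟩
    have := (ord_eq_zero P.p _ (D.ne _)).2 ⟨(P.mem _).1 h1, (P.mem _).1 h2⟩
    omega
  have hT : Effective (D * S⁻¹) := by
    intro x
    rw [mul_eq, inv_eq, ← div_eq_mul_inv, hS.mem_iff h.var x (hD x)]
    intro hx h1
    apply hun
    have h2 := quo_un D P.η x hx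
    have h3 : D.eq P.η = D.eq x * (D.eq x / D.eq P.η)⁻¹ := by
      have := D.ne x
      have := D.ne P.η
      field_simp
    rw [h3]
    exact un_mul h1 (un_inv h2)
  have hDS : D * S⁻¹ * S = D := by rw [inv_mul_cancel_right]
  have hS0 : cz ν S ≠ 0 := fun h0 => spr_not_inv P hS (inv_eff_of_zero h hZ hν hS.eff h0)
  have hT0 : cz ν (D * S⁻¹) = 0 := by
    by_contra h0
    refine hI (cz ν (D * S⁻¹)) ⟨_, hT, rfl⟩ (cz ν S) ⟨_, hS.eff, rfl⟩ h0 hS0 ?_
    rw [← cz_mul, hDS]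
  have h1 := spr_mul_unit h.var hS hT (inv_eff_of_zero h hZ hν hT hT0)
  rwa [hDS] at h1

theorem star_of (h : Hyp X) (hZ : NZ X) (hν : Num ν) {D : Cart X} (hI : IndE (Efc ν) (cz ν D)) : Star D := by
  intro P s hs hsec
  by_contra hcon2
  push Not at hcon2
  obtain ⟨S, T, hS, hT, hS', hT', hST⟩ := split_of_ord h D P s hs hsec (by omega)
  refine hI (cz ν S) ⟨_, hS, rfl⟩ (cz ν T) ⟨_, hT, rfl⟩ (fun h0 => hS' (inv_eff_of_zero h hZ hν hS h0))
    (fun h0 => hT' (inv_eff_of_zero h hZ hν hT h0)) ?_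
  rw [← cz_mul, hST, cz_mul, cz_prin hν, zero_add]

end Pool.Agent.H32.TK
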