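import Pool.Agent.H32.TK.B1B
import Pool.Agent.H20.TU.GRO

/-!
# [H32 TK B1C] Theorem K, (B1): the volume of an ample divisor

`vol_tau`: `vol D = D³ / 6` for `D` ample.  `tau_pos`: `0 < D³`.  `tau_mono`: `A³ ≤ D³` if `D = A + E`, `E` effective.
-/

set_option autoImplicit false

namespace Pool.Agent.H32.TK

open Pool.Agent.H54.RV Pool.Agent.H83.TU Pool.Agent.H83.TK Pool.Agent.H20.TK Filter Topology

variable {k K : Type} [Field k] [Field K] [Algebra k K] {X : Mod k K}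
  {ν : Cart X →* Multiplicative (Fin 2 → ℤ)} {q : Fin 4 → ℝ} {l : (Fin 2 → ℝ) →ₗ[ℝ] ℝ} {c : ℝ}

theorem h0_pow (D : Cart X) (n : ℕ) : h0 (D ^ n) 1 = h0 D n := by
  have h1 : secL (D ^ n) 1 = secL D n := by
    ext s
    show Sec (D ^ n) 1 s ↔ Sec D n s
    unfold Sec
    simp only [pow_eq, pow_one]
  unfold h0
  rw [h1]

theorem chi_smul (n : ℝ) (u : Fin 2 → ℝ) :
    Pool.Agent.H20.TK.chi q l c (n • u) = n ^ 3 * (tau q u u u / 6) + n * l u + c := by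
  unfold Pool.Agent.H20.TK.chi
  rw [map_smul, smul_eq_mul]
  unfold tau
  simp only [Pi.smul_apply, smul_eq_mul]
  ring

/-- the numbers of sections of the multiples of an ample divisor -/
theorem h0_mult (hcy : CY q l c ν) {D : Cart X} (hD : Ample D) :
    ∃ n₀ : ℕ, ∀ n : ℕ, n₀ ≤ n → (h0 D n : ℝ) = (n : ℝ) ^ 3 * (tau q (cv ν D) (cv ν D) (cv ν D) / 6) +
      n * l (cv ν D) + c := by
  obtain ⟨n₀, hn⟩ := hcy.ev 1 D hD
  refine ⟨n₀, fun n h1 => ?_⟩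
  have h2 := hn n h1
  rw [one_mul, h0_pow, cv_pow, chi_smul] at h2
  exact h2

theorem lim_h0 (hcy : CY q l c ν) {D : Cart X} (hD : Ample D) :
    Tendsto (fun n : ℕ => (h0 D n : ℝ) / (n : ℝ) ^ 3) atTop (𝓝 (tau q (cv ν D) (cv ν D) (cv ν D) / 6)) := by
  obtain ⟨n₀, hn⟩ := h0_mult hcy hD
  obtain ⟨t, ht⟩ : ∃ t, t = tau q (cv ν D) (cv ν D) (cv ν D) / 6 := ⟨_, rfl⟩
  rw [← ht]
  have h1 : Tendsto (fun n : ℕ => 1 / (n : ℝ)) atTop (𝓝 0) := tendsto_one_div_atTop_nhds_zero_nat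
  have h2 : Tendsto (fun n : ℕ => t + (1 / (n : ℝ)) ^ 2 * l (cv ν D) + (1 / (n : ℝ)) ^ 3 * c) atTop
      (𝓝 (t + 0 ^ 2 * l (cv ν D) + 0 ^ 3 * c)) :=
    (tendsto_const_nhds.add ((h1.pow 2).mul_const _)).add ((h1.pow 3).mul_const _)
  have h3 : t + 0 ^ 2 * l (cv ν D) + 0 ^ 3 * c = t := by ring
  rw [h3] at h2
  refine h2.congr' ?_
  filter_upwards [eventually_ge_atTop (max n₀ 1)] with n hn'
  have h4 : n₀ ≤ n := (le_max_left _ _).trans hn'
  have h5 : 1 ≤ n := (le_max_right _ _).trans hn'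
  have h6 : (0 : ℝ) < n := by exact_mod_cast h5
  rw [hn n h4, ← ht]
  field_simp

theorem vol_tau (hcy : CY q l c ν) {D : Cart X} (hD : Ample D) :
    vol D = tau q (cv ν D) (cv ν D) (cv ν D) / 6 :=
  (lim_h0 hcy hD).limsup_eq

theorem tau_mono (h : Hyp X) [CharZero k] (hcy : CY q l c ν) {A E : Cart X} (hA : Ample A) (hE : Effective E)
    (hD : Ample (A * E)) :
    tau q (cv ν A) (cv ν A) (cv ν A) ≤ tau q (cv ν (A * E)) (cv ν (A * E)) (cv ν (A * E)) := by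
  have hG : GF X := Pool.Agent.H20.TU.gf h.var h.gen h.tr
  have h1 : ∀ n : ℕ, (h0 A n : ℝ) / (n : ℝ) ^ 3 ≤ (h0 (A * E) n : ℝ) / (n : ℝ) ^ 3 := by
    intro n
    refine div_le_div_of_nonneg_right ?_ (by positivity)
    have h2 : h0 A n ≤ h0 (A * E) n := by
      rw [← h0_pow A n, ← h0_pow (A * E) n, mul_pow]
      refine mul_le (E ^ n) (A ^ n) (hG.1 _ _) (pos_of_sec _ (hG.1 _ _) (s := 1) ?_ one_ne_zero)
      intro x
      rw [one_mul, pow_one]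
      exact effective_pow hE n x
    exact_mod_cast h2
  have h2 := le_of_tendsto_of_tendsto' (lim_h0 hcy hA) (lim_h0 hcy hD) h1
  linarith

theorem tau_pos (h : Hyp X) [CharZero k] (hcy : CY q l c ν) {A : Cart X} (hA : Ample A) :
    0 < tau q (cv ν A) (cv ν A) (cv ν A) := by
  have hG : GF X := Pool.Agent.H20.TU.gf h.var h.gen h.tr
  have h1 : 0 ≤ tau q (cv ν A) (cv ν A) (cv ν A) / 6 :=
    ge_of_tendsto' (lim_h0 hcy hA) fun n => by positivity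
  by_contra hcon
  have h2 : tau q (cv ν A) (cv ν A) (cv ν A) = 0 := by linarith
  obtain ⟨n₀, hn⟩ := h0_mult hcy hA
  obtain ⟨z, hz⟩ := exists_indep (k := k) (K := K) (n := 2) (by
    rw [h.tr]
    exact_mod_cast (by norm_num : (2 : ℕ) ≤ 3))
  obtain ⟨M, hM⟩ : ∃ M : ℕ, ∀ n < n₀, h0 A n ≤ M :=
    ⟨∑ i ∈ Finset.range n₀, h0 A i, fun n hn' =>
      Finset.single_le_sum (f := fun i => h0 A i) (fun _ _ => Nat.zero_le _) (Finset.mem_range.2 hn')⟩
  obtain ⟨n, hn1, hn2⟩ := grow_z h.var h.gen z hz A hA (fun D => hG.1 D 1) (M + |l (cv ν A)| + |c|)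
  rw [h0_pow] at hn2
  have hn3 : (1 : ℝ) ≤ n := by exact_mod_cast hn1
  have e1 := le_abs_self (l (cv ν A))
  have e2 := le_abs_self c
  have e3 := abs_nonneg (l (cv ν A))
  have e4 := abs_nonneg c
  have e5 : (0 : ℝ) ≤ M := Nat.cast_nonneg _
  by_cases h3 : n < n₀
  · have h4 : (h0 A n : ℝ) ≤ M := by exact_mod_cast hM n h3
    nlinarith
  · have h4 := hn n (not_lt.1 h3)
    rw [h2, zero_div, mul_zero, zero_add] at h4
    rw [h4] at hn2
    nlinarith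

end Pool.Agent.H32.TK
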