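import Pool.Agent.H32.TK.B1C
import Pool.Agent.H20.TK.Cex
import Pool.Agent.H20.TU.NZR

/-!
# [H32 TK B1D] Theorem K, (B1): coordinates with respect to a primitive nef class `N`

`LC N x y M`: `x N = 1`, `y N = 0`, `x M = 0`, `y M = 1`.  `exists_lc`: they exist with `y > 0` on the ample classes.
`y_pos`: if `N² = 0` and no positive multiple of `N` is effective, then `y ≥ 1` on the nonzero effective classes.
-/

set_option autoImplicit false

namespace Pool.Agent.H32.TK

open Pool.Agent.H57.KM Pool.Agent.H54.RV Pool.Agent.H83.TU Pool.Agent.H83.TK Pool.Agent.H20.TK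

/-- coordinates with respect to a primitive class -/
structure LC (N : Fin 2 → ℤ) (x y : (Fin 2 → ℤ) →+ ℤ) (M : Fin 2 → ℤ) : Prop where
  xN : x N = 1
  yN : y N = 0
  xM : x M = 0
  yM : y M = 1
  dec : ∀ m, m = x m • N + y m • M

/-- the additive function with the coefficients `a`, `b` -/
def lin2 (a b : ℤ) : (Fin 2 → ℤ) →+ ℤ where
  toFun m := a * m 0 + b * m 1
  map_zero' := by simp
  map_add' s t := by
    simp only [Pi.add_apply]
    ring

theorem lin2_apply (a b : ℤ) (m : Fin 2 → ℤ) : lin2 a b m = a * m 0 + b * m 1 := rfl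

theorem lc_of (N : Fin 2 → ℤ) (a b σ : ℤ) (h : a * N 0 + b * N 1 = 1) (hσ : σ * σ = 1) :
    LC N (lin2 a b) (lin2 (-(σ * N 1)) (σ * N 0)) ![-(σ * b), σ * a] where
  xN := h
  yN := by
    rw [lin2_apply]
    ring
  xM := by
    rw [lin2_apply]
    show a * -(σ * b) + b * (σ * a) = 0
    ring
  yM := by
    rw [lin2_apply]
    show -(σ * N 1) * -(σ * b) + σ * N 0 * (σ * a) = 1
    linear_combination (a * N 0 + b * N 1) * hσ + h
  dec m := by
    funext i
    fin_cases i
    · show m 0 = (a * m 0 + b * m 1) * N 0 + (-(σ * N 1) * m 0 + σ * N 0 * m 1) * -(σ * b)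
      linear_combination (-(m 0)) * h - (b * N 1 * m 0 - b * N 0 * m 1) * hσ
    · show m 1 = (a * m 0 + b * m 1) * N 1 + (-(σ * N 1) * m 0 + σ * N 0 * m 1) * (σ * a)
      linear_combination (-(m 1)) * h + (a * N 1 * m 0 - a * N 0 * m 1) * hσ

variable {k K : Type} [Field k] [Field K] [Algebra k K] {X : Mod k K}
  {ν : Cart X →* Multiplicative (Fin 2 → ℤ)} {q : Fin 4 → ℝ} {l : (Fin 2 → ℝ) →ₗ[ℝ] ℝ} {c : ℝ}
  {N M : Fin 2 → ℤ} {x y : (Fin 2 → ℤ) →+ ℤ}

theorem LC.toR_dec (hc : LC N x y M) (m : Fin 2 → ℤ) : toR m = (x m : ℝ) • toR N + (y m : ℝ) • toR M := by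
  conv_lhs => rw [hc.dec m]
  rw [toR_add, toR_zsmul, toR_zsmul]

theorem LC.no_axis (hc : LC N x y M) (ho : IsOpen (AmpV ν)) (h0 : (0 : V 2) ∉ AmpV ν)
    (hN : toR N ∈ closure (AmpV ν)) (hNA : toR N ∉ AmpV ν) (m : Fin 2 → ℤ) (hm : toR m ∈ AmpV ν) : y m ≠ 0 := by
  intro hy
  have h1 := hc.toR_dec m
  rw [hy, Int.cast_zero, zero_smul, add_zero] at h1
  rcases lt_or_ge 0 (x m) with h2 | h2
  · apply hNA
    have h3 : (0 : ℝ) < x m := by exact_mod_cast h2
    have h4 : toR N = (x m : ℝ)⁻¹ • toR m := by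
      rw [h1, smul_smul, inv_mul_cancel₀ h3.ne', one_smul]
    rw [h4]
    exact ampV_smul (inv_pos.2 h3) hm
  · apply h0
    have h3 : (x m : ℝ) ≤ 0 := by exact_mod_cast h2
    have h4 := comb_mem ho hN hm (a := -(x m : ℝ)) (b := 1) (by linarith) one_pos
    have h5 : -(x m : ℝ) • toR N + (1 : ℝ) • toR m = 0 := by
      rw [one_smul, neg_smul, ← h1]
      exact neg_add_cancel _
    rwa [h5] at h4

theorem exists_lc (ho : IsOpen (AmpV ν)) (h0 : (0 : V 2) ∉ AmpV ν) {a b : ℤ} (hab : a * N 0 + b * N 1 = 1)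
    (hN : toR N ∈ closure (AmpV ν)) (hNA : toR N ∉ AmpV ν) (H : Fin 2 → ℤ) (hH : toR H ∈ AmpV ν) :
    ∃ (x y : (Fin 2 → ℤ) →+ ℤ) (M : Fin 2 → ℤ), LC N x y M ∧ ∀ m, toR m ∈ AmpV ν → 0 < y m := by
  have h1 : ∃ σ : ℤ, σ * σ = 1 ∧ 0 < (lin2 (-(σ * N 1)) (σ * N 0)) H := by
    have h2 := (lc_of N a b 1 hab (by norm_num)).no_axis ho h0 hN hNA H hH
    rcases lt_or_gt_of_ne h2 with h3 | h3
    · refine ⟨-1, by norm_num, ?_⟩
      rw [lin2_apply] at h3 ⊢
      linarith
    · exact ⟨1, by norm_num, h3⟩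
  obtain ⟨σ, hσ, hσH⟩ := h1
  have hc := lc_of N a b σ hab hσ
  refine ⟨_, _, _, hc, fun m hm => ?_⟩
  by_contra hcon
  have h2 := hc.no_axis ho h0 hN hNA m hm
  have h3 : (lin2 (-(σ * N 1)) (σ * N 0)) m < 0 := lt_of_le_of_ne (not_lt.1 hcon) h2
  obtain ⟨Y, hY⟩ : ∃ Y : (Fin 2 → ℤ) →+ ℤ, Y = lin2 (-(σ * N 1)) (σ * N 0) := ⟨_, rfl⟩
  rw [← hY] at h3 hσH
  have h4 : toR ((-(Y m)) • H + (Y H) • m) ∈ AmpV ν := by
    rw [toR_add, toR_zsmul, toR_zsmul]
    refine ampV_add (ampV_smul ?_ hH) (ampV_smul ?_ hm)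
    · have : (0 : ℤ) < -(Y m) := by omega
      exact_mod_cast this
    · exact_mod_cast hσH
  refine hc.no_axis ho h0 hN hNA _ h4 ?_
  rw [← hY, map_add, map_zsmul, map_zsmul, smul_eq_mul, smul_eq_mul]
  ring

/-- the classes far in the direction of `N` are ample -/
theorem LC.amp (hc : LC N x y M) (ho : IsOpen (AmpV ν)) (hN : toR N ∈ closure (AmpV ν)) {H : Fin 2 → ℤ}
    (hH : toR H ∈ AmpV ν) (hyH : 0 < y H) (m : Fin 2 → ℤ) (h1 : 1 ≤ y m) (h2 : |x H| * y m ≤ x m) :
    toR m ∈ AmpV ν := by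
  have e1 : toR m = (((y H * x m - x H * y m : ℤ) : ℝ) / (y H : ℝ)) • toR N +
      ((y m : ℝ) / (y H : ℝ)) • toR H := by
    have hyH' : (y H : ℝ) ≠ 0 := by exact_mod_cast hyH.ne'
    rw [hc.toR_dec m, hc.toR_dec H, smul_add, smul_smul, smul_smul, ← add_assoc, ← add_smul]
    congr 1
    · congr 1
      push_cast
      field_simp
      ring
    · congr 1
      field_simp
  rw [e1]
  have hyH' : (0 : ℝ) < (y H : ℝ) := by exact_mod_cast hyH
  refine comb_mem ho hN hH (div_nonneg ?_ hyH'.le) (div_pos ?_ hyH')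
  · have h3 : x H * y m ≤ |x H| * y m := mul_le_mul_of_nonneg_right (le_abs_self _) (by omega)
    have h4 : 0 ≤ x m := le_trans (mul_nonneg (abs_nonneg _) (by omega)) h2
    have h5 : 0 ≤ y H * x m - x H * y m := by nlinarith
    exact_mod_cast h5
  · have : 0 < y m := by omega
    exact_mod_cast this

theorem ample_unit {A D : Cart X} (hA : Ample A) (hD : Effective D) (hD' : Effective D⁻¹) : Ample (A * D) := by
  have hu : ∀ (y : X.P) (n : ℕ), Un (X.O y) (D.eq y ^ n) := fun y n => un_pow ⟨D.ne y, hD y, hD' y⟩ n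
  have e : ∀ (s : K) (n : ℕ) (y : X.P), s * (A * D).eq y ^ n = s * A.eq y ^ n * D.eq y ^ n := by
    intro s n y
    rw [mul_eq, mul_pow, mul_assoc]
  intro x
  obtain ⟨n, hn, s, hs, hx, haff⟩ := hA x
  have h1 : nz (A * D) n s = nz A n s := by
    ext y
    show Un (X.O y) (s * (A * D).eq y ^ n) ↔ Un (X.O y) (s * A.eq y ^ n)
    rw [e, un_mul_un (hu y n)]
  refine ⟨n, hn, s, fun y => ?_, by rw [h1]; exact hx, by rw [h1]; exact haff⟩
  rw [e, mem_mul_un (hu y n)]
  exact hs y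

theorem cz_unit (hν : Num ν) {D : Cart X} (hD : Effective D) (hD' : Effective D⁻¹) : cz ν D = 0 := by
  rw [cz_zero_iff hν]
  exact fun A hA => ⟨ample_unit hA hD hD', ample_unit hA hD' (by rw [inv_inv]; exact hD)⟩

theorem amp_cls (h : Hyp X) (hν : Num ν) {D : Cart X} (hD : toR (cz ν D) ∈ AmpV ν) : Ample D :=
  Pool.Agent.H36.TU.ac_holds h.var hν D hD

/-- a multiple of an ample class is effective -/
theorem amp_mult (h : Hyp X) (hν : Num ν) {m : Fin 2 → ℤ} (hm : toR m ∈ AmpV ν) :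
    ∃ n : ℕ, 1 ≤ n ∧ n • m ∈ Efc ν := by
  obtain ⟨D, rfl⟩ := cz_surj hν m
  have hD := amp_cls h hν hm
  obtain ⟨x0⟩ := h.var.ne
  obtain ⟨n, hn, s, hs, hx, -⟩ := hD x0
  have hs0 : s ≠ 0 := left_ne_zero_of_mul hx.1
  refine ⟨n, hn, prin X s hs0 * D ^ n, fun y => ?_, by rw [cz_mul, cz_prin hν, zero_add, cz_pow]⟩
  show s * (D ^ n).eq y ∈ X.O y
  rw [pow_eq]
  exact hs y

theorem tau_comb (hNN : ∀ u, tau q (toR N) (toR N) u = 0) (H : Fin 2 → ℤ) (t : ℝ) :
    tau q (t • toR N + toR H) (t • toR N + toR H) (t • toR N + toR H) =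
      3 * t * tau q (toR N) (toR H) (toR H) + tau q (toR H) (toR H) (toR H) := by
  have h1 := hNN (toR N)
  have h2 := hNN (toR H)
  have e : tau q (t • toR N + toR H) (t • toR N + toR H) (t • toR N + toR H) =
      t ^ 3 * tau q (toR N) (toR N) (toR N) + 3 * t ^ 2 * tau q (toR N) (toR N) (toR H) +
      3 * t * tau q (toR N) (toR H) (toR H) + tau q (toR H) (toR H) (toR H) := by
    unfold tau
    simp only [Pi.add_apply, Pi.smul_apply, smul_eq_mul]
    ring
  rw [e, h1, h2]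
  ring

/-- the effective classes lie on one side of `N`, and not on the negative ray -/
theorem LC.y_pos [CharZero k] (hc : LC N x y M) (h : Hyp X) (hν : Num ν) (hcy : CY q l c ν)
    (hN : toR N ∈ closure (AmpV ν)) (hNN : ∀ u, tau q (toR N) (toR N) u = 0) (hya : ∀ m, toR m ∈ AmpV ν → 0 < y m)
    (hno : ∀ n : ℕ, 1 ≤ n → n • N ∉ Efc ν) (m : Fin 2 → ℤ) (hm : m ∈ Efc ν) (hm0 : m ≠ 0) : 1 ≤ y m := by
  have ho : IsOpen (AmpV ν) := Pool.Agent.H36.TU.ampV_open h.var hν
  have hZ : NZ X := Pool.Agent.H20.TU.nzr h.var h.gen h.tr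
  obtain ⟨A, hA⟩ := h.amp
  have hAa : toR (cz ν A) ∈ AmpV ν := ampV_cv ν A hA
  obtain ⟨D, hD, hDm⟩ := hm
  have hDn : ¬ Effective D⁻¹ := by
    intro h1
    apply hm0
    rw [← hDm]
    exact cz_unit hν hD h1
  by_contra hlt
  rcases (by omega : y m = 0 ∨ y m < 0) with h1 | h1
  · -- on the axis
    have h2 : m = x m • N := by
      conv_lhs => rw [hc.dec m]
      rw [h1, zero_smul, add_zero]
    rcases lt_trichotomy (x m) 0 with h3 | h3 | h3
    · refine eff_not_anti h hZ D hD hDn A fun n => amp_cls h hν ?_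
      rw [cz_mul, cz_pow, cz_inv, hDm, toR_add, add_comm]
      have h4 : toR (n • -m) = ((n : ℝ) * -(x m : ℝ)) • toR N := by
        rw [toR_nsmul]
        have e1 : -m = (-(x m)) • N := by
          rw [neg_smul, ← h2]
        rw [e1, toR_zsmul, smul_smul]
        push_cast
        rfl
      rw [h4]
      have h5 := comb_mem ho hN hAa (a := (n : ℝ) * -(x m : ℝ)) (b := 1) (by
        have : (x m : ℝ) < 0 := by exact_mod_cast h3
        have : (0 : ℝ) ≤ n := Nat.cast_nonneg _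
        nlinarith) one_pos
      rwa [one_smul] at h5
    · apply hm0
      rw [h2, h3, zero_smul]
    · refine hno (x m).toNat (by omega) ⟨D, hD, ?_⟩
      rw [hDm, ← natCast_zsmul, Int.toNat_of_nonneg h3.le]
      exact h2
  · -- on the wrong side
    obtain ⟨H, hH⟩ : ∃ H, H = cz ν A := ⟨_, rfl⟩
    rw [← hH] at hAa
    have hyH := hya H hAa
    obtain ⟨d, hd⟩ : ∃ d : ℕ, (d : ℤ) = -(y m) := ⟨(-(y m)).toNat, Int.toNat_of_nonneg (by omega)⟩
    obtain ⟨e, he⟩ : ∃ e : ℕ, (e : ℤ) = y H := ⟨(y H).toNat, Int.toNat_of_nonneg (by omega)⟩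
    obtain ⟨r, hr⟩ : ∃ r, r = x (d • H + e • m) := ⟨_, rfl⟩
    have h2 : d • H + e • m = r • N := by
      have h3 : y (d • H + e • m) = 0 := by
        rw [map_add, map_nsmul, map_nsmul, nsmul_eq_mul, nsmul_eq_mul]
        rw [hd, he]
        ring
      have h4 := hc.dec (d • H + e • m)
      rw [h3, zero_smul, add_zero, ← hr] at h4
      exact h4
    have hd1 : 1 ≤ d := by omega
    have he1 : 1 ≤ e := by omega
    rcases le_or_gt r 0 with h3 | h3
    · -- `- m` is ample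
      have h4 : toR (-m) ∈ AmpV ν := by
        have e1 : e • (-m) = d • H + (-r) • N := by
          rw [neg_smul, ← h2, smul_neg]
          abel
        have e2 : (e : ℝ) • toR (-m) = -(r : ℝ) • toR N + (d : ℝ) • toR H := by
          rw [← toR_nsmul, e1, toR_add, toR_nsmul, toR_zsmul, add_comm]
          push_cast
          rfl
        have h5 : (0 : ℝ) < e := by exact_mod_cast he1
        have h6 : toR (-m) = (e : ℝ)⁻¹ • (-(r : ℝ) • toR N + (d : ℝ) • toR H) := by
          rw [← e2, smul_smul, inv_mul_cancel₀ h5.ne', one_smul]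
        rw [h6]
        refine ampV_smul (inv_pos.2 h5) (comb_mem ho hN hAa ?_ ?_)
        · have : (r : ℝ) ≤ 0 := by exact_mod_cast h3
          linarith
        · exact_mod_cast hd1
      refine eff_not_anti h hZ D hD hDn A fun n => amp_cls h hν ?_
      rw [cz_mul, cz_pow, cz_inv, hDm, toR_add, ← hH]
      rcases Nat.eq_zero_or_pos n with h5 | h5
      · rw [h5, zero_smul, toR_zero, add_zero]
        exact hAa
      · rw [toR_nsmul]
        exact ampV_add hAa (ampV_smul (by exact_mod_cast h5) h4)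
    · -- the volume is too large
      have hAamp : Ample A := hA
      obtain ⟨t, ht⟩ : ∃ t, t = tau q (toR H) (toR H) (toR H) := ⟨_, rfl⟩
      have ht0 : 0 < t := by
        have := tau_pos h hcy hA
        rw [← toR_cz, ← hH, ← ht] at this
        exact this
      obtain ⟨u, hu⟩ : ∃ u, u = tau q (toR N) (toR H) (toR H) := ⟨_, rfl⟩
      have key : ∀ n : ℕ, ((n * d + 1 : ℕ) : ℝ) ^ 3 * t ≤ 3 * (n * r) * u + t := by
        intro n
        have e1 : cz ν (A ^ (n * d + 1) * D ^ (n * e)) = (n * r) • N + H := by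
          rw [cz_mul, cz_pow, cz_pow, hDm, ← hH, mul_smul (n : ℤ) r N, ← h2, add_smul, one_smul, mul_smul, mul_smul,
            natCast_zsmul, smul_add]
          abel
        have h4 : cv ν (A ^ (n * d + 1) * D ^ (n * e)) = ((n : ℝ) * r) • toR N + toR H := by
          rw [← toR_cz, e1, toR_add, toR_zsmul]
          push_cast
          rfl
        have h5 : Ample (A ^ (n * d + 1) * D ^ (n * e)) := by
          refine amp_cls h hν ?_
          rw [toR_cz, h4]
          have h6 := comb_mem ho hN hAa (a := (n : ℝ) * r) (b := 1) (by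
            have : (0 : ℝ) < r := by exact_mod_cast h3
            positivity) one_pos
          rwa [one_smul] at h6
        have h6 : Ample (A ^ (n * d + 1)) := ample_pow A _ (by omega) hA
        have h7 := tau_mono h hcy h6 (effective_pow hD (n * e)) h5
        rw [h4, tau_comb hNN, ← hu, ← ht, cv_pow, ← toR_cz, ← hH, tau_smul, tau_smul2, tau_smul3, ← ht] at h7
        have e2 : (((n * d + 1 : ℕ) : ℝ)) * (((n * d + 1 : ℕ) : ℝ) * (((n * d + 1 : ℕ) : ℝ) * t)) =
            ((n * d + 1 : ℕ) : ℝ) ^ 3 * t := by ring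
        rw [e2] at h7
        linarith
      have hr0 : (0 : ℝ) < r := by exact_mod_cast h3
      obtain ⟨n, hn⟩ := exists_nat_gt (max 1 (3 * r * |u| / t))
      have hn1 : (1 : ℝ) < n := lt_of_le_of_lt (le_max_left _ _) hn
      have hn2 : 3 * r * |u| < n * t := by
        have := lt_of_le_of_lt (le_max_right _ _) hn
        rwa [div_lt_iff₀ ht0] at this
      have h4 := key n
      have h5 : (n : ℝ) + 1 ≤ ((n * d + 1 : ℕ) : ℝ) := by
        push_cast
        have : (1 : ℝ) ≤ d := by exact_mod_cast hd1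
        nlinarith
      have h6 : ((n : ℝ) + 1) ^ 3 ≤ ((n * d + 1 : ℕ) : ℝ) ^ 3 := pow_le_pow_left₀ (by positivity) h5 3
      have h7 : ((n : ℝ) + 1) ^ 3 * t ≤ 3 * (n * r) * u + t := (mul_le_mul_of_nonneg_right h6 ht0.le).trans h4
      have h8 : u ≤ |u| := le_abs_self u
      have h9 : 3 * (n * r) * u ≤ n * (n * t) := by
        have h10 : 3 * (n * r) * u ≤ 3 * (n * r) * |u| := mul_le_mul_of_nonneg_left h8 (by positivity)
        have h11 : n * (3 * r * |u|) ≤ n * (n * t) := mul_le_mul_of_nonneg_left hn2.le (by positivity)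
        linarith
      have h10 : 0 < (n : ℝ) ^ 3 * t := by positivity
      have h11 : 0 < (n : ℝ) ^ 2 * t := by positivity
      have h12 : 0 < (n : ℝ) * t := by positivity
      nlinarith

end Pool.Agent.H32.TK
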