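import Pool.Agent.H32.TK.B1D
import Pool.Agent.H41.TU.ClA

/-!
# [H32 TK B1E] Theorem K, (B1): a nef class `N` with `N² = 0` and `l(N) > 0` has an effective multiple

`LWB ν q l c B`: the conclusion of Lemma W for the divisor `B`: `χ(S + B) - C ≤ h⁰(S + B)` for all ample prime divisors
`S`.
`nu1`: `N` primitive, nef, not ample, `N² = 0`, `l N > 0`, `B` a divisor with class `N`, `LWB B`, and `Mai X` (Theorems
I and II of Theorem U).  Then a positive multiple of `N` is effective.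
PROOF.  If not, `y ≥ 1` on the nonzero effective classes.  By Lemma W indecomposable effective classes `m` with
`x m > κ y m` have `m + N` effective, so (`b1_abs`) there is `m₀` with all `m₀ + n N` effective and indecomposable.
`D_n = S_(n-1) + B`: ample, `Star`, `h⁰(D_n) > (1 + th) vol D_n` for large `n`, so `Mai X` gives `R` with `R D_n ≤ γ`,
`R M = 0`.  `R N ≥ 1` is impossible for `n > γ`, so `R N = 0 = R M` and `R = 0`: a contradiction.
-/

set_option autoImplicit false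

namespace Pool.Agent.H32.TK

open Pool.Agent.H57.KM Pool.Agent.H54.RV Pool.Agent.H83.TU Pool.Agent.H83.TK Pool.Agent.H20.TK Pool.Agent.H41.TU

variable {k K : Type} [Field k] [Field K] [Algebra k K] {X : Mod k K}
  {ν : Cart X →* Multiplicative (Fin 2 → ℤ)} {q : Fin 4 → ℝ} {l : (Fin 2 → ℝ) →ₗ[ℝ] ℝ} {c : ℝ}
  {N M : Fin 2 → ℤ} {x y : (Fin 2 → ℤ) →+ ℤ}

variable (ν q l c) in
/-- the conclusion of Lemma W for the divisor `B` -/
def LWB (B : Cart X) : Prop :=
  ∃ C : ℝ, ∀ (S : Cart X) (P : PDiv X), SPr X P.η S → Ample S →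
    Pool.Agent.H20.TK.chi q l c (cv ν (S * B)) - C ≤ (h0 (S * B) 1 : ℝ)

private theorem eff_of_h0 (hν : Num ν) (G : Cart X) (h : 0 < h0 G 1) : cz ν G ∈ Efc ν := by
  have h1 : ∃ s : secL G 1, s ≠ 0 := by
    by_contra h2
    push Not at h2
    have h3 : Subsingleton (secL G 1) := ⟨fun a b => by rw [h2 a, h2 b]⟩
    unfold h0 at h
    rw [Module.finrank_zero_of_subsingleton] at h
    exact lt_irrefl _ h
  obtain ⟨s, hs⟩ := h1
  have hs0 : (s : K) ≠ 0 := fun h0 => hs (Subtype.ext h0)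
  refine ⟨prin X s hs0 * G, fun x => ?_, by rw [cz_mul, cz_prin hν, zero_add]⟩
  have := s.2 x
  rw [pow_one] at this
  exact this

theorem LC.l_dec (hc : LC N x y M) (m : Fin 2 → ℤ) : l (toR m) = x m * l (toR N) + y m * l (toR M) := by
  rw [hc.toR_dec m, map_add, map_smul, map_smul, smul_eq_mul, smul_eq_mul]

/-- the classes for which Lemma W gives a section -/
theorem LC.step [CharZero k] (hc : LC N x y M) (h : Hyp X) (hν : Num ν) (hcy : CY q l c ν)
    (hN : toR N ∈ closure (AmpV ν)) (hlN : 0 < l (toR N)) (hya : ∀ m, toR m ∈ AmpV ν → 0 < y m)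
    {B : Cart X} (hB : cz ν B = N) (hW : LWB ν q l c B) :
    ∃ κ : ℤ, (∀ m, 1 ≤ y m → κ * y m ≤ x m → toR m ∈ AmpV ν) ∧
      ∀ m ∈ Efc ν, 1 ≤ y m → κ * y m < x m → IndE (Efc ν) m → m + N ∈ Efc ν := by
  have ho : IsOpen (AmpV ν) := Pool.Agent.H36.TU.ampV_open h.var hν
  have hZ : NZ X := Pool.Agent.H20.TU.nzr h.var h.gen h.tr
  obtain ⟨A, hA⟩ := h.amp
  have hAa : toR (cz ν A) ∈ AmpV ν := ampV_cv ν A hA
  obtain ⟨C, hC⟩ := hW
  obtain ⟨κ₂, hκ₂⟩ := exists_int_gt ((|C| + |c| + 1 + |l (toR M)|) / l (toR N))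
  rw [div_lt_iff₀ hlN] at hκ₂
  have hamp : ∀ m, 1 ≤ y m → max |x (cz ν A)| κ₂ * y m ≤ x m → toR m ∈ AmpV ν := fun m h1 h2 =>
    hc.amp ho hN hAa (hya _ hAa) m h1 ((mul_le_mul_of_nonneg_right (le_max_left _ _) (by omega)).trans h2)
  refine ⟨max |x (cz ν A)| κ₂, hamp, fun m hm h1 h2 hI => ?_⟩
  have hma := hamp m h1 h2.le
  obtain ⟨D, hD, hDm⟩ := hm
  have hD' : ¬ Effective D⁻¹ := fun h3 => by
    have h4 := cz_unit hν hD h3
    rw [hDm] at h4
    rw [h4, map_zero] at h1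
    omega
  rw [← hDm] at hI
  obtain ⟨P, hP⟩ := prime_of h hZ hν hD hD' hI
  have hDa : Ample D := amp_cls h hν (by rw [hDm]; exact hma)
  have h3 := hC D P hP hDa
  have h4 : cv ν (D * B) = toR (m + N) := by rw [← toR_cz, cz_mul, hDm, hB]
  have h5 : Ample (D * B) := amp_cls h hν (by
    rw [toR_cz, h4, toR_add, add_comm]
    exact add_closure ho hN hma)
  have h6 := tau_pos h hcy h5
  rw [h4] at h3 h6
  have h7 : l (toR (m + N)) = x m * l (toR N) + y m * l (toR M) + l (toR N) := by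
    rw [toR_add, map_add, hc.l_dec m]
  have h8 : |C| + |c| + 1 ≤ x m * l (toR N) + y m * l (toR M) := by
    have e1 : (κ₂ : ℝ) * y m ≤ x m := by
      have : κ₂ * y m ≤ x m := (mul_le_mul_of_nonneg_right (le_max_right _ _) (by omega)).trans h2.le
      exact_mod_cast this
    have e2 : (1 : ℝ) ≤ y m := by exact_mod_cast h1
    have e3 := neg_abs_le (l (toR M))
    have e4 : (κ₂ : ℝ) * y m * l (toR N) ≤ x m * l (toR N) := mul_le_mul_of_nonneg_right e1 hlN.le
    have e5 : (y m : ℝ) * (|C| + |c| + 1 + |l (toR M)|) ≤ y m * (κ₂ * l (toR N)) :=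
      mul_le_mul_of_nonneg_left hκ₂.le (by linarith)
    have e6 : (y m : ℝ) * -|l (toR M)| ≤ y m * l (toR M) := mul_le_mul_of_nonneg_left e3 (by linarith)
    have e7 : |C| + |c| + 1 ≤ y m * (|C| + |c| + 1) := by
      have : 0 ≤ |C| + |c| + 1 := by positivity
      nlinarith
    linarith
  have h9 : 0 < h0 (D * B) 1 := by
    have e1 := neg_abs_le c
    have e2 := le_abs_self C
    have h10 : (0 : ℝ) < (h0 (D * B) 1 : ℝ) := by
      refine lt_of_lt_of_le ?_ h3
      unfold Pool.Agent.H20.TK.chi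
      rw [h7]
      linarith
    exact_mod_cast h10
  have h10 := eff_of_h0 hν _ h9
  rwa [cz_mul, hDm, hB] at h10

theorem nu1 [CharZero k] (h : Hyp X) (hν : Num ν) (hcy : CY q l c ν) (hM : Mai X) {a b : ℤ}
    (hab : a * N 0 + b * N 1 = 1) (hN : toR N ∈ closure (AmpV ν)) (hNA : toR N ∉ AmpV ν)
    (hNN : ∀ u, tau q (toR N) (toR N) u = 0) (hlN : 0 < l (toR N)) {B : Cart X} (hB : cz ν B = N)
    (hW : LWB ν q l c B) : ∃ n : ℕ, 1 ≤ n ∧ n • N ∈ Efc ν := by
  by_contra hno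
  push Not at hno
  have ho : IsOpen (AmpV ν) := Pool.Agent.H36.TU.ampV_open h.var hν
  have hZ : NZ X := Pool.Agent.H20.TU.nzr h.var h.gen h.tr
  have hz := zero_notMem h hν
  obtain ⟨A, hA⟩ := h.amp
  have hAa : toR (cz ν A) ∈ AmpV ν := ampV_cv ν A hA
  obtain ⟨x, y, M, hc, hya⟩ := exists_lc ho hz hab hN hNA _ hAa
  have hE := hc.y_pos h hν hcy hN hNN hya hno
  obtain ⟨κ, hamp, hstep⟩ := hc.step h hν hcy hN hlN hya hB hW
  -- effective classes far in the direction of `N`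
  have hex : ∃ m ∈ Efc ν, 1 ≤ y m ∧ κ * y m < x m := by
    obtain ⟨j, hj⟩ : ∃ j : ℕ, j = (|κ * y (cz ν A)| + |x (cz ν A)| + 1).toNat := ⟨_, rfl⟩
    have hj' : (j : ℤ) = |κ * y (cz ν A)| + |x (cz ν A)| + 1 := by
      rw [hj, Int.toNat_of_nonneg (by positivity)]
    have h1 : toR (cz ν A + j • N) ∈ AmpV ν := by
      rw [toR_add, toR_nsmul, add_comm]
      have h2 := comb_mem ho hN hAa (a := (j : ℝ)) (b := 1) (Nat.cast_nonneg _) one_pos
      rwa [one_smul] at h2
    obtain ⟨n, hn, h2⟩ := amp_mult h hν h1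
    have h3 : y (cz ν A + j • N) = y (cz ν A) := by
      rw [map_add, map_nsmul, hc.yN, smul_zero, add_zero]
    have h4 : x (cz ν A + j • N) = x (cz ν A) + j := by
      rw [map_add, map_nsmul, hc.xN, nsmul_eq_mul, mul_one]
    have h5 : κ * y (cz ν A) < x (cz ν A) + j := by
      have e1 := le_abs_self (κ * y (cz ν A))
      have e2 := neg_abs_le (x (cz ν A))
      omega
    have h6 := hya _ hAa
    have hn' : (1 : ℤ) ≤ n := by exact_mod_cast hn
    refine ⟨_, h2, ?_, ?_⟩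
    · rw [map_nsmul, h3, nsmul_eq_mul]
      nlinarith
    · rw [map_nsmul, map_nsmul, h3, h4, nsmul_eq_mul, nsmul_eq_mul]
      nlinarith
  obtain ⟨m₀, -, h1, h2, -, h3⟩ := b1_abs x y N hc.xN hc.yN (Efc ν) hE κ hex hstep 0
  -- the divisors `S n`
  have hyn : ∀ n : ℕ, y (m₀ + n • N) = y m₀ := by
    intro n
    rw [map_add, map_nsmul, hc.yN, smul_zero, add_zero]
  have hxn : ∀ n : ℕ, x (m₀ + n • N) = x m₀ + n := by
    intro n
    rw [map_add, map_nsmul, hc.xN, nsmul_eq_mul, mul_one]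
  have hampn : ∀ n : ℕ, toR (m₀ + n • N) ∈ AmpV ν := by
    intro n
    refine hamp _ (by rw [hyn]; exact h1) ?_
    rw [hyn, hxn]
    omega
  choose S hS hSm using fun n => (h3 n).1
  obtain ⟨C, hC⟩ := hW
  have hDn : ∀ n : ℕ, cz ν (S n * B) = m₀ + (n + 1) • N := by
    intro n
    rw [cz_mul, hSm, hB, add_assoc, succ_nsmul]
  have hlow : ∀ n : ℕ, Pool.Agent.H20.TK.chi q l c (toR (m₀ + (n + 1) • N)) - C ≤ (h0 (S n * B) 1 : ℝ) := by
    intro n
    have hn1 : ¬ Effective (S n)⁻¹ := fun h4 => by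
      have h5 := cz_unit hν (hS n) h4
      rw [hSm] at h5
      have h6 := hyn n
      rw [h5, map_zero] at h6
      omega
    obtain ⟨P, hP⟩ := prime_of h hZ hν (hS n) hn1 (by rw [hSm]; exact (h3 n).2)
    have h4 := hC (S n) P hP (amp_cls h hν (by rw [hSm]; exact hampn n))
    rwa [← toR_cz, hDn] at h4
  -- numbers
  obtain ⟨u, hu⟩ : ∃ u, u = tau q (toR N) (toR m₀) (toR m₀) / 2 := ⟨_, rfl⟩
  obtain ⟨t, ht⟩ : ∃ t, t = tau q (toR m₀) (toR m₀) (toR m₀) / 6 := ⟨_, rfl⟩
  have htau : ∀ n : ℕ, tau q (toR (m₀ + n • N)) (toR (m₀ + n • N)) (toR (m₀ + n • N)) / 6 = n * u + t := by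
    intro n
    have e1 : toR (m₀ + n • N) = (n : ℝ) • toR N + toR m₀ := by
      rw [toR_add, toR_nsmul, add_comm]
    rw [e1, tau_comb hNN, hu, ht]
    ring
  obtain ⟨th, hth⟩ : ∃ th, th = l (toR N) / (2 * (|u| + 1)) := ⟨_, rfl⟩
  have hu1 : 0 < |u| + 1 := by positivity
  have hth0 : 0 < th := by rw [hth]; positivity
  have hthu : th * u ≤ l (toR N) / 2 := by
    have e1 : th * u ≤ th * (|u| + 1) := mul_le_mul_of_nonneg_left (by linarith [le_abs_self u]) hth0.le
    have e2 : th * (|u| + 1) = l (toR N) / 2 := by rw [hth]; field_simp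
    linarith
  obtain ⟨N₀, γ, hM⟩ := hM th hth0
  obtain ⟨n, hn⟩ := exists_nat_gt (max (γ : ℝ)
    (2 * (|th * t| + |l (toR m₀)| + |c| + |C| + N₀ + 1) / l (toR N)))
  have hn1 : (γ : ℝ) < n := lt_of_le_of_lt (le_max_left _ _) hn
  have hn2 : 2 * (|th * t| + |l (toR m₀)| + |c| + |C| + N₀ + 1) < n * l (toR N) := by
    have := lt_of_le_of_lt (le_max_right _ _) hn
    rwa [div_lt_iff₀ hlN] at this
  have hDamp : Ample (S n * B) := amp_cls h hν (by rw [hDn]; exact hampn (n + 1))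
  have hstar : Star (S n * B) := star_of h hZ hν (by rw [hDn]; exact (h3 (n + 1)).2)
  have hvol : vol (S n * B) = (n + 1) * u + t := by
    rw [vol_tau hcy hDamp, ← toR_cz, hDn, htau]
    push_cast
    ring
  have hchi : Pool.Agent.H20.TK.chi q l c (toR (m₀ + (n + 1) • N)) =
      (n + 1) * u + t + (l (toR m₀) + (n + 1) * l (toR N)) + c := by
    unfold Pool.Agent.H20.TK.chi
    rw [htau, toR_add, map_add, toR_nsmul, map_smul, smul_eq_mul]
    push_cast
    ring
  have hlow' := hlow n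
  rw [hchi] at hlow'
  have hpos : 0 < (n + 1) * u + t := by
    have := tau_pos h hcy hDamp
    rw [← toR_cz, hDn] at this
    have e1 := htau (n + 1)
    push_cast at e1
    linarith
  have a1 := le_abs_self (th * t)
  have a2 := neg_abs_le (l (toR m₀))
  have a3 := neg_abs_le c
  have a4 := le_abs_self C
  have a5 := abs_nonneg (th * t)
  have a6 := abs_nonneg (l (toR m₀))
  have a7 := abs_nonneg c
  have a8 := abs_nonneg C
  have a9 : (0 : ℝ) ≤ N₀ := Nat.cast_nonneg _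
  have b1 : (N₀ : ℝ) < (h0 (S n * B) 1 : ℝ) := by
    refine lt_of_lt_of_le ?_ hlow'
    linarith
  have b2 : (1 + th) * vol (S n * B) < (h0 (S n * B) 1 : ℝ) := by
    refine lt_of_lt_of_le ?_ hlow'
    rw [hvol]
    have e1 : ((n : ℝ) + 1) * (th * u) ≤ (n + 1) * (l (toR N) / 2) :=
      mul_le_mul_of_nonneg_left hthu (by positivity)
    nlinarith
  obtain ⟨R, hR, hRD, E, hE1, hE2, hRE⟩ := hM _ hDamp hstar (by exact_mod_cast b1) b2
  obtain ⟨r, hr⟩ := rfun_lin h hν hR
  have hr' : ∀ D : Cart X, r (toR (cz ν D)) = R D := fun D => hr D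
  -- `R B ≥ 0`
  have hRB : 0 ≤ R B := by
    by_contra hneg
    push Not at hneg
    have h4 : Ample (A * B ^ (R A).toNat) := amp_cls h hν (by
      rw [cz_mul, cz_pow, hB, toR_add, toR_nsmul, add_comm]
      have h2 := comb_mem ho hN hAa (a := ((R A).toNat : ℝ)) (b := 1) (Nat.cast_nonneg _) one_pos
      rwa [one_smul] at h2)
    have h5 := hR.amp _ h4
    have h6 : (R (A * B ^ (R A).toNat) : ℝ) = R A + (R A).toNat * R B := by
      rw [← hr, ← hr, ← hr, cv_mul, cv_pow, map_add, map_smul, smul_eq_mul]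
    have h7 : R (A * B ^ (R A).toNat) = R A + (R A).toNat * R B := by exact_mod_cast h6
    have h8 := hR.amp A hA
    rw [h7, Int.toNat_of_nonneg h8.le] at h5
    nlinarith
  have hSn : R (S n * B) = R (S 0) + (n + 1) * R B := by
    have h4 : (R (S n * B) : ℝ) = R (S 0) + (n + 1) * R B := by
      rw [← hr', ← hr', ← hr', hDn, hSm, hB, toR_add, toR_nsmul, toR_add, toR_nsmul]
      simp only [map_add, map_smul, smul_eq_mul]
      push_cast
      ring
    exact_mod_cast h4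
  have hR0 : R B = 0 := by
    by_contra hne
    have h4 : 1 ≤ R B := by omega
    have h5 := hR.eff _ (hS 0)
    rw [hSn] at hRD
    have h6 : (γ : ℤ) < n := by exact_mod_cast hn1
    nlinarith
  have hrN : r (toR N) = 0 := by
    rw [← hB, hr', hR0, Int.cast_zero]
  have hEm : cz ν E ≠ 0 := fun h4 => hE2 (inv_eff_of_zero h hZ hν hE1 h4)
  have hyE := hE _ ⟨E, hE1, rfl⟩ hEm
  have hrM : r (toR M) = 0 := by
    have h4 := hr' E
    rw [hRE, Int.cast_zero, hc.toR_dec (cz ν E), map_add, map_smul, map_smul, hrN, smul_zero, zero_add,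
      smul_eq_mul] at h4
    have h5 : (y (cz ν E) : ℝ) ≠ 0 := by
      have : y (cz ν E) ≠ 0 := by omega
      exact_mod_cast this
    exact (mul_eq_zero.1 h4).resolve_left h5
  have hfin := hr' A
  rw [hc.toR_dec (cz ν A), map_add, map_smul, map_smul, hrN, hrM, smul_zero, smul_zero, add_zero] at hfin
  have h4 := hR.amp A hA
  have h5 : R A = 0 := by exact_mod_cast hfin.symm
  omega

end Pool.Agent.H32.TK
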