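import Pool.Agent.H32.TK.B1E
import Pool.Agent.H83.TU.DP

/-!
# [H32 TK B1F] Theorem K, (B1): nef classes `N` with `N² = 0` and `l(N) > 0`, the statement for all integral classes
-/

set_option autoImplicit false

namespace Pool.Agent.H32.TK

open Pool.Agent.H57.KM Pool.Agent.H54.RV Pool.Agent.H83.TU Pool.Agent.H83.TK Pool.Agent.H20.TK Pool.Agent.H41.TU

variable {k K : Type} [Field k] [Field K] [Algebra k K] {X : Mod k K}
  {ν : Cart X →* Multiplicative (Fin 2 → ℤ)} {q : Fin 4 → ℝ} {l : (Fin 2 → ℝ) →ₗ[ℝ] ℝ} {c : ℝ}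

/-- the nef cone is stable under the multiplication by positive numbers -/
theorem nef_smul {v : Fin 2 → ℝ} (hv : v ∈ closure (AmpV ν)) {r : ℝ} (hr : 0 < r) : r • v ∈ closure (AmpV ν) := by
  have h1 : Continuous fun w : Fin 2 → ℝ => r • w := continuous_const_smul r
  exact map_mem_closure h1 hv fun w hw => ampV_smul hr hw

theorem nu1_all [CharZero k] (h : Hyp X) (hν : Num ν) (hcy : CY q l c ν) (hM : Mai X) {N : Fin 2 → ℤ} (hN0 : N ≠ 0)
    (hN : toR N ∈ closure (AmpV ν)) (hNA : toR N ∉ AmpV ν) (hNN : ∀ u, tau q (toR N) (toR N) u = 0)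
    (hlN : 0 < l (toR N)) (hW : ∀ B : Cart X, cv ν B ∈ closure (AmpV ν) → (∀ u, tau q (cv ν B) (cv ν B) u = 0) →
      0 < l (cv ν B) → LWB ν q l c B) : ∃ n : ℕ, 1 ≤ n ∧ ∃ D : Cart X, Effective D ∧ cv ν D = (n : ℝ) • toR N := by
  obtain ⟨m, u, a, b, hm, hu, hab⟩ := dp_prim hN0
  have hNu : N = m • u := funext hu
  have hm' : (0 : ℝ) < m := by exact_mod_cast hm
  have e : toR u = (m : ℝ)⁻¹ • toR N := by
    rw [hNu, toR_zsmul, smul_smul, inv_mul_cancel₀ hm'.ne', one_smul]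
  have h1 : toR u ∈ closure (AmpV ν) := by
    rw [e]
    exact nef_smul hN (inv_pos.2 hm')
  have h2 : toR u ∉ AmpV ν := by
    intro h3
    apply hNA
    rw [hNu, toR_zsmul]
    exact ampV_smul hm' h3
  have h3 : ∀ w, tau q (toR u) (toR u) w = 0 := by
    intro w
    rw [e, tau_smul, tau_smul2, hNN, mul_zero, mul_zero]
  have h4 : 0 < l (toR u) := by
    rw [e, map_smul, smul_eq_mul]
    exact mul_pos (inv_pos.2 hm') hlN
  obtain ⟨B, hB⟩ := cz_surj hν u
  have hB' : cv ν B = toR u := by rw [← toR_cz, hB]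
  obtain ⟨n, hn, hE⟩ := nu1 h hν hcy hM hab h1 h2 h3 h4 hB
    (hW B (by rw [hB']; exact h1) (by rw [hB']; exact h3) (by rw [hB']; exact h4))
  obtain ⟨D, hD, hDm⟩ := efc_nsmul hE m.toNat
  refine ⟨n, hn, D, hD, ?_⟩
  rw [← toR_cz, hDm, hNu, toR_nsmul, toR_nsmul, toR_zsmul, smul_smul, smul_smul]
  congr 1
  have : ((m.toNat : ℤ) : ℝ) = m := by rw [Int.toNat_of_nonneg hm.le]
  rw [mul_comm, ← this]
  push_cast
  rfl

end Pool.Agent.H32.TK
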