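import Pool.Agent.H32.TK.B1F
import Pool.Agent.H32.TK.HC
import Pool.Agent.H24.TK.HFd
import Pool.Agent.H41.TW.W1

/-!
# [H32 TK B1G] Theorem K, (B1): Lemma W gives `LWB`

`bss_nn`: `0 ≤ B S²` for `B` nef, `S` ample.  `lwb_of`: `LWB B` from an estimate of the form of Lemma W.
-/

set_option autoImplicit false

namespace Pool.Agent.H32.TK

open Pool.Agent.H57.KM Pool.Agent.H54.RV Pool.Agent.H83.TU Pool.Agent.H83.TK Pool.Agent.H20.TK Pool.Agent.H41.TU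

variable {k K : Type} [Field k] [Field K] [Algebra k K] {X : Mod k K}
  {ν : Cart X →* Multiplicative (Fin 2 → ℤ)} {q : Fin 4 → ℝ} {l : (Fin 2 → ℝ) →ₗ[ℝ] ℝ} {c : ℝ}

theorem bss_nn [CharZero k] (h : Hyp X) (hν : Num ν) (hcy : CY q l c ν) {S : Cart X} (hS : Ample S)
    {v : Fin 2 → ℝ} (hv : v ∈ closure (AmpV ν)) : 0 ≤ tau q v (cv ν S) (cv ν S) := by
  have h1 : ∀ A : Cart X, Ample A → 0 ≤ (triT q (cv ν S) (cv ν S)) (cv ν A) := by
    intro A hA
    obtain ⟨n, hn, E, hE, hEA⟩ := amp_mult (ν := ν) h hν (m := cz ν A) (ampV_cv ν A hA)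
    have h2 := aae_nn h hν hcy hS hE
    rw [← toR_cz E, hEA, toR_nsmul, tau_smul3] at h2
    have hn' : (0 : ℝ) < n := by exact_mod_cast hn
    rw [triT_apply]
    exact nonneg_of_mul_nonneg_right h2 hn'
  have h2 := clos_nn _ h1 hv
  rw [triT_apply] at h2
  rwa [tau_comm', tau_comm] at h2

/-- from Lemma W to `LWB` -/
theorem lwb_of {B : Cart X} (C : ℝ) (h : ∀ (S : Cart X) (P : PDiv X), SPr X P.η S → Ample S →
    Pool.Agent.H20.TK.chi q l c (cv ν B + cv ν S) - C ≤ (h0 (B * S) 1 : ℝ)) : LWB ν q l c B := by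
  refine ⟨C, fun S P hS hA => ?_⟩
  rw [mul_comm S B, cv_mul]
  exact h S P hS hA

/-- `LWB` in the case `B S² > 0` -/
theorem lwb_pos [CharZero k] [T0Space X.P] (h : Hyp X) (hcy : CY q l c ν) {B : Cart X}
    (hB : ∀ S : Cart X, Ample S → 0 < tau q (cv ν B) (cv ν S) (cv ν S)) : LWB ν q l c B := by
  refine lwb_of (Pool.Agent.H20.TK.chi q l c (cv ν B) + Pool.Agent.H24.TK.h1 B) fun S P hS hA => ?_
  have h1 := Pool.Agent.H41.TW.lem_w h.var h.gen hcy hS (trdeg_pdiv h P) hA B (hB S hA) _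
    (Pool.Agent.H24.TK.lemW_coker h.var h.gen hS hA B)
  have h2 : (0 : ℝ) ≤ h0 B 1 := Nat.cast_nonneg _
  linarith

end Pool.Agent.H32.TK
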