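import Mathlib

/-!
# [H32 TK HA] Theorem K: linear algebra for the cokernels of the restriction maps

`rho : A → Q`, `rho' : A' → Q'`, `sig : B → R`, `A, B ≤ A'`, `ker rho = ker sig = L`, `ker rho' = B`, `e Q ≤ Q'`, and
`bet : A' → κ'` with kernel `A`, which maps `Γ = {a | rho' a ∈ e Q}` to `R`.  Then
`dim coker rho ≤ dim coker rho' + dim coker sig`.
-/

set_option autoImplicit false

open Module

namespace Pool.Agent.H32.TK

theorem fr_sub {k V : Type} [Field k] [AddCommGroup V] [Module k V] {A B : Submodule k V} (hB : B ≤ A)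
    (C : Submodule k A) (h : ∀ a : A, a ∈ C ↔ (a : V) ∈ B) : finrank k C = finrank k B := by
  have h1 : C = B.comap A.subtype := by
    ext a
    rw [h, Submodule.mem_comap]
    rfl
  rw [h1]
  exact (Submodule.comapSubtypeEquivOfLe hB).finrank_eq

theorem rank_null {k V W : Type} [Field k] [AddCommGroup V] [Module k V] [AddCommGroup W] [Module k W]
    [FiniteDimensional k V] (f : V →ₗ[k] W) (Γ : Submodule k V) :
    finrank k (Γ.map f) + finrank k (Γ ⊓ LinearMap.ker f : Submodule k V) = finrank k Γ := by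
  have h1 := LinearMap.finrank_range_add_finrank_ker (f.domRestrict Γ)
  rw [LinearMap.range_domRestrict] at h1
  have h2 : finrank k (LinearMap.ker (f.domRestrict Γ)) = finrank k (Γ ⊓ LinearMap.ker f : Submodule k V) :=
    fr_sub inf_le_left _ fun a => ⟨fun h => ⟨a.2, h⟩, fun h => h.2⟩
  omega

theorem la {k V κ κ' : Type} [Field k] [AddCommGroup V] [Module k V] [Field κ] [Algebra k κ] [Field κ']
    [Algebra k κ'] {A A' B L : Submodule k V} {Q Q' : Submodule k κ} {R : Submodule k κ'}
    (hA' : FiniteDimensional k A') (hQ' : FiniteDimensional k Q') (hR : FiniteDimensional k R)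
    (hA : A ≤ A') (hB : B ≤ A') (hLA : L ≤ A) (hLB : L ≤ B)
    (rho : A →ₗ[k] Q) (rho' : A' →ₗ[k] Q') (sig : B →ₗ[k] R)
    (hrho : ∀ a, rho a = 0 ↔ (a : V) ∈ L) (hsig : ∀ a, sig a = 0 ↔ (a : V) ∈ L)
    (hrho' : ∀ a, rho' a = 0 ↔ (a : V) ∈ B)
    (e : κ) (he : e ≠ 0) (hμ : ∀ w ∈ Q, e * w ∈ Q')
    (hcomp : ∀ a : A, ((rho' ⟨a.1, hA a.2⟩ : Q') : κ) = e * (rho a : κ))
    (bet : A' →ₗ[k] κ') (hbet : ∀ a, bet a = 0 ↔ (a : V) ∈ A)
    (hbR : ∀ a, (∃ w ∈ Q, e * w = (rho' a : κ)) → bet a ∈ R) :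
    finrank k Q + finrank k (LinearMap.range rho') + finrank k (LinearMap.range sig) ≤
      finrank k Q' + finrank k (LinearMap.range rho) + finrank k R := by
  -- finiteness
  have fA : FiniteDimensional k A := Submodule.finiteDimensional_of_le hA
  have fB : FiniteDimensional k B := Submodule.finiteDimensional_of_le hB
  have fL : FiniteDimensional k L := Submodule.finiteDimensional_of_le hLA
  obtain ⟨f, hf⟩ : ∃ f : A' →ₗ[k] κ, f = Q'.subtype ∘ₗ rho' := ⟨_, rfl⟩
  obtain ⟨Qe, hQe⟩ : ∃ Qe : Submodule k κ, Qe = Q.map (LinearMap.mulLeft k e) := ⟨_, rfl⟩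
  have hQe' : Qe ≤ Q' := by
    rw [hQe]
    rintro _ ⟨w, hw, rfl⟩
    exact hμ w hw
  have fQe : FiniteDimensional k Qe := Submodule.finiteDimensional_of_le hQe'
  have dQ : finrank k Q = finrank k Qe := by
    rw [hQe]
    exact (LinearEquiv.finrank_eq (Submodule.equivMapOfInjective (LinearMap.mulLeft k e)
      (mul_right_injective₀ he) Q))
  obtain ⟨Γ, hΓ⟩ : ∃ Γ : Submodule k A', Γ = Qe.comap f := ⟨_, rfl⟩
  -- the kernels
  have e1 : finrank k (LinearMap.range rho) + finrank k L = finrank k A := by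
    have h1 := LinearMap.finrank_range_add_finrank_ker rho
    have h2 : finrank k (LinearMap.ker rho) = finrank k L := fr_sub hLA _ hrho
    omega
  have e2 : finrank k (LinearMap.range sig) + finrank k L = finrank k B := by
    have h1 := LinearMap.finrank_range_add_finrank_ker sig
    have h2 : finrank k (LinearMap.ker sig) = finrank k L := fr_sub hLB _ hsig
    omega
  have hΓmem : ∀ a : A', a ∈ Γ ↔ ∃ w ∈ Q, e * w = (rho' a : κ) := by
    intro a
    rw [hΓ, Submodule.mem_comap, hQe, hf]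
    exact Iff.rfl
  -- `dim Γ = dim (im rho' ∩ e Q) + dim B`
  have e3 : finrank k (Γ.map f) + finrank k B = finrank k Γ := by
    have h1 := rank_null f Γ
    have h2 : finrank k (Γ ⊓ LinearMap.ker f : Submodule k A') = finrank k B := by
      refine fr_sub hB _ fun a => ⟨fun ha => ?_, fun ha => ?_⟩
      · have h3 : f a = 0 := ha.2
        rw [hf] at h3
        exact (hrho' a).1 (Subtype.ext h3)
      · have h4 : f a = 0 := by
          rw [hf, LinearMap.comp_apply, (hrho' a).2 ha, map_zero]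
        refine ⟨?_, h4⟩
        show a ∈ Γ
        rw [hΓ, Submodule.mem_comap, h4]
        exact Qe.zero_mem
    omega
  -- the kernel of `bet`
  have e4 : finrank k Γ ≤ finrank k A + finrank k R := by
    have h1 := rank_null bet Γ
    have h2 : finrank k (Γ ⊓ LinearMap.ker bet : Submodule k A') = finrank k A := by
      refine fr_sub hA _ fun a => ⟨fun ha => (hbet a).1 ha.2, fun ha => ⟨?_, (hbet a).2 ha⟩⟩
      exact (hΓmem a).2 ⟨rho ⟨a.1, ha⟩, (rho ⟨a.1, ha⟩).2, (hcomp ⟨a.1, ha⟩).symm⟩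
    have h3 : Γ.map bet ≤ R := by
      rintro _ ⟨a, ha, rfl⟩
      exact hbR a ((hΓmem a).1 ha)
    have h4 := Submodule.finrank_mono h3
    omega
  -- the images in `Q'`
  have e5 : Γ.map f = Qe ⊓ (LinearMap.range f) := by
    rw [hΓ]
    ext w
    constructor
    · rintro ⟨a, ha, rfl⟩
      exact ⟨ha, a, rfl⟩
    · rintro ⟨h1, a, rfl⟩
      exact ⟨a, h1, rfl⟩
  have e6 : finrank k (LinearMap.range f) = finrank k (LinearMap.range rho') := by
    rw [hf, LinearMap.range_comp]
    exact (LinearEquiv.finrank_eq (Submodule.equivMapOfInjective Q'.subtype Q'.subtype_injective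
      (LinearMap.range rho'))).symm
  have e7 : finrank k (Qe ⊔ LinearMap.range f : Submodule k κ) ≤ finrank k Q' := by
    refine Submodule.finrank_mono (sup_le hQe' ?_)
    rintro _ ⟨a, rfl⟩
    rw [hf]
    exact (rho' a).2
  have e8 := Submodule.finrank_sup_add_finrank_inf_eq Qe (LinearMap.range f)
  rw [← e5] at e8
  omega

end Pool.Agent.H32.TK
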