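import Pool.Agent.H32.TK.HA
import Pool.Agent.H83.TK.SubE

/-!
# [H32 TK HB] Theorem K: the cokernel of the restriction to a prime divisor, adding another prime divisor

`rk hX z W`: the rank of the restriction `L(W) → L_S(W)` (`S` the closure of `z`).
`cok_step`: `S`, `E` different prime divisors: the dimension of the cokernel of `L(W + S) → L_S(W + S)` is at most the
dimension of the cokernel of `L(W + S + E) → L_S(W + S + E)` plus the dimension of the cokernel of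
`L(W + E) → L_E(W + E)`.
-/

set_option autoImplicit false

open Module

namespace Pool.Agent.H32.TK

open Pool.Agent.H54.RV Pool.Agent.H83.TU Pool.Agent.H83.TK

variable {k K : Type} [Field k] [Field K] [Algebra k K] {X : Mod k K}

/-- the rank of the restriction map -/
noncomputable def rk (hX : IsVar X) (z : X.P) (W : Cart X) : ℕ := finrank k (LinearMap.range (resS hX z W 1))

private theorem resD_one_mem (hX : IsVar X) {z : X.P} {E : Cart X} (hu : Un (X.O z) (E.eq z)) (x : (subM hX z).P) :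
    X.rs z (E.eq z) * (resD hX z E).eq x = X.rs z (E.eq x.1) := by
  rw [resD_eq, ← rs_mul z hu.2.1 (quo_un E z x.1 x.2).2.1, mul_div_cancel₀ _ (E.ne z)]

/-- the local argument: a section of `W + S + E` which on `S` is `E` times a section of `W + S` -/
private theorem loc_quo (hX : IsVar X) {z₁ z₂ : X.P} {S E : Cart X} (hS : SPr X z₁ S) (hE : SPr X z₂ E)
    (h21 : ¬ z₂ ⤳ z₁) (W : Cart X) (a : K) (ha : a ∈ secL (W * S * E) 1) (w : X.kap z₁)
    (hw : w ∈ secL (resD hX z₁ (W * S)) 1)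
    (haw : X.rs z₁ (E.eq z₁) * w = X.rs z₁ (a * (W * S * E).eq z₁)) (x : X.P) (hx : z₂ ⤳ x) :
    ∃ γ ∈ X.O x, X.rs z₂ (a * (W * S * E).eq x) = X.rs z₂ (S.eq x) * X.rs z₂ γ := by
  have hax : a * (W * S * E).eq x ∈ X.O x := by
    have := ha x
    rwa [pow_one] at this
  have hSx : S.eq x ∈ X.O x := hS.eff x
  by_cases h1 : z₁ ⤳ x
  · -- `x` is in both
    have hEu : Un (X.O z₁) (E.eq z₁) := hE.un z₁ h21
    obtain ⟨x', hx'⟩ : ∃ x' : (subM hX z₁).P, x'.1 = x := ⟨⟨x, h1⟩, rfl⟩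
    have h2 : w * (resD hX z₁ (W * S)).eq x' ∈ subO X z₁ x := by
      have h2 := hw x'
      rw [pow_one] at h2
      rw [← hx']
      exact h2
    obtain ⟨b, hb, hbw⟩ := (subO_iff hX h1 _).1 h2
    have h3 := rs_sec hX z₁ (W * S * E) 1 a x' (ha _)
    rw [pow_one, pow_one, pow_one, ← haw, map_mul (resD hX z₁) (W * S) E,
      mul_eq (resD hX z₁ (W * S)) (resD hX z₁ E), hx'] at h3
    have h3' := resD_one_mem hX hEu x'
    rw [hx'] at h3'
    have h4 : X.rs z₁ (a * (W * S * E).eq x) = X.rs z₁ (E.eq x * b) := by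
      rw [← h3, rs_mul z₁ (hX.spec _ _ h1 (hE.eff x)) (hX.spec _ _ h1 hb), hbw, ← h3']
      ring
    have h5 : a * (W * S * E).eq x - E.eq x * b ∈ X.O x := sub_mem hax (mul_mem (hE.eff x) hb)
    have h6 : ¬ Un (X.O z₁) (a * (W * S * E).eq x - E.eq x * b) := by
      intro h7
      refine (rs_ne z₁ h7.2.1).2 h7 ?_
      have h8 : X.rs z₁ (a * (W * S * E).eq x - E.eq x * b) + X.rs z₁ (E.eq x * b) =
          X.rs z₁ (a * (W * S * E).eq x) := by
        rw [← rs_add z₁ h7.2.1 (hX.spec _ _ h1 (mul_mem (hE.eff x) hb)), sub_add_cancel]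
      rw [h4] at h8
      exact add_eq_right.1 h8
    have h7 := hS.ker x h1 _ h5 h6
    refine ⟨_, h7, ?_⟩
    have h8 : a * (W * S * E).eq x = E.eq x * b + S.eq x * ((a * (W * S * E).eq x - E.eq x * b) / S.eq x) := by
      have := S.ne x
      field_simp
      ring
    have h9 : X.rs z₂ (E.eq x) = 0 := by
      by_contra h10
      exact hE.nun x hx ((rs_ne z₂ (hX.spec _ _ hx (hE.eff x))).1 h10)
    conv_lhs => rw [h8]
    rw [rs_add z₂ (hX.spec _ _ hx (mul_mem (hE.eff x) hb)) (hX.spec _ _ hx (mul_mem hSx h7)),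
      rs_mul z₂ (hX.spec _ _ hx (hE.eff x)) (hX.spec _ _ hx hb), h9, zero_mul, zero_add,
      rs_mul z₂ (hX.spec _ _ hx hSx) (hX.spec _ _ hx h7)]
  · have h2 := hS.un x h1
    refine ⟨a * (W * S * E).eq x / S.eq x, ?_, ?_⟩
    · rw [div_eq_mul_inv]
      exact mul_mem hax h2.2.2
    · have h3 : a * (W * S * E).eq x / S.eq x ∈ X.O x := by
        rw [div_eq_mul_inv]
        exact mul_mem hax h2.2.2
      rw [← rs_mul z₂ (hX.spec _ _ hx hSx) (hX.spec _ _ hx h3), mul_div_cancel₀ _ (S.ne x)]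

theorem cok_step (hX : IsVar X) {z₁ z₂ : X.P} {S E : Cart X} (hS : SPr X z₁ S) (hE : SPr X z₂ E)
    (h12 : ¬ z₁ ⤳ z₂) (h21 : ¬ z₂ ⤳ z₁) (W : Cart X) (hf : FiniteDimensional k (secL (W * S * E) 1))
    (hf1 : Module.Finite k (secL (resD hX z₁ (W * S * E)) 1)) (hf2 : Module.Finite k (secL (resD hX z₂ (W * E)) 1)) :
    h0 (resD hX z₁ (W * S)) 1 + rk hX z₁ (W * S * E) + rk hX z₂ (W * E) ≤
      h0 (resD hX z₁ (W * S * E)) 1 + rk hX z₁ (W * S) + h0 (resD hX z₂ (W * E)) 1 := by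
  have hEu : Un (X.O z₁) (E.eq z₁) := hE.un z₁ h21
  have hSu : Un (X.O z₂) (S.eq z₂) := hS.un z₂ h12
  have hs2 : X.rs z₂ (S.eq z₂) ≠ 0 := (rs_ne z₂ hSu.2.1).2 hSu
  have hinc : ∀ (D F : Cart X), Effective F → secL D 1 ≤ secL (D * F) 1 := by
    intro D F hF s hs x
    have h1 := mul_mem (hs x) (hF x)
    rw [pow_one] at h1 ⊢
    rw [mul_eq, ← mul_assoc]
    exact h1
  -- the map `bet`
  let bet : secL (W * S * E) 1 →ₗ[k] X.kap z₂ :=
    { toFun := fun a => X.rs z₂ (a.1 * (W * S * E).eq z₂ ^ 1) * (X.rs z₂ (S.eq z₂))⁻¹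
      map_add' := fun a b => by
        have h1 := congrArg Subtype.val ((resS hX z₂ (W * S * E) 1).map_add a b)
        rw [resS_coe] at h1
        rw [h1, ← add_mul]
        rfl
      map_smul' := fun c a => by
        have h1 := congrArg Subtype.val ((resS hX z₂ (W * S * E) 1).map_smul c a)
        rw [resS_coe] at h1
        rw [h1, RingHom.id_apply, ← smul_mul_assoc]
        rfl }
  have e1 : (W * S * E) ^ 1 * S⁻¹ = W * E := by
    rw [pow_one, mul_right_comm, mul_inv_cancel_right]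
  have e2 : (W * S * E) ^ 1 * E⁻¹ = W * S := by
    rw [pow_one, mul_inv_cancel_right]
  have e3 : (W * S) ^ 1 * S⁻¹ = W := by
    rw [pow_one, mul_inv_cancel_right]
  have e4 : (W * E) ^ 1 * E⁻¹ = W := by
    rw [pow_one, mul_inv_cancel_right]
  refine la (k := k) (V := K) (κ := X.kap z₁) (κ' := X.kap z₂) (A := secL (W * S) 1) (A' := secL (W * S * E) 1)
    (B := secL (W * E) 1) (L := secL W 1) (Q := secL (resD hX z₁ (W * S)) 1)
    (Q' := secL (resD hX z₁ (W * S * E)) 1) (R := secL (resD hX z₂ (W * E)) 1) hf hf1 hf2 (hinc _ _ hE.eff)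
    (by rw [mul_right_comm]; exact hinc _ _ hS.eff) (hinc _ _ hS.eff) (hinc _ _ hE.eff)
    (resS hX z₁ (W * S) 1) (resS hX z₁ (W * S * E) 1) (resS hX z₂ (W * E) 1) (fun a => ?_) (fun a => ?_)
    (fun a => ?_) (X.rs z₁ (E.eq z₁)) ((rs_ne z₁ hEu.2.1).2 hEu) (fun w hw x => ?_) (fun a => ?_) bet
    (fun a => ?_) (fun a ha => ?_)
  · rw [ex_ker hX hS, e3]
  · rw [ex_ker hX hE, e4]
  · rw [ex_ker hX hS, e1]
  · rw [pow_one, map_mul, mul_eq]
    have h1 : X.rs z₁ (E.eq z₁) * w * ((resD hX z₁ (W * S)).eq x * (resD hX z₁ E).eq x) =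
        w * (resD hX z₁ (W * S)).eq x ^ 1 * X.rs z₁ (E.eq x.1) := by
      rw [← resD_one_mem hX hEu x, pow_one]
      ring
    rw [h1]
    exact mul_mem (hw x) (rs_mem_subO hX x.2 (hE.eff x.1))
  · have ha1 : a.1 * (W * S).eq z₁ ∈ X.O z₁ := by
      have := a.2 z₁
      rwa [pow_one] at this
    rw [resS_coe, resS_coe, pow_one, pow_one, ← rs_mul z₁ hEu.2.1 ha1, mul_eq (W * S) E]
    congr 1
    ring
  · have h1 := ex_ker hX hE (W * S * E) 1 a
    rw [e2] at h1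
    rw [← h1]
    show X.rs z₂ (a.1 * (W * S * E).eq z₂ ^ 1) * (X.rs z₂ (S.eq z₂))⁻¹ = 0 ↔ _
    rw [mul_eq_zero, or_iff_left (inv_ne_zero hs2), ← resS_coe hX]
    exact ⟨fun h => Subtype.ext h, fun h => congrArg Subtype.val h⟩
  · obtain ⟨w, hw, haw⟩ := ha
    rw [resS_coe, pow_one] at haw
    intro x
    obtain ⟨γ, hγ, h1⟩ := loc_quo hX hS hE h21 W a.1 a.2 w hw haw x.1 x.2
    have h2 := rs_sec hX z₂ (W * S * E) 1 a.1 x (a.2 x.1)
    have e5 : resD hX z₂ (W * S * E) = resD hX z₂ (W * E) * resD hX z₂ S := by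
      rw [← map_mul, mul_right_comm]
    rw [pow_one, pow_one, pow_one, h1, e5, mul_eq (resD hX z₂ (W * E)) (resD hX z₂ S)] at h2
    have h3 := resD_one_mem hX hSu x
    have h4 : X.rs z₂ (S.eq x.1) ≠ 0 := by
      rw [← h3]
      exact mul_ne_zero hs2 ((resD hX z₂ S).ne x)
    show X.rs z₂ (a.1 * (W * S * E).eq z₂ ^ 1) * (X.rs z₂ (S.eq z₂))⁻¹ * (resD hX z₂ (W * E)).eq x ^ 1 ∈
      subO X z₂ x.1
    have h5 : X.rs z₂ (a.1 * (W * S * E).eq z₂ ^ 1) * (X.rs z₂ (S.eq z₂))⁻¹ * (resD hX z₂ (W * E)).eq x ^ 1 =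
        X.rs z₂ γ := by
      rw [pow_one, pow_one]
      have h6 := (resD hX z₂ S).ne x
      rw [← h3] at h2 h4
      have h7 : X.rs z₂ (a.1 * (W * S * E).eq z₂) * (resD hX z₂ (W * E)).eq x = X.rs z₂ (S.eq z₂) * X.rs z₂ γ := by
        apply mul_right_cancel₀ h6
        linear_combination h2
      rw [mul_right_comm, h7]
      field_simp
    rw [h5]
    exact rs_mem_subO hX x.2 hγ

end Pool.Agent.H32.TK
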