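import Pool.Agent.H83.TU.NV
import Pool.Agent.H83.TU.Props

/-!
# [H32 TK TRI] Theorem K: symmetric trilinear forms and the Hilbert polynomial

`Tri`: trilinear forms on the plane, `Sym3`: symmetric ones.  `chi τ l c w = τ w w w / 6 + l w + c`: the Hilbert
polynomial of a threefold with numerically trivial canonical class (`τ` the intersection form, `l = c_2 / 12`).
`chiS τ l t w = chi w - chi (w - t)`: the Hilbert polynomial of the restriction of `w` to a surface of class `t`.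
-/

set_option autoImplicit false

namespace Pool.Agent.H32.TK

/-- trilinear forms on the plane -/
abbrev Tri := (Fin 2 → ℝ) →ₗ[ℝ] (Fin 2 → ℝ) →ₗ[ℝ] (Fin 2 → ℝ) →ₗ[ℝ] ℝ

/-- symmetric trilinear forms -/
structure Sym3 (τ : Tri) : Prop where
  s12 : ∀ a b c, τ a b c = τ b a c
  s23 : ∀ a b c, τ a b c = τ a c b

/-- the Hilbert polynomial -/
noncomputable def chi (τ : Tri) (l : (Fin 2 → ℝ) →ₗ[ℝ] ℝ) (c : ℝ) (w : Fin 2 → ℝ) : ℝ :=
  τ w w w / 6 + l w + c

/-- the Hilbert polynomial of the restriction to a surface of class `t` -/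
noncomputable def chiS (τ : Tri) (l : (Fin 2 → ℝ) →ₗ[ℝ] ℝ) (t w : Fin 2 → ℝ) : ℝ :=
  τ w w t / 2 - τ w t t / 2 + τ t t t / 6 + l t

variable {τ : Tri} {l : (Fin 2 → ℝ) →ₗ[ℝ] ℝ} {c : ℝ}

theorem chi_sub (hs : Sym3 τ) (w t : Fin 2 → ℝ) : chi τ l c w - chi τ l c (w - t) = chiS τ l t w := by
  have e1 : τ t w w = τ w w t := by rw [hs.s12, hs.s23]
  have e2 : τ w t w = τ w w t := hs.s23 _ _ _
  have e3 : τ t w t = τ w t t := hs.s12 _ _ _
  have e4 : τ t t w = τ w t t := by rw [hs.s23, hs.s12]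
  unfold chi chiS
  simp only [map_sub, LinearMap.sub_apply, e1, e2, e3, e4]
  ring

/-- the difference of the Hilbert polynomials of a surface -/
theorem chiS_add (hs : Sym3 τ) (w d t : Fin 2 → ℝ) :
    chiS τ l t (w + d) - chiS τ l t w = τ w d t + τ d d t / 2 - τ d t t / 2 := by
  have e1 : τ d w t = τ w d t := hs.s12 _ _ _
  unfold chiS
  simp only [map_add, LinearMap.add_apply, e1]
  ring

theorem chiS_comb (hs : Sym3 τ) (p A t : Fin 2 → ℝ) (a b : ℝ) : chiS τ l t (a • p + b • A) =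
    a ^ 2 * (τ p p t / 2) + a * (b * τ p A t - τ p t t / 2) +
      (b ^ 2 * (τ A A t / 2) - b * (τ A t t / 2)) + (τ t t t / 6 + l t) := by
  have e1 : τ A p t = τ p A t := hs.s12 _ _ _
  unfold chiS
  simp only [map_add, map_smul, LinearMap.add_apply, LinearMap.smul_apply, smul_eq_mul, e1]
  ring

end Pool.Agent.H32.TK
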